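import Pool.Agent.SDT.Defs

/-! Working definitions for the classification of self-dual toroidal polyhedra. -/

namespace Pool.Agent.SDT
open Relation

/-- A polytopal flag system -/
structure Polytopal (S : FlagSys) : Prop where
  nonempty : Nonempty S.X
  conn : ∀ x y, EqvGen (fun a b => b = S.r0 a ∨ b = S.r1 a ∨ b = S.r2 a) x y
  free1 : ∀ x, S.r1 x ≠ x
  noloop0 : ∀ x, ¬ (orb S.r1 S.r2) x (S.r0 x)
  noloop2 : ∀ x, ¬ (orb S.r0 S.r1) x (S.r2 x)
  meet : ∀ x y, (orb S.r1 S.r2) x y → (orb S.r0 S.r1) x y → y = x ∨ y = S.r1 x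

/-- rank of a face of a flag system -/
def Faces.rk {S : FlagSys} : Faces S → ℤ
  | .bot => -1
  | .vertex _ => 0
  | .edge _ => 1
  | .face _ => 2
  | .top => 3

/-- the unfolded structure is an oriented torus -/
structure Datum.Toral (D : Datum) : Prop where
  conn : ∀ p q : D.R, EqvGen (fun a b => b = D.p0 a ∨ b = D.p1 a ∨ b = D.p2 a) p q
  orient : ∃ ε : D.R → Bool, ∀ p, ε (D.p0 p) = !ε p ∧ ε (D.p1 p) = !ε p ∧ ε (D.p2 p) = !ε p
  torus : 8 * nOrb D.p1 D.p2 = Nat.card D.R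

end Pool.Agent.SDT
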