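import Pool.Agent.SDT.Base

namespace Pool.Agent.SDT
open Relation

/-! ### Flags of an abstract polyhedron as triples -/

/-- the triples (vertex, edge, face) of a flag -/
@[ext] structure Tri (P : Type) [PartialOrder P] (rk : P → ℤ) where
  v : P
  e : P
  f : P
  hv : rk v = 0
  he : rk e = 1
  hf : rk f = 2
  hve : v < e
  hef : e < f

/-- the flag `A` contains the triple `x` -/
def Has {P : Type} [PartialOrder P] {rk : P → ℤ} (A : Flag P) (x : Tri P rk) : Prop :=
  x.v ∈ A ∧ x.e ∈ A ∧ x.f ∈ A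

/-- the other element of a set with two elements -/
theorem exists_other {α : Type} {s : Set α} (h : s.ncard = 2) {a : α} (ha : a ∈ s) :
    ∃ b, b ≠ a ∧ b ∈ s ∧ ∀ c ∈ s, c = a ∨ c = b := by
  obtain ⟨x, y, hxy, rfl⟩ := Set.ncard_eq_two.1 h
  rcases ha with rfl | ha
  · exact ⟨y, hxy.symm, by simp, by simp⟩
  · rw [Set.mem_singleton_iff] at ha
    subst ha
    refine ⟨x, hxy, by simp, ?_⟩
    intro c hc
    rcases hc with rfl | hc
    · exact Or.inr rfl
    · exact Or.inl hc

namespace IsPolyhedron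

variable {P : Type} [PartialOrder P] {rk : P → ℤ} (h : IsPolyhedron P rk)
include h

theorem rk_inj {A : Flag P} {p q : P} (hp : p ∈ A) (hq : q ∈ A) (hr : rk p = rk q) : p = q := by
  rcases A.le_or_le hp hq with hl | hl
  · rcases hl.lt_or_eq with h1 | h1
    · exact absurd hr (h.strictMono h1).ne
    · exact h1
  · rcases hl.lt_or_eq with h1 | h1
    · exact absurd hr (h.strictMono h1).ne'
    · exact h1.symm

theorem rk_mem (p : P) : rk p = -1 ∨ rk p = 0 ∨ rk p = 1 ∨ rk p = 2 ∨ rk p = 3 := by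
  have : rk p ∈ Set.range rk := ⟨p, rfl⟩
  rw [h.range_eq] at this
  simpa using this

theorem lt_of_rk {A : Flag P} {p q : P} (hp : p ∈ A) (hq : q ∈ A) (hr : rk p < rk q) :
    p < q := by
  rcases A.le_or_le hp hq with hl | hl
  · rcases hl.lt_or_eq with h1 | h1
    · exact h1
    · subst h1; exact absurd hr (lt_irrefl _)
  · rcases hl.lt_or_eq with h1 | h1
    · exact absurd hr (h.strictMono h1).not_gt
    · subst h1; exact absurd hr (lt_irrefl _)

theorem exists_rk (A : Flag P) {i : ℤ} (hi : i ∈ ({-1, 0, 1, 2, 3} : Set ℤ)) :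
    ∃ p ∈ A, rk p = i := by
  have h5 : (rk '' (A : Set P)).ncard = 5 := by
    rw [Set.InjOn.ncard_image (fun p hp q hq hpq => h.rk_inj hp hq hpq), h.card_flag]
  have hs : rk '' (A : Set P) ⊆ ({-1, 0, 1, 2, 3} : Set ℤ) := by
    rw [← h.range_eq]; exact Set.image_subset_range _ _
  have hc : ({-1, 0, 1, 2, 3} : Set ℤ).ncard = 5 := by
    have : ({-1, 0, 1, 2, 3} : Set ℤ) = (({-1, 0, 1, 2, 3} : Finset ℤ) : Set ℤ) := by simp
    rw [this, Set.ncard_coe_finset]; decide
  have := Set.eq_of_subset_of_ncard_le hs (by rw [hc, h5]) (Set.toFinite _)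
  rw [← this] at hi
  obtain ⟨p, hp, hpi⟩ := hi
  exact ⟨p, hp, hpi⟩

theorem exists_tri (A : Flag P) : ∃ x : Tri P rk, Has A x := by
  obtain ⟨v, hv, rv⟩ := h.exists_rk A (i := 0) (by simp)
  obtain ⟨e, he, re⟩ := h.exists_rk A (i := 1) (by simp)
  obtain ⟨f, hf, rf⟩ := h.exists_rk A (i := 2) (by simp)
  exact ⟨⟨v, e, f, rv, re, rf, h.lt_of_rk hv he (by omega), h.lt_of_rk he hf (by omega)⟩,
    hv, he, hf⟩

omit h in
theorem exists_flag' {p q r : P} (hpq : p ≤ q) (hqr : q ≤ r) :
    ∃ A : Flag P, p ∈ A ∧ q ∈ A ∧ r ∈ A := by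
  have hc : IsChain (· ≤ ·) ({p, q, r} : Set P) := by
    intro a ha b hb _
    simp only [Set.mem_insert_iff, Set.mem_singleton_iff] at ha hb
    rcases ha with rfl | rfl | rfl <;> rcases hb with rfl | rfl | rfl
    · exact Or.inl le_rfl
    · exact Or.inl hpq
    · exact Or.inl (hpq.trans hqr)
    · exact Or.inr hpq
    · exact Or.inl le_rfl
    · exact Or.inl hqr
    · exact Or.inr (hpq.trans hqr)
    · exact Or.inr hqr
    · exact Or.inl le_rfl
  obtain ⟨A, hA⟩ := hc.exists_subset_flag
  exact ⟨A, hA (by simp), hA (by simp), hA (by simp)⟩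

omit h in
theorem exists_flag (x : Tri P rk) : ∃ A : Flag P, Has A x :=
  exists_flag' x.hve.le x.hef.le

theorem has_unique {A : Flag P} {x y : Tri P rk} (hx : Has A x) (hy : Has A y) : x = y := by
  ext
  · exact h.rk_inj hx.1 hy.1 (x.hv.trans y.hv.symm)
  · exact h.rk_inj hx.2.1 hy.2.1 (x.he.trans y.he.symm)
  · exact h.rk_inj hx.2.2 hy.2.2 (x.hf.trans y.hf.symm)

theorem eq_bot {b p : P} (hb : ∀ x, b ≤ x) (hr : rk b = -1) (hp : rk p = -1) : p = b := by
  rcases (hb p).lt_or_eq with h1 | h1
  · have := h.strictMono h1; omega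
  · exact h1.symm

theorem eq_top {t p : P} (ht : ∀ x, x ≤ t) (hr : rk t = 3) (hp : rk p = 3) : p = t := by
  rcases (ht p).lt_or_eq with h1 | h1
  · have := h.strictMono h1; omega
  · exact h1

theorem flag_le {A B : Flag P} {x : Tri P rk} (hA : Has A x) (hB : Has B x) :
    (A : Set P) ⊆ B := by
  intro p hp
  obtain ⟨b, hb, hb'⟩ := h.least
  obtain ⟨t, ht, ht'⟩ := h.greatest
  obtain ⟨q, hq, hqr⟩ := h.exists_rk B (i := rk p) (by
    rw [← h.range_eq]; exact ⟨p, rfl⟩)
  rcases h.rk_mem p with h1 | h1 | h1 | h1 | h1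
  · have e1 := h.eq_bot hb' hb h1
    have e2 := h.eq_bot hb' hb (hqr.trans h1)
    rw [e1, ← e2]; exact hq
  · have e1 : p = x.v := h.rk_inj hp hA.1 (h1.trans x.hv.symm)
    rw [e1]; exact hB.1
  · have e1 : p = x.e := h.rk_inj hp hA.2.1 (h1.trans x.he.symm)
    rw [e1]; exact hB.2.1
  · have e1 : p = x.f := h.rk_inj hp hA.2.2 (h1.trans x.hf.symm)
    rw [e1]; exact hB.2.2
  · have e1 := h.eq_top ht' ht h1
    have e2 := h.eq_top ht' ht (hqr.trans h1)
    rw [e1, ← e2]; exact hq

/-- the other vertex -/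
theorem ex0 (x : Tri P rk) : ∃ y : Tri P rk, y.e = x.e ∧ y.f = x.f ∧ y.v ≠ x.v ∧
    ∀ z : Tri P rk, z.e = x.e → z.v = x.v ∨ z.v = y.v := by
  obtain ⟨b, hb, hb'⟩ := h.least
  have key : ∀ z : Tri P rk, b < z.v := fun z => by
    rcases (hb' z.v).lt_or_eq with h1 | h1
    · exact h1
    · have := z.hv; rw [← h1] at this; omega
  have hbe : b < x.e := (key x).trans x.hve
  obtain ⟨v', hne, hv', hall⟩ := exists_other (h.diamond b x.e hbe (by rw [x.he, hb]; norm_num))
    (a := x.v) ⟨key x, x.hve⟩
  have r1 := h.strictMono hv'.1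
  have r2 := h.strictMono hv'.2
  have r3 := x.he
  refine ⟨⟨v', x.e, x.f, by omega, x.he, x.hf, hv'.2, x.hef⟩, rfl, rfl, hne, ?_⟩
  intro z hz
  exact hall z.v ⟨key z, hz ▸ z.hve⟩

/-- the other edge -/
theorem ex1 (x : Tri P rk) : ∃ y : Tri P rk, y.v = x.v ∧ y.f = x.f ∧ y.e ≠ x.e ∧
    ∀ z : Tri P rk, z.v = x.v → z.f = x.f → z.e = x.e ∨ z.e = y.e := by
  obtain ⟨e', hne, he', hall⟩ := exists_other (h.diamond x.v x.f (x.hve.trans x.hef)
    (by rw [x.hv, x.hf]; norm_num)) (a := x.e) ⟨x.hve, x.hef⟩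
  have r1 := h.strictMono he'.1
  have r2 := h.strictMono he'.2
  have r3 := x.hv
  have r4 := x.hf
  refine ⟨⟨x.v, e', x.f, x.hv, by omega, x.hf, he'.1, he'.2⟩, rfl, rfl, hne, ?_⟩
  intro z hz hz'
  exact hall z.e ⟨hz ▸ z.hve, hz' ▸ z.hef⟩

/-- the other face -/
theorem ex2 (x : Tri P rk) : ∃ y : Tri P rk, y.v = x.v ∧ y.e = x.e ∧ y.f ≠ x.f ∧
    ∀ z : Tri P rk, z.e = x.e → z.f = x.f ∨ z.f = y.f := by
  obtain ⟨t, ht, ht'⟩ := h.greatest
  have key : ∀ z : Tri P rk, z.f < t := fun z => by
    rcases (ht' z.f).lt_or_eq with h1 | h1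
    · exact h1
    · have := z.hf; rw [h1] at this; omega
  have hbe : x.e < t := x.hef.trans (key x)
  obtain ⟨f', hne, hf', hall⟩ := exists_other (h.diamond x.e t hbe (by rw [x.he, ht]; norm_num))
    (a := x.f) ⟨x.hef, key x⟩
  have r1 := h.strictMono hf'.1
  have r2 := h.strictMono hf'.2
  have r3 := x.he
  refine ⟨⟨x.v, x.e, f', x.hv, x.he, by omega, x.hve, hf'.1⟩, rfl, rfl, hne, ?_⟩
  intro z hz
  exact hall z.f ⟨hz ▸ z.hef, key z⟩

/-- the flag system of a polyhedron -/
noncomputable def flagSys : FlagSys where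
  X := Tri P rk
  r0 x := (h.ex0 x).choose
  r1 x := (h.ex1 x).choose
  r2 x := (h.ex2 x).choose
  inv0 x := by
    have h1 := (h.ex0 x).choose_spec
    have h2 := (h.ex0 (h.ex0 x).choose).choose_spec
    ext
    · rcases h1.2.2.2 _ (h2.1.trans h1.1) with h3 | h3
      · exact h3
      · exact absurd h3 h2.2.2.1
    · exact h2.1.trans h1.1
    · exact h2.2.1.trans h1.2.1
  inv1 x := by
    have h1 := (h.ex1 x).choose_spec
    have h2 := (h.ex1 (h.ex1 x).choose).choose_spec
    ext
    · exact h2.1.trans h1.1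
    · rcases h1.2.2.2 _ (h2.1.trans h1.1) (h2.2.1.trans h1.2.1) with h3 | h3
      · exact h3
      · exact absurd h3 h2.2.2.1
    · exact h2.2.1.trans h1.2.1
  inv2 x := by
    have h1 := (h.ex2 x).choose_spec
    have h2 := (h.ex2 (h.ex2 x).choose).choose_spec
    ext
    · exact h2.1.trans h1.1
    · exact h2.2.1.trans h1.2.1
    · rcases h1.2.2.2 _ (h2.2.1.trans h1.2.1) with h3 | h3
      · exact h3
      · exact absurd h3 h2.2.2.1
  comm x := by
    have a1 := (h.ex0 x).choose_spec
    have a2 := (h.ex2 x).choose_spec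
    have b1 := (h.ex0 (h.ex2 x).choose).choose_spec
    have b2 := (h.ex2 (h.ex0 x).choose).choose_spec
    ext
    · -- both are the other vertex of the edge
      have h1 : (h.ex0 (h.ex2 x).choose).choose.v ≠ x.v := fun hh =>
        b1.2.2.1 (hh.trans a2.1.symm)
      have c1 := a1.2.2.2 _ (b1.1.trans a2.2.1)
      rw [b2.1]
      exact c1.resolve_left h1
    · rw [b1.1, a2.2.1, b2.2.1, a1.1]
    · have h1 : (h.ex2 (h.ex0 x).choose).choose.f ≠ x.f := fun hh =>
        b2.2.2.1 (hh.trans a1.2.1.symm)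
      have c1 := a2.2.2.2 _ (b2.2.1.trans a1.1)
      rw [b1.2.1]
      exact (c1.resolve_left h1).symm

theorem r0_spec (x : Tri P rk) : (h.flagSys.r0 x).e = x.e ∧ (h.flagSys.r0 x).f = x.f ∧
    (h.flagSys.r0 x).v ≠ x.v ∧ ∀ z : Tri P rk, z.e = x.e → z.v = x.v ∨ z.v = (h.flagSys.r0 x).v :=
  (h.ex0 x).choose_spec
theorem r1_spec (x : Tri P rk) : (h.flagSys.r1 x).v = x.v ∧ (h.flagSys.r1 x).f = x.f ∧
    (h.flagSys.r1 x).e ≠ x.e ∧
    ∀ z : Tri P rk, z.v = x.v → z.f = x.f → z.e = x.e ∨ z.e = (h.flagSys.r1 x).e :=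
  (h.ex1 x).choose_spec
theorem r2_spec (x : Tri P rk) : (h.flagSys.r2 x).v = x.v ∧ (h.flagSys.r2 x).e = x.e ∧
    (h.flagSys.r2 x).f ≠ x.f ∧ ∀ z : Tri P rk, z.e = x.e → z.f = x.f ∨ z.f = (h.flagSys.r2 x).f :=
  (h.ex2 x).choose_spec

theorem eq_r0 {x y : Tri P rk} (h1 : y.v ≠ x.v) (h2 : y.e = x.e) (h3 : y.f = x.f) :
    y = h.flagSys.r0 x := by
  obtain ⟨a, b, c, d⟩ := h.r0_spec x
  ext
  · exact (d y h2).resolve_left h1
  · exact h2.trans a.symm
  · exact h3.trans b.symm
theorem eq_r1 {x y : Tri P rk} (h1 : y.v = x.v) (h2 : y.e ≠ x.e) (h3 : y.f = x.f) :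
    y = h.flagSys.r1 x := by
  obtain ⟨a, b, c, d⟩ := h.r1_spec x
  ext
  · exact h1.trans a.symm
  · exact (d y h1 h3).resolve_left h2
  · exact h3.trans b.symm
theorem eq_r2 {x y : Tri P rk} (h1 : y.v = x.v) (h2 : y.e = x.e) (h3 : y.f ≠ x.f) :
    y = h.flagSys.r2 x := by
  obtain ⟨a, b, c, d⟩ := h.r2_spec x
  ext
  · exact h1.trans a.symm
  · exact h2.trans b.symm
  · exact (d y h2).resolve_left h3

theorem step {C D : Flag P} (hCD : FlagAdj C D) {x y : Tri P rk} (hx : Has C x) (hy : Has D y) :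
    y = h.flagSys.r0 x ∨ y = h.flagSys.r1 x ∨ y = h.flagSys.r2 x := by
  obtain ⟨c, hc⟩ := Set.ncard_eq_one.1 hCD.1
  have key : ∀ p ∈ C, p ∉ D → p = c := fun p hp hp' => by
    have : p ∈ (C : Set P) \ D := ⟨hp, hp'⟩
    rw [hc] at this; exact this
  by_cases hv : x.v ∈ D
  · by_cases he : x.e ∈ D
    · by_cases hf : x.f ∈ D
      · exfalso
        have hsub : (C : Set P) ⊆ D := h.flag_le hx ⟨hv, he, hf⟩
        rw [Set.sdiff_eq_empty.2 hsub] at hc
        exact (Set.singleton_ne_empty c) hc.symm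
      · refine Or.inr (Or.inr (h.eq_r2 ?_ ?_ ?_))
        · exact h.rk_inj hy.1 hv (y.hv.trans x.hv.symm)
        · exact h.rk_inj hy.2.1 he (y.he.trans x.he.symm)
        · intro hh; rw [← hh] at hf; exact hf hy.2.2
    · have hf : x.f ∈ D := by
        by_contra hf
        have h1 := key _ hx.2.1 he
        have h2 := key _ hx.2.2 hf
        exact x.hef.ne (h1.trans h2.symm)
      refine Or.inr (Or.inl (h.eq_r1 ?_ ?_ ?_))
      · exact h.rk_inj hy.1 hv (y.hv.trans x.hv.symm)
      · intro hh; rw [← hh] at he; exact he hy.2.1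
      · exact h.rk_inj hy.2.2 hf (y.hf.trans x.hf.symm)
  · have he : x.e ∈ D := by
      by_contra he
      have h1 := key _ hx.1 hv
      have h2 := key _ hx.2.1 he
      exact x.hve.ne (h1.trans h2.symm)
    have hf : x.f ∈ D := by
      by_contra hf
      have h1 := key _ hx.1 hv
      have h2 := key _ hx.2.2 hf
      exact (x.hve.trans x.hef).ne (h1.trans h2.symm)
    refine Or.inl (h.eq_r0 ?_ ?_ ?_)
    · intro hh; rw [← hh] at hv; exact hv hy.1
    · exact h.rk_inj hy.2.1 he (y.he.trans x.he.symm)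
    · exact h.rk_inj hy.2.2 hf (y.hf.trans x.hf.symm)

theorem path {A B C : Flag P} {x y : Tri P rk} (hA : Has A x) (hB : Has B y)
    (hp : ReflTransGen (fun C D : Flag P => FlagAdj C D ∧ (A : Set P) ∩ B ⊆ D) A C) :
    ∀ z : Tri P rk, Has C z →
      EqvGen (fun a b => b = h.flagSys.r0 a ∨ b = h.flagSys.r1 a ∨ b = h.flagSys.r2 a) x z ∧
      (x.v = y.v → (orb h.flagSys.r1 h.flagSys.r2) x z ∧ z.v = x.v) ∧
      (x.e = y.e → (orb h.flagSys.r0 h.flagSys.r2) x z ∧ z.e = x.e) ∧
      (x.f = y.f → (orb h.flagSys.r0 h.flagSys.r1) x z ∧ z.f = x.f) := by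
  induction hp with
  | refl =>
    intro z hz
    have := h.has_unique hA hz
    subst this
    exact ⟨EqvGen.refl _, fun _ => ⟨orb_refl _, rfl⟩, fun _ => ⟨orb_refl _, rfl⟩,
      fun _ => ⟨orb_refl _, rfl⟩⟩
  | @tail C D _ hCD ih =>
    intro w hw
    obtain ⟨z, hz⟩ := h.exists_tri C
    obtain ⟨i1, i2, i3, i4⟩ := ih z hz
    have hs := h.step hCD.1 hz hw
    refine ⟨i1.trans _ _ _ (EqvGen.rel _ _ hs), fun hv => ?_, fun he => ?_, fun hf => ?_⟩
    · obtain ⟨j1, j2⟩ := i2 hv
      have hm : x.v ∈ D := hCD.2 ⟨hA.1, by rw [hv]; exact hB.1⟩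
      have hwv : w.v = x.v := h.rk_inj hw.1 hm (w.hv.trans x.hv.symm)
      refine ⟨orb_trans j1 ?_, hwv⟩
      rcases hs with h1 | h1 | h1
      · exfalso
        apply (h.r0_spec z).2.2.1
        rw [← h1, hwv, j2]
      · rw [h1]; exact orb_left _
      · rw [h1]; exact orb_right _
    · obtain ⟨j1, j2⟩ := i3 he
      have hm : x.e ∈ D := hCD.2 ⟨hA.2.1, by rw [he]; exact hB.2.1⟩
      have hwv : w.e = x.e := h.rk_inj hw.2.1 hm (w.he.trans x.he.symm)
      refine ⟨orb_trans j1 ?_, hwv⟩
      rcases hs with h1 | h1 | h1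
      · rw [h1]; exact orb_left _
      · exfalso
        apply (h.r1_spec z).2.2.1
        rw [← h1, hwv, j2]
      · rw [h1]; exact orb_right _
    · obtain ⟨j1, j2⟩ := i4 hf
      have hm : x.f ∈ D := hCD.2 ⟨hA.2.2, by rw [hf]; exact hB.2.2⟩
      have hwv : w.f = x.f := h.rk_inj hw.2.2 hm (w.hf.trans x.hf.symm)
      refine ⟨orb_trans j1 ?_, hwv⟩
      rcases hs with h1 | h1 | h1
      · rw [h1]; exact orb_left _
      · rw [h1]; exact orb_right _
      · exfalso
        apply (h.r2_spec z).2.2.1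
        rw [← h1, hwv, j2]

theorem path' (x y : Tri P rk) :
      EqvGen (fun a b => b = h.flagSys.r0 a ∨ b = h.flagSys.r1 a ∨ b = h.flagSys.r2 a) x y ∧
      (x.v = y.v → (orb h.flagSys.r1 h.flagSys.r2) x y) ∧
      (x.e = y.e → (orb h.flagSys.r0 h.flagSys.r2) x y) ∧
      (x.f = y.f → (orb h.flagSys.r0 h.flagSys.r1) x y) := by
  obtain ⟨A, hA⟩ := exists_flag x
  obtain ⟨B, hB⟩ := exists_flag y
  obtain ⟨h1, h2, h3, h4⟩ := h.path hA hB (h.connected A B) y hB
  exact ⟨h1, fun a => (h2 a).1, fun a => (h3 a).1, fun a => (h4 a).1⟩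

theorem orb12 {x y : Tri P rk} (hxy : (orb h.flagSys.r1 h.flagSys.r2) x y) : x.v = y.v := by
  induction hxy with
  | rel a b hab =>
    rcases hab with rfl | rfl
    · exact (h.r1_spec a).1.symm
    · exact (h.r2_spec a).1.symm
  | refl a => rfl
  | symm a b _ ih => exact ih.symm
  | trans a b c _ _ ih1 ih2 => exact ih1.trans ih2

theorem orb02 {x y : Tri P rk} (hxy : (orb h.flagSys.r0 h.flagSys.r2) x y) : x.e = y.e := by
  induction hxy with
  | rel a b hab =>
    rcases hab with rfl | rfl
    · exact (h.r0_spec a).1.symm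
    · exact (h.r2_spec a).2.1.symm
  | refl a => rfl
  | symm a b _ ih => exact ih.symm
  | trans a b c _ _ ih1 ih2 => exact ih1.trans ih2

theorem orb01 {x y : Tri P rk} (hxy : (orb h.flagSys.r0 h.flagSys.r1) x y) : x.f = y.f := by
  induction hxy with
  | rel a b hab =>
    rcases hab with rfl | rfl
    · exact (h.r0_spec a).2.1.symm
    · exact (h.r1_spec a).2.1.symm
  | refl a => rfl
  | symm a b _ ih => exact ih.symm
  | trans a b c _ _ ih1 ih2 => exact ih1.trans ih2

theorem polytopal : Polytopal h.flagSys where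
  nonempty := by
    obtain ⟨b, _, _⟩ := h.least
    obtain ⟨A, _⟩ := exists_flag' (le_refl b) (le_refl b)
    obtain ⟨x, _⟩ := h.exists_tri A
    exact ⟨x⟩
  conn x y := (h.path' x y).1
  free1 x hx := (h.r1_spec x).2.2.1 (congrArg Tri.e hx)
  noloop0 x hx := (h.r0_spec x).2.2.1 (h.orb12 hx).symm
  noloop2 x hx := (h.r2_spec x).2.2.1 (h.orb01 hx).symm
  meet x y h1 h2 := by
    have hv := h.orb12 h1
    have hf := h.orb01 h2
    by_cases he : y.e = x.e
    · exact Or.inl (Tri.ext hv.symm he hf.symm)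
    · exact Or.inr (h.eq_r1 hv.symm he hf.symm)

/-- the map from the faces of the flag system to the polyhedron -/
noncomputable def toP (b t : P) : Faces h.flagSys → P
  | .bot => b
  | .top => t
  | .vertex a => Quotient.lift (fun x : Tri P rk => x.v) (fun _ _ hab => h.orb12 hab) a
  | .edge a => Quotient.lift (fun x : Tri P rk => x.e) (fun _ _ hab => h.orb02 hab) a
  | .face a => Quotient.lift (fun x : Tri P rk => x.f) (fun _ _ hab => h.orb01 hab) a

end IsPolyhedron

/-- a polyhedron is the poset of faces of its flag system -/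
theorem exists_flagSys {P : Type} [PartialOrder P] {rk : P → ℤ} (h : IsPolyhedron P rk) :
    ∃ S : FlagSys, Polytopal S ∧ Nonempty (P ≃o Faces S) := by
  refine ⟨h.flagSys, h.polytopal, ?_⟩
  obtain ⟨b, hb, hb'⟩ := h.least
  obtain ⟨t, ht, ht'⟩ := h.greatest
  have hrk : ∀ a, rk (h.toP b t a) = Faces.rk a := by
    intro a
    cases a with
    | bot => exact hb
    | top => exact ht
    | vertex a => induction a using Quotient.inductionOn with | _ x => exact x.hv
    | edge a => induction a using Quotient.inductionOn with | _ x => exact x.he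
    | face a => induction a using Quotient.inductionOn with | _ x => exact x.hf
  have hle : ∀ a c, h.toP b t a ≤ h.toP b t c ↔ a ≤ c := by
    intro a c
    constructor
    · intro hac
      have hm := h.strictMono.monotone hac
      rw [hrk, hrk] at hm
      change Faces.le a c
      cases a with
      | bot => trivial
      | top =>
        cases c with
        | top => trivial
        | bot => simp [Faces.rk] at hm
        | vertex c => simp [Faces.rk] at hm
        | edge c => simp [Faces.rk] at hm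
        | face c => simp [Faces.rk] at hm
      | vertex a =>
        induction a using Quotient.inductionOn with | _ x
        cases c with
        | top => trivial
        | bot => simp [Faces.rk] at hm
        | vertex c =>
          induction c using Quotient.inductionOn with | _ y
          have hxy : x.v = y.v := by
            have h1 : x.v ≤ y.v := hac
            rcases h1.lt_or_eq with h2 | h2
            · have := h.strictMono h2; have := x.hv; have := y.hv; omega
            · exact h2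
          exact (mk_eq.2 ((h.path' x y).2.1 hxy))
        | edge c =>
          induction c using Quotient.inductionOn with | _ y
          have hxy : x.v ≤ y.e := hac
          obtain ⟨A, a1, a2, a3⟩ := IsPolyhedron.exists_flag' hxy y.hef.le
          obtain ⟨z, hz⟩ := h.exists_tri A
          have e1 : x.v = z.v := h.rk_inj a1 hz.1 (x.hv.trans z.hv.symm)
          have e2 : y.e = z.e := h.rk_inj a2 hz.2.1 (y.he.trans z.he.symm)
          exact ⟨z, mk_eq.2 ((h.path' x z).2.1 e1), mk_eq.2 ((h.path' y z).2.2.1 e2)⟩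
        | face c =>
          induction c using Quotient.inductionOn with | _ y
          have hxy : x.v ≤ y.f := hac
          obtain ⟨A, a1, a2, a3⟩ := IsPolyhedron.exists_flag' hxy (le_refl y.f)
          obtain ⟨z, hz⟩ := h.exists_tri A
          have e1 : x.v = z.v := h.rk_inj a1 hz.1 (x.hv.trans z.hv.symm)
          have e2 : y.f = z.f := h.rk_inj a2 hz.2.2 (y.hf.trans z.hf.symm)
          exact ⟨z, mk_eq.2 ((h.path' x z).2.1 e1), mk_eq.2 ((h.path' y z).2.2.2 e2)⟩
      | edge a =>
        induction a using Quotient.inductionOn with | _ x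
        cases c with
        | top => trivial
        | bot => simp [Faces.rk] at hm
        | vertex c => simp [Faces.rk] at hm
        | edge c =>
          induction c using Quotient.inductionOn with | _ y
          have hxy : x.e = y.e := by
            have h1 : x.e ≤ y.e := hac
            rcases h1.lt_or_eq with h2 | h2
            · have := h.strictMono h2; have := x.he; have := y.he; omega
            · exact h2
          exact (mk_eq.2 ((h.path' x y).2.2.1 hxy))
        | face c =>
          induction c using Quotient.inductionOn with | _ y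
          have hxy : x.e ≤ y.f := hac
          obtain ⟨A, a1, a2, a3⟩ := IsPolyhedron.exists_flag' hxy (le_refl y.f)
          obtain ⟨z, hz⟩ := h.exists_tri A
          have e1 : x.e = z.e := h.rk_inj a1 hz.2.1 (x.he.trans z.he.symm)
          have e2 : y.f = z.f := h.rk_inj a2 hz.2.2 (y.hf.trans z.hf.symm)
          exact ⟨z, mk_eq.2 ((h.path' x z).2.2.1 e1), mk_eq.2 ((h.path' y z).2.2.2 e2)⟩
      | face a =>
        induction a using Quotient.inductionOn with | _ x
        cases c with
        | top => trivial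
        | bot => simp [Faces.rk] at hm
        | vertex c => simp [Faces.rk] at hm
        | edge c => simp [Faces.rk] at hm
        | face c =>
          induction c using Quotient.inductionOn with | _ y
          have hxy : x.f = y.f := by
            have h1 : x.f ≤ y.f := hac
            rcases h1.lt_or_eq with h2 | h2
            · have := h.strictMono h2; have := x.hf; have := y.hf; omega
            · exact h2
          exact (mk_eq.2 ((h.path' x y).2.2.2 hxy))
    · intro hac
      change Faces.le a c at hac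
      cases a with
      | bot => exact hb' _
      | top => cases c <;> first | exact le_rfl | exact hac.elim
      | vertex a =>
        cases c with
        | top => exact ht' _
        | bot => exact hac.elim
        | vertex c => rw [show a = c from hac]
        | edge c =>
          obtain ⟨z, rfl, rfl⟩ := hac
          exact z.hve.le
        | face c =>
          obtain ⟨z, rfl, rfl⟩ := hac
          exact (z.hve.trans z.hef).le
      | edge a =>
        cases c with
        | top => exact ht' _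
        | bot => exact hac.elim
        | vertex c => exact hac.elim
        | edge c => rw [show a = c from hac]
        | face c =>
          obtain ⟨z, rfl, rfl⟩ := hac
          exact z.hef.le
      | face a =>
        cases c with
        | top => exact ht' _
        | bot => exact hac.elim
        | vertex c => exact hac.elim
        | edge c => exact hac.elim
        | face c => rw [show a = c from hac]
  have hsurj : Function.Surjective (h.toP b t) := by
    intro p
    obtain ⟨A, hA, _⟩ := IsPolyhedron.exists_flag' (le_refl p) (le_refl p)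
    obtain ⟨x, hx⟩ := h.exists_tri A
    rcases h.rk_mem p with h1 | h1 | h1 | h1 | h1
    · exact ⟨.bot, (h.eq_bot hb' hb h1).symm⟩
    · exact ⟨.vertex ⟦x⟧, h.rk_inj hx.1 hA (x.hv.trans h1.symm)⟩
    · exact ⟨.edge ⟦x⟧, h.rk_inj hx.2.1 hA (x.he.trans h1.symm)⟩
    · exact ⟨.face ⟦x⟧, h.rk_inj hx.2.2 hA (x.hf.trans h1.symm)⟩
    · exact ⟨.top, (h.eq_top ht' ht h1).symm⟩
  have hinj : Function.Injective (h.toP b t) := by
    intro a c hac
    exact le_antisymm ((hle a c).1 hac.le) ((hle c a).1 hac.ge)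
  exact ⟨(OrderIso.symm
    { toEquiv := Equiv.ofBijective (h.toP b t) ⟨hinj, hsurj⟩
      map_rel_iff' := fun {a c} => hle a c } : P ≃o Faces h.flagSys)⟩

/-! ### Invariance under isomorphism -/

theorem flagAdj_map {P Q : Type} [PartialOrder P] [PartialOrder Q] (e : P ≃o Q) {A B : Flag P}
    (hAB : FlagAdj A B) : FlagAdj (Flag.map e A) (Flag.map e B) := by
  unfold FlagAdj at *
  simp only [Flag.coe_map, ← Set.image_sdiff e.injective]
  rw [Set.ncard_image_of_injective _ e.injective, Set.ncard_image_of_injective _ e.injective]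
  exact hAB

theorem map_map_symm {P Q : Type} [PartialOrder P] [PartialOrder Q] (e : P ≃o Q) (A : Flag Q) :
    Flag.map e (Flag.map e.symm A) = A := by
  apply SetLike.coe_injective
  simp only [Flag.coe_map]
  rw [← Set.image_comp]
  simp

theorem IsPolyhedron.congr {P Q : Type} [PartialOrder P] [PartialOrder Q] (e : P ≃o Q)
    {rk : P → ℤ} (h : IsPolyhedron P rk) : IsPolyhedron Q (fun q => rk (e.symm q)) where
  strictMono := h.strictMono.comp e.symm.strictMono
  range_eq := by
    rw [← h.range_eq]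
    exact e.symm.surjective.range_comp rk
  least := by
    obtain ⟨b, hb, hb'⟩ := h.least
    refine ⟨e b, by simpa using hb, fun x => ?_⟩
    rw [← e.apply_symm_apply x]
    exact e.monotone (hb' _)
  greatest := by
    obtain ⟨b, hb, hb'⟩ := h.greatest
    refine ⟨e b, by simpa using hb, fun x => ?_⟩
    rw [← e.apply_symm_apply x]
    exact e.monotone (hb' _)
  card_flag A := by
    rw [← h.card_flag (Flag.map e.symm A), Flag.coe_map,
      Set.ncard_image_of_injective _ e.symm.injective]
  diamond F G hFG hr := by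
    have h1 := h.diamond (e.symm F) (e.symm G) (e.symm.strictMono hFG) hr
    rw [← h1, ← Set.ncard_image_of_injective _ e.symm.injective]
    congr 1
    ext p
    simp only [Set.mem_image, Set.mem_ofPred_eq]
    constructor
    · rintro ⟨H, ⟨h1, h2⟩, rfl⟩
      exact ⟨e.symm.strictMono h1, e.symm.strictMono h2⟩
    · rintro ⟨h1, h2⟩
      refine ⟨e p, ⟨?_, ?_⟩, e.symm_apply_apply p⟩
      · rw [← e.apply_symm_apply F]; exact e.strictMono h1
      · rw [← e.apply_symm_apply G]; exact e.strictMono h2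
  connected A B := by
    have h1 := h.connected (Flag.map e.symm A) (Flag.map e.symm B)
    have h2 : ReflTransGen (fun C D : Flag Q => FlagAdj C D ∧ (A : Set Q) ∩ B ⊆ D)
        (Flag.map e (Flag.map e.symm A)) (Flag.map e (Flag.map e.symm B)) := by
      refine h1.lift (Flag.map e) ?_
      rintro C D ⟨hCD, hs⟩
      refine ⟨flagAdj_map e hCD, ?_⟩
      rintro q ⟨hqA, hqB⟩
      rw [Flag.coe_map]
      refine ⟨e.symm q, hs ⟨?_, ?_⟩, e.apply_symm_apply q⟩
      · rw [Flag.coe_map]; exact ⟨q, hqA, rfl⟩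
      · rw [Flag.coe_map]; exact ⟨q, hqB, rfl⟩
    rwa [map_map_symm, map_map_symm] at h2

/-- invariance under isomorphism -/
theorem SelfDualToroidal.congr {P Q : Type} [PartialOrder P] [PartialOrder Q] (e : P ≃o Q)
    (h : SelfDualToroidal P) : SelfDualToroidal Q := by
  obtain ⟨⟨rk, ht⟩, ⟨d⟩⟩ := h
  refine ⟨⟨fun q => rk (e.symm q), ht.poly.congr e, ?_, ?_, ?_⟩, ⟨?_⟩⟩
  · have := ht.finite
    exact Finite.of_equiv P e.toEquiv
  · obtain ⟨ε, hε⟩ := ht.orientable
    exact ⟨fun A => ε (Flag.map e.symm A), fun A B hAB => hε _ _ (flagAdj_map e.symm hAB)⟩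
  · have key : ∀ i : ℤ, {x | rk (e.symm x) = i}.ncard = {x | rk x = i}.ncard := by
      intro i
      rw [← Set.ncard_image_of_injective _ e.symm.injective]
      congr 1
      ext p
      simp only [Set.mem_image, Set.mem_ofPred_eq]
      constructor
      · rintro ⟨q, hq, rfl⟩; exact hq
      · intro hp; exact ⟨e p, by simpa using hp, e.symm_apply_apply p⟩
    have := ht.euler
    rw [← key 0, ← key 1, ← key 2] at this
    exact this
  · exact (e.symm.trans d).trans e.dual

end Pool.Agent.SDT
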