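import Pool.Agent.SDT.PosetB

namespace Pool.Agent.SDT
open Relation

variable {S : FlagSys}

/-- the faces of a flag system as a sum type -/
def facesEquiv (S : FlagSys) : Faces S ≃ (Unit ⊕ Quotient (orb S.r1 S.r2)) ⊕
    (Quotient (orb S.r0 S.r2) ⊕ (Quotient (orb S.r0 S.r1) ⊕ Unit)) where
  toFun
    | .bot => .inl (.inl ())
    | .vertex a => .inl (.inr a)
    | .edge a => .inr (.inl a)
    | .face a => .inr (.inr (.inl a))
    | .top => .inr (.inr (.inr ()))
  invFun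
    | .inl (.inl ()) => .bot
    | .inl (.inr a) => .vertex a
    | .inr (.inl a) => .edge a
    | .inr (.inr (.inl a)) => .face a
    | .inr (.inr (.inr ())) => .top
  left_inv a := by cases a <;> rfl
  right_inv a := by rcases a with (a | a) | (a | (a | a)) <;> rfl

theorem finite_faces (S : FlagSys) [Finite S.X] : Finite (Faces S) :=
  Finite.of_equiv _ (facesEquiv S).symm

theorem Polytopal.finite_X (h : Polytopal S) [Finite (Faces S)] : Finite S.X := by
  refine Finite.of_injective (fun x : S.X => (S.V x, S.E x, S.F x)) ?_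
  intro x y hxy
  simp only [Prod.mk.injEq] at hxy
  exact (h.of_VEF hxy.1 hxy.2.1 hxy.2.2).symm

theorem ncard_rk0 (S : FlagSys) : {a : Faces S | a.rk = 0}.ncard = nOrb S.r1 S.r2 := by
  have : {a : Faces S | a.rk = 0} = Set.range Faces.vertex := by
    ext a
    simp only [Set.mem_ofPred_eq, Set.mem_range]
    constructor
    · intro h
      cases a <;> simp_all [Faces.rk]
    · rintro ⟨b, rfl⟩; rfl
  rw [this, nOrb, Set.ncard_range_of_injective (fun a b h => by simpa using h)]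

theorem ncard_rk1 (S : FlagSys) : {a : Faces S | a.rk = 1}.ncard = nOrb S.r0 S.r2 := by
  have : {a : Faces S | a.rk = 1} = Set.range Faces.edge := by
    ext a
    simp only [Set.mem_ofPred_eq, Set.mem_range]
    constructor
    · intro h
      cases a <;> simp_all [Faces.rk]
    · rintro ⟨b, rfl⟩; rfl
  rw [this, nOrb, Set.ncard_range_of_injective (fun a b h => by simpa using h)]

theorem ncard_rk2 (S : FlagSys) : {a : Faces S | a.rk = 2}.ncard = nOrb S.r0 S.r1 := by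
  have : {a : Faces S | a.rk = 2} = Set.range Faces.face := by
    ext a
    simp only [Set.mem_ofPred_eq, Set.mem_range]
    constructor
    · intro h
      cases a <;> simp_all [Faces.rk]
    · rintro ⟨b, rfl⟩; rfl
  rw [this, nOrb, Set.ncard_range_of_injective (fun a b h => by simpa using h)]

/-- the rank function is unique -/
theorem rk_unique [Nonempty S.X] {rk : Faces S → ℤ} (h : IsPolyhedron (Faces S) rk) :
    rk = Faces.rk := by
  have hb : ∀ a, -1 ≤ rk a ∧ rk a ≤ 3 := by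
    intro a
    have : rk a ∈ Set.range rk := ⟨a, rfl⟩
    rw [h.range_eq] at this
    simp only [Set.mem_insert_iff, Set.mem_singleton_iff] at this
    omega
  have key : ∀ x : S.X, rk .bot = -1 ∧ rk (S.V x) = 0 ∧ rk (S.E x) = 1 ∧ rk (S.F x) = 2 ∧
      rk .top = 3 := by
    intro x
    have h1 := h.strictMono (bot_lt_V x)
    have h2 := h.strictMono (V_lt_E x)
    have h3 := h.strictMono (E_lt_F x)
    have h4 := h.strictMono (F_lt_top x)
    have h5 := hb .bot
    have h6 := hb .top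
    omega
  funext a
  rcases a.cases' with rfl | ⟨x, rfl⟩ | ⟨x, rfl⟩ | ⟨x, rfl⟩ | rfl
  · exact (key (Classical.arbitrary _)).1
  · exact (key x).2.1
  · exact (key x).2.2.1
  · exact (key x).2.2.2.1
  · exact (key (Classical.arbitrary _)).2.2.2.2

theorem rk_bounds (a : Faces S) : -1 ≤ a.rk ∧ a.rk ≤ 3 := by
  cases a <;> simp [Faces.rk]

/-- an order reversing map of the poset of faces -/
theorem exists_flip {f : Faces S → Faces S} (hf : StrictAnti f) (x : S.X) :
    ∃ y, f (S.V x) = S.F y ∧ f (S.E x) = S.E y ∧ f (S.F x) = S.V y := by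
  have h1 := hf (bot_lt_V x)
  have h2 := hf (V_lt_E x)
  have h3 := hf (E_lt_F x)
  have h4 := hf (F_lt_top x)
  have k1 := Faces.strictMono_rk h1
  have k2 := Faces.strictMono_rk h2
  have k3 := Faces.strictMono_rk h3
  have k4 := Faces.strictMono_rk h4
  have b1 := rk_bounds (f .bot)
  have b2 := rk_bounds (f .top)
  have e1 : (f (S.V x)).rk = 2 := by omega
  have e2 : (f (S.E x)).rk = 1 := by omega
  have e3 : (f (S.F x)).rk = 0 := by omega
  obtain ⟨a, ha⟩ : ∃ a, f (S.V x) = S.F a := by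
    rcases (f (S.V x)).cases' with h | ⟨z, h⟩ | ⟨z, h⟩ | ⟨z, h⟩ | h <;> rw [h] at e1
    · simp [rk_bot] at e1
    · simp [rk_V] at e1
    · simp [rk_E] at e1
    · exact ⟨z, h⟩
    · simp [rk_top] at e1
  obtain ⟨b, hb⟩ : ∃ a, f (S.E x) = S.E a := by
    rcases (f (S.E x)).cases' with h | ⟨z, h⟩ | ⟨z, h⟩ | ⟨z, h⟩ | h <;> rw [h] at e2
    · simp [rk_bot] at e2
    · simp [rk_V] at e2
    · exact ⟨z, h⟩
    · simp [rk_F] at e2
    · simp [rk_top] at e2
  obtain ⟨c, hc⟩ : ∃ a, f (S.F x) = S.V a := by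
    rcases (f (S.F x)).cases' with h | ⟨z, h⟩ | ⟨z, h⟩ | ⟨z, h⟩ | h <;> rw [h] at e3
    · simp [rk_bot] at e3
    · exact ⟨z, h⟩
    · simp [rk_E] at e3
    · simp [rk_F] at e3
    · simp [rk_top] at e3
  rw [ha, hb] at h2
  rw [hb, hc] at h3
  obtain ⟨w, hw1, hw2, hw3⟩ := common_flag h3.le h2.le
  exact ⟨w, by rw [ha, hw3], by rw [hb, hw2], by rw [hc, hw1]⟩

theorem orb_swapC {X : Type} {f g : X → X} {x y : X} (h : (orb f g) x y) : (orb g f) x y := by
  have h' : EqvGen (fun a b => b = f a ∨ b = g a) x y := h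
  clear h
  induction h' with
  | rel a b hab =>
    rcases hab with rfl | rfl
    · exact orb_right _
    · exact orb_left _
  | refl a => exact orb_refl _
  | symm a b _ ih => exact orb_symm ih
  | trans a b c _ _ ih1 ih2 => exact orb_trans ih1 ih2

/-- the order reversing map of faces induced by a flipping map of flag systems -/
def Faces.flip {S : FlagSys} (δ : S.X → S.X) (h0 : ∀ x, δ (S.r0 x) = S.r2 (δ x))
    (h1 : ∀ x, δ (S.r1 x) = S.r1 (δ x)) (h2 : ∀ x, δ (S.r2 x) = S.r0 (δ x)) :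
    Faces S → Faces S
  | .bot => .top
  | .vertex a => .face (Quotient.map δ (fun _ _ h => orb_swapC (orb_mapB h1 h2 h)) a)
  | .edge a => .edge (Quotient.map δ (fun _ _ h => orb_swapC (orb_mapB h0 h2 h)) a)
  | .face a => .vertex (Quotient.map δ (fun _ _ h => orb_swapC (orb_mapB h0 h1 h)) a)
  | .top => .bot

theorem Faces.flip_anti {S : FlagSys} (δ : S.X → S.X) (h0 : ∀ x, δ (S.r0 x) = S.r2 (δ x))
    (h1 : ∀ x, δ (S.r1 x) = S.r1 (δ x)) (h2 : ∀ x, δ (S.r2 x) = S.r0 (δ x)) :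
    Antitone (Faces.flip δ h0 h1 h2) := by
  intro a b hab
  rcases a.cases' with rfl | ⟨x, rfl⟩ | ⟨x, rfl⟩ | ⟨x, rfl⟩ | rfl
  · exact Faces.le_top' _
  · rcases b.cases' with rfl | ⟨y, rfl⟩ | ⟨y, rfl⟩ | ⟨y, rfl⟩ | rfl
    · exact hab.elim
    · have : S.V x = S.V y := congrArg Faces.vertex hab
      rw [this]
    · obtain ⟨z, h3, h4⟩ := V_le_E_iff.1 hab
      rw [← h3, ← h4]
      exact E_le_F (δ z)
    · obtain ⟨z, h3, h4⟩ := V_le_F_iff.1 hab
      rw [← h3, ← h4]
      exact V_le_F (δ z)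
    · exact Faces.bot_le' _
  · rcases b.cases' with rfl | ⟨y, rfl⟩ | ⟨y, rfl⟩ | ⟨y, rfl⟩ | rfl
    · exact hab.elim
    · exact hab.elim
    · have : S.E x = S.E y := congrArg Faces.edge hab
      rw [this]
    · obtain ⟨z, h3, h4⟩ := E_le_F_iff.1 hab
      rw [← h3, ← h4]
      exact V_le_E (δ z)
    · exact Faces.bot_le' _
  · rcases b.cases' with rfl | ⟨y, rfl⟩ | ⟨y, rfl⟩ | ⟨y, rfl⟩ | rfl
    · exact hab.elim
    · exact hab.elim
    · exact hab.elim
    · have : S.F x = S.F y := congrArg Faces.face hab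
      rw [this]
    · exact Faces.bot_le' _
  · rcases b.cases' with rfl | ⟨y, rfl⟩ | ⟨y, rfl⟩ | ⟨y, rfl⟩ | rfl
    · exact hab.elim
    · exact hab.elim
    · exact hab.elim
    · exact hab.elim
    · exact le_rfl

theorem selfDual_of_flip (δ : S.X ≃ S.X) (h0 : ∀ x, δ (S.r0 x) = S.r2 (δ x))
    (h1 : ∀ x, δ (S.r1 x) = S.r1 (δ x)) (h2 : ∀ x, δ (S.r2 x) = S.r0 (δ x)) :
    Nonempty (Faces S ≃o (Faces S)ᵒᵈ) := by
  have k0 : ∀ x, δ.symm (S.r0 x) = S.r2 (δ.symm x) := fun x => by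
    rw [Equiv.symm_apply_eq, h2, Equiv.apply_symm_apply]
  have k1 : ∀ x, δ.symm (S.r1 x) = S.r1 (δ.symm x) := fun x => by
    rw [Equiv.symm_apply_eq, h1, Equiv.apply_symm_apply]
  have k2 : ∀ x, δ.symm (S.r2 x) = S.r0 (δ.symm x) := fun x => by
    rw [Equiv.symm_apply_eq, h0, Equiv.apply_symm_apply]
  have l1 : ∀ a, (Faces.flip δ.symm k0 k1 k2) ((Faces.flip δ h0 h1 h2) a) = a := by
    intro a
    rcases a.cases' with rfl | ⟨x, rfl⟩ | ⟨x, rfl⟩ | ⟨x, rfl⟩ | rfl
    · rfl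
    · simp [FlagSys.V, Faces.flip]
    · simp [FlagSys.E, Faces.flip]
    · simp [FlagSys.F, Faces.flip]
    · rfl
  have l2 : ∀ a, (Faces.flip δ h0 h1 h2) ((Faces.flip δ.symm k0 k1 k2) a) = a := by
    intro a
    rcases a.cases' with rfl | ⟨x, rfl⟩ | ⟨x, rfl⟩ | ⟨x, rfl⟩ | rfl
    · rfl
    · simp [FlagSys.V, Faces.flip]
    · simp [FlagSys.E, Faces.flip]
    · simp [FlagSys.F, Faces.flip]
    · rfl
  have m1 : Function.LeftInverse (fun a => Faces.flip δ.symm k0 k1 k2 (OrderDual.ofDual a))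
      (fun a => OrderDual.toDual (Faces.flip δ h0 h1 h2 a)) := fun a => l1 a
  have m2 : Function.RightInverse (fun a => Faces.flip δ.symm k0 k1 k2 (OrderDual.ofDual a))
      (fun a => OrderDual.toDual (Faces.flip δ h0 h1 h2 a)) :=
    fun a => congrArg OrderDual.toDual (l2 (OrderDual.ofDual a))
  refine ⟨⟨⟨fun a => OrderDual.toDual (Faces.flip δ h0 h1 h2 a),
    fun a => Faces.flip δ.symm k0 k1 k2 (OrderDual.ofDual a), m1, m2⟩, ?_⟩⟩
  intro a b
  show Faces.flip δ h0 h1 h2 b ≤ Faces.flip δ h0 h1 h2 a ↔ a ≤ b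
  constructor
  · intro hab
    have := Faces.flip_anti δ.symm k0 k1 k2 hab
    rwa [l1, l1] at this
  · intro hab
    exact Faces.flip_anti δ h0 h1 h2 hab

theorem Polytopal.exists_delta (h : Polytopal S) (e : Faces S ≃o (Faces S)ᵒᵈ) :
    ∃ δ : S.X → S.X, Function.Bijective δ ∧ (∀ x, δ (S.r0 x) = S.r2 (δ x)) ∧
        (∀ x, δ (S.r1 x) = S.r1 (δ x)) ∧ ∀ x, δ (S.r2 x) = S.r0 (δ x) := by
  set f : Faces S → Faces S := fun a => OrderDual.ofDual (e a) with hf
  set g : Faces S → Faces S := fun a => e.symm (OrderDual.toDual a) with hg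
  have hfa : StrictAnti f := fun a b hab => by
    have : e a < e b := e.lt_iff_lt.2 hab
    exact this
  have hga : StrictAnti g := fun a b hab => by
    have : OrderDual.toDual b < OrderDual.toDual a := hab
    exact e.symm.lt_iff_lt.2 this
  have hfg : ∀ a, f (g a) = a := fun a => by simp [hf, hg]
  have hfi : Function.Injective f := fun a b hab => e.injective hab
  choose δ hV hE hF using fun x => exists_flip hfa x
  refine ⟨δ, ⟨?_, ?_⟩, ?_, ?_, ?_⟩
  · intro x y hxy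
    refine (h.of_VEF (hfi ?_) (hfi ?_) (hfi ?_)).symm
    · rw [hV, hV, hxy]
    · rw [hE, hE, hxy]
    · rw [hF, hF, hxy]
  · intro y
    obtain ⟨x, h1, h2, h3⟩ := exists_flip hga y
    refine ⟨x, (h.of_VEF ?_ ?_ ?_).symm⟩
    · rw [← hF, ← h1, hfg]
    · rw [← hE, ← h2, hfg]
    · rw [← hV, ← h3, hfg]
  · intro x
    have e1 : S.V (δ x) = S.V (δ (S.r0 x)) := by rw [← hF, ← hF, F_r0]
    have e2 : S.E (δ x) = S.E (δ (S.r0 x)) := by rw [← hE, ← hE, E_r0]
    have e3 : S.F (δ x) ≠ S.F (δ (S.r0 x)) := by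
      rw [← hV, ← hV]
      exact fun hh => h.V_r0 x (hfi hh).symm
    rcases h.of_VE e1 e2 with hh | hh
    · rw [hh] at e3; exact (e3 rfl).elim
    · exact hh
  · intro x
    have e1 : S.V (δ x) = S.V (δ (S.r1 x)) := by rw [← hF, ← hF, F_r1]
    have e2 : S.F (δ x) = S.F (δ (S.r1 x)) := by rw [← hV, ← hV, V_r1]
    have e3 : S.E (δ x) ≠ S.E (δ (S.r1 x)) := by
      rw [← hE, ← hE]
      exact fun hh => h.E_r1 x (hfi hh).symm
    rcases h.of_VF e1 e2 with hh | hh
    · rw [hh] at e3; exact (e3 rfl).elim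
    · exact hh
  · intro x
    have e1 : S.F (δ x) = S.F (δ (S.r2 x)) := by rw [← hV, ← hV, V_r2]
    have e2 : S.E (δ x) = S.E (δ (S.r2 x)) := by rw [← hE, ← hE, E_r2]
    have e3 : S.V (δ x) ≠ S.V (δ (S.r2 x)) := by
      rw [← hF, ← hF]
      exact fun hh => h.F_r2 x (hfi hh).symm
    rcases h.of_EF e2 e1 with hh | hh
    · rw [hh] at e3; exact (e3 rfl).elim
    · exact hh

/-- self-dual toroidal polytopal flag systems -/
theorem Polytopal.selfDualToroidal_iff {S : FlagSys} (h : Polytopal S) :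
    SelfDualToroidal (Faces S) ↔ Finite S.X ∧
      (∃ ε : S.X → Bool, ∀ x, ε (S.r0 x) = !ε x ∧ ε (S.r1 x) = !ε x ∧ ε (S.r2 x) = !ε x) ∧
      nOrb S.r1 S.r2 + nOrb S.r0 S.r1 = nOrb S.r0 S.r2 ∧
      ∃ δ : S.X → S.X, Function.Bijective δ ∧ (∀ x, δ (S.r0 x) = S.r2 (δ x)) ∧
        (∀ x, δ (S.r1 x) = S.r1 (δ x)) ∧ ∀ x, δ (S.r2 x) = S.r0 (δ x) := by
  have hne := h.nonempty
  constructor
  · rintro ⟨⟨rk, ht⟩, ⟨e⟩⟩
    have hfin := ht.finite
    refine ⟨h.finite_X, ?_, ?_, h.exists_delta e⟩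
    · obtain ⟨ε, hε⟩ := ht.orientable
      have hb : ∀ a b : Bool, a ≠ b → b = !a := by decide
      refine ⟨fun x => ε (flagOf x), fun x => ⟨?_, ?_, ?_⟩⟩
      · exact hb _ _ (hε _ _ (h.flagAdj_iff.2 (Or.inl rfl)))
      · exact hb _ _ (hε _ _ (h.flagAdj_iff.2 (Or.inr (Or.inl rfl))))
      · exact hb _ _ (hε _ _ (h.flagAdj_iff.2 (Or.inr (Or.inr rfl))))
    · have he := ht.euler
      rw [rk_unique ht.poly, ncard_rk0, ncard_rk1, ncard_rk2] at he
      omega
  · rintro ⟨hfin, ⟨ε, hε⟩, he, δ, hb, h0, h1, h2⟩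
    refine ⟨⟨Faces.rk, h.isPolyhedron, finite_faces S, ?_, ?_⟩, ?_⟩
    · choose φ hφ using fun A : Flag (Faces S) => exists_flagOf A
      refine ⟨fun A => ε (φ A), ?_⟩
      intro A B hAB
      rw [hφ A, hφ B, h.flagAdj_iff] at hAB
      show ε (φ A) ≠ ε (φ B)
      rcases hAB with hh | hh | hh
      · rw [hh, (hε _).1]; simp
      · rw [hh, (hε _).2.1]; simp
      · rw [hh, (hε _).2.2]; simp
    · rw [ncard_rk0, ncard_rk1, ncard_rk2]
      omega
    · exact selfDual_of_flip (Equiv.ofBijective δ hb) h0 h1 h2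

end Pool.Agent.SDT
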