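import Pool.Agent.SDT.Types
import Pool.Agent.SDT.PosetA
import Pool.Agent.SDT.PosetC

/-! Every simple admissible datum gives a self-dual toroidal polyhedron. -/

namespace Pool.Agent.SDT
open Relation

namespace Datum

variable (D : Datum)

/-! ### connectedness -/

/-- connectedness relation of the unfolded structure -/
def cr (D : Datum) (p q : D.R) : Prop :=
  EqvGen (fun a b => b = D.p0 a ∨ b = D.p1 a ∨ b = D.p2 a) p q

theorem cr_transl (c : ZMod (2 ^ D.k)) {p q : D.R} (h : D.cr p q) :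
    D.cr (p.1, p.2 + c) (q.1, q.2 + c) := by
  refine eqvGen_map (fun p : D.R => (p.1, p.2 + c)) ?_ h
  rintro ⟨y, z⟩ _ (rfl | rfl | rfl)
  · left; simp only [p0, Prod.mk.injEq, true_and]; ring
  · right; left; simp only [p1, Prod.mk.injEq, true_and]; ring
  · right; right; simp only [p2, Prod.mk.injEq, true_and]; ring

theorem cr_lift {y y' : D.Y} (h : EqvGen (fun a b => b = D.s0 a ∨ b = D.s1 a ∨ b = D.s2 a) y y')
    (z : ZMod (2 ^ D.k)) : ∃ z', D.cr (y, z) (y', z') := by
  induction h generalizing z with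
  | rel a b hab =>
    rcases hab with rfl | rfl | rfl
    · exact ⟨_, EqvGen.rel (a, z) (D.p0 (a, z)) (Or.inl rfl)⟩
    · exact ⟨_, EqvGen.rel (a, z) (D.p1 (a, z)) (Or.inr (Or.inl rfl))⟩
    · exact ⟨_, EqvGen.rel (a, z) (D.p2 (a, z)) (Or.inr (Or.inr rfl))⟩
  | refl a => exact ⟨z, EqvGen.refl _⟩
  | symm a b _ ih =>
    obtain ⟨w, hw⟩ := ih z
    refine ⟨z + (z - w), EqvGen.symm _ _ ?_⟩
    have h1 := D.cr_transl (z - w) hw
    rw [show w + (z - w) = z by ring] at h1
    exact h1
  | trans a b c _ _ ih1 ih2 =>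
    obtain ⟨w, hw⟩ := ih1 z
    obtain ⟨u, hu⟩ := ih2 w
    exact ⟨u, EqvGen.trans _ _ _ hw hu⟩

theorem cr_nsmul {y : D.Y} {z : ZMod (2 ^ D.k)} (h : D.cr (y, 0) (y, z)) (n : ℕ) :
    D.cr (y, 0) (y, n • z) := by
  induction n with
  | zero => rw [zero_nsmul]; exact EqvGen.refl _
  | succ n ih =>
    have := D.cr_transl (n • z) h
    simp only [zero_add] at this
    rw [succ_nsmul, add_comm]
    exact EqvGen.trans _ _ _ ih this

/-- an odd element generates `ZMod (2 ^ k)` -/
theorem exists_nsmul_eq {k : ℕ} (hk : 1 ≤ k) {z : ZMod (2 ^ k)} (hz : Odd z) (x : ZMod (2 ^ k)) :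
    ∃ n : ℕ, n • z = x := by
  have hne : NeZero (2 ^ k) := ⟨by positivity⟩
  have hu : IsUnit z := by
    rw [← ZMod.natCast_zmod_val z, ZMod.isUnit_iff_coprime]
    have h2 : isOdd z = true := isOdd_of_odd hk hz
    rw [isOdd, decide_eq_true_iff] at h2
    exact Nat.Coprime.pow_right k (Nat.coprime_two_right.2 (Nat.odd_iff.2 h2))
  obtain ⟨u, rfl⟩ := hu
  refine ⟨(x * ↑u⁻¹).val, ?_⟩
  rw [nsmul_eq_mul, ZMod.natCast_zmod_val]
  simp

theorem conn_of_not_bipartite (hb : ¬ D.Bipartite) (p q : D.R) : D.cr p q := by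
  obtain ⟨y0⟩ := D.nonempty
  by_cases hodd : ∃ z : ZMod (2 ^ D.k), Odd z ∧ D.cr (y0, 0) (y0, z)
  · obtain ⟨z, hz, hcr⟩ := hodd
    have hall : ∀ x, D.cr (y0, 0) (y0, x) := by
      intro x
      obtain ⟨n, rfl⟩ := exists_nsmul_eq D.hk hz x
      exact D.cr_nsmul hcr n
    have hp : ∀ p : D.R, D.cr (y0, 0) p := by
      rintro ⟨y, z⟩
      obtain ⟨w, hw⟩ := D.cr_lift (D.conn y y0) z
      exact EqvGen.trans _ _ _ (hall w) (EqvGen.symm _ _ hw)
    exact EqvGen.trans _ _ _ (EqvGen.symm _ _ (hp p)) (hp q)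
  · exfalso
    apply hb
    push Not at hodd
    choose w hw using fun y => D.cr_lift (D.conn y0 y) 0
    have huniq : ∀ y z, D.cr (y0, 0) (y, z) → isOdd z = isOdd (w y) := by
      intro y z hz
      have h1 : D.cr (y, z) (y, w y) := EqvGen.trans _ _ _ (EqvGen.symm _ _ hz) (hw y)
      have h2 := D.cr_transl (-z) h1
      simp only [add_neg_cancel] at h2
      -- transport to `y0`
      have h3 := D.cr_transl (w y - z) hz
      simp only [zero_add, add_sub_cancel] at h3
      have h4 : D.cr (y0, 0) (y0, w y - z) :=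
        EqvGen.trans _ _ _ (hw y) (EqvGen.symm _ _ h3)
      have h5 : ¬ Odd (w y - z) := fun h => hodd _ h h4
      rw [not_odd_iff_even D.hk] at h5
      have h6 := isOdd_of_even D.hk h5
      have h7 : isOdd (w y) = xor (isOdd (w y - z)) (isOdd z) := by
        rw [← isOdd_add D.hk, sub_add_cancel]
      rw [h7, h6]; simp
    refine ⟨fun y => isOdd (w y), fun y => ⟨?_, ?_, ?_⟩⟩
    · change isOdd (w (D.s0 y)) = !isOdd (w y)
      have h1 : D.cr (y0, 0) (D.p0 (y, w y)) :=
        EqvGen.trans _ _ _ (hw y) (EqvGen.rel _ _ (Or.inl rfl))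
      have h2 := huniq _ _ h1
      rw [← h2, isOdd_add D.hk, isOdd_of_odd D.hk (D.odd0 y)]
      simp
    · change isOdd (w (D.s1 y)) = isOdd (w y)
      have h1 : D.cr (y0, 0) (D.p1 (y, w y)) :=
        EqvGen.trans _ _ _ (hw y) (EqvGen.rel _ _ (Or.inr (Or.inl rfl)))
      have h2 := huniq _ _ h1
      rw [← h2, isOdd_add D.hk, isOdd_of_even D.hk (D.even1 y)]
      simp
    · change isOdd (w (D.s2 y)) = isOdd (w y)
      have h1 : D.cr (y0, 0) (D.p2 (y, w y)) :=
        EqvGen.trans _ _ _ (hw y) (EqvGen.rel _ _ (Or.inr (Or.inr rfl)))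
      have h2 := huniq _ _ h1
      rw [← h2, isOdd_add D.hk, isOdd_of_even D.hk (D.even2 y)]
      simp

/-! ### orientation -/

theorem orient_of_orientable (ho : D.Orientable) (hm : D.NoMirror) :
    ∃ ε : D.R → Bool, ∀ p, ε (D.p0 p) = !ε p ∧ ε (D.p1 p) = !ε p ∧ ε (D.p2 p) = !ε p := by
  obtain ⟨ε, hε⟩ := ho
  exact ⟨fun p => ε p.1, fun p => ⟨(hε p.1).1 (hm p.1), (hε p.1).2.1, (hε p.1).2.2⟩⟩

theorem orient_of_alternating (ha : D.Alternating) :
    ∃ ε : D.R → Bool, ∀ p, ε (D.p0 p) = !ε p ∧ ε (D.p1 p) = !ε p ∧ ε (D.p2 p) = !ε p := by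
  obtain ⟨ε, hε⟩ := ha
  refine ⟨fun p => xor (ε p.1) (isOdd p.2), ?_⟩
  rintro ⟨y, z⟩
  refine ⟨?_, ?_, ?_⟩
  · change xor (ε (D.s0 y)) (isOdd (z + D.v0 y)) = !(xor (ε y) (isOdd z))
    rw [(hε y).1, isOdd_add D.hk, isOdd_of_odd D.hk (D.odd0 y)]
    cases ε y <;> cases isOdd z <;> rfl
  · change xor (ε (D.s1 y)) (isOdd (z + D.v1 y)) = !(xor (ε y) (isOdd z))
    rw [(hε y).2.1, isOdd_add D.hk, isOdd_of_even D.hk (D.even1 y)]
    cases ε y <;> cases isOdd z <;> rfl
  · change xor (ε (D.s2 y)) (isOdd (z + D.v2 y)) = !(xor (ε y) (isOdd z))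
    rw [(hε y).2.2, isOdd_add D.hk, isOdd_of_even D.hk (D.even2 y)]
    cases ε y <;> cases isOdd z <;> rfl

/-! ### bipartiteness -/

theorem not_bipartite_of_mirror (h : ¬ D.NoMirror) : ¬ D.Bipartite := by
  rintro ⟨c, hc⟩
  apply h
  intro y hy
  have h1 := (hc y).1
  rw [hy] at h1
  revert h1
  cases c y <;> simp

theorem not_bipartite_of_fold {y : D.Y} (h : D.s0 (D.s2 y) = y) : ¬ D.Bipartite := by
  rintro ⟨c, hc⟩
  have h1 := (hc (D.s2 y)).1
  rw [h, (hc y).2.2] at h1
  revert h1
  cases c y <;> simp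

theorem not_bipartite_of_turn {y : D.Y} (h : D.turn y = y) : ¬ D.Bipartite := by
  rintro ⟨c, hc⟩
  have h1 := (hc (D.s1 y)).1
  rw [(hc y).2.1] at h1
  change D.s0 (D.s1 y) = y at h
  rw [h] at h1
  revert h1
  cases c y <;> simp

/-- non-orientable and alternating imply non-bipartite -/
theorem not_bipartite_of (ha : D.Alternating) (ho : ¬ D.Orientable) : ¬ D.Bipartite := by
  intro hb
  apply ho
  obtain ⟨ε, hε⟩ := ha
  obtain ⟨c, hc⟩ := hb
  refine ⟨fun y => xor (ε y) (c y), fun y => ⟨fun _ => ?_, ?_, ?_⟩⟩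
  · change xor (ε (D.s0 y)) (c (D.s0 y)) = !(xor (ε y) (c y))
    rw [(hε y).1, (hc y).1]
    cases ε y <;> cases c y <;> rfl
  · change xor (ε (D.s1 y)) (c (D.s1 y)) = !(xor (ε y) (c y))
    rw [(hε y).2.1, (hc y).2.1]
    cases ε y <;> cases c y <;> rfl
  · change xor (ε (D.s2 y)) (c (D.s2 y)) = !(xor (ε y) (c y))
    rw [(hε y).2.2, (hc y).2.2]
    cases ε y <;> cases c y <;> rfl

theorem exists_of_card_ne {α : Type} {P : α → Prop} (h : Nat.card {a // P a} ≠ 0) :
    ∃ a, P a := by
  have h2 : Nonempty {a // P a} := by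
    by_contra hn
    rw [not_nonempty_iff] at hn
    exact h Nat.card_of_isEmpty
  obtain ⟨⟨a, ha⟩⟩ := h2
  exact ⟨a, ha⟩

/-- type V: the unfolded structure has exactly two fixed vertices -/
theorem tv_eq_two {y₀ : D.Y} (hk2 : D.k = 2) (hu : ∀ y, ¬ D.Unbranched y ↔ (orb D.s1 D.s2) y₀ y) :
    D.tv = 2 := by
  have := D.finite
  have hne : NeZero (2 ^ D.k) := ⟨by positivity⟩
  have hb : ¬ D.Unbranched y₀ := (hu y₀).2 (orb_refl _)
  let F := {C : Quotient (orb (PP D.s1 D.v1) (PP D.s2 D.v2)) //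
      trV D.s1 D.s2 D.v1 D.v2 (half D.k) C = C}
  let f : Bool → F := fun c => if c then ⟨Quotient.mk _ (y₀, 1), D.fixed_mk hb 1⟩ else
    ⟨Quotient.mk _ (y₀, 0), D.fixed_mk hb 0⟩
  have hf : Function.Bijective f := by
    constructor
    · intro a b hab
      have h1 : f false ≠ f true := fun h => D.mk_zero_ne_one y₀ y₀ (congrArg Subtype.val h)
      rcases a <;> rcases b
      · rfl
      · exact absurd hab h1
      · exact absurd hab.symm h1
      · rfl
    · rintro ⟨C, hC⟩
      induction C using Quotient.inductionOn with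
      | h p =>
        obtain ⟨y, z⟩ := p
        have h1 := hC
        rw [trV_mk, mk_eq] at h1
        have h2 := D.orb_transl (-z) h1
        simp only [add_neg_cancel] at h2
        have h3 : ¬ D.Unbranched y := by
          rw [branched_iff]
          have : z + half D.k + -z = half D.k := by ring
          rw [this] at h2
          exact orb_symm h2
        have h4 := (hu y).1 h3
        obtain ⟨z', hz'⟩ := D.orb_lift h4 0
        have h5 := D.orb_transl (z - z') hz'
        simp only [zero_add, add_sub_cancel] at h5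
        -- (y₀, z - z') ~ (y, z)
        rcases hev : isOdd (z - z') with _ | _
        · rcases even_two hk2 ((isOdd_eq_false D.hk).1 hev) with e | e
          · refine ⟨false, Subtype.ext ?_⟩
            rw [e] at h5
            exact mk_eq.2 h5
          · refine ⟨false, Subtype.ext ?_⟩
            rw [e] at h5
            exact mk_eq.2 (orb_trans (D.branched_half hb) h5)
        · have hev2 : Even (z - z' - 1) := by
            rw [even_iff_par D.hk, map_sub,
              (odd_iff_par D.hk).1 ((isOdd_eq_true D.hk).1 hev), map_one, sub_self]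
          have hb1 := D.orb_transl 1 (D.branched_half hb)
          simp only [zero_add] at hb1
          rcases even_two hk2 hev2 with e | e
          · refine ⟨true, Subtype.ext ?_⟩
            have e' : z - z' = 1 := by linear_combination e
            rw [e'] at h5
            exact mk_eq.2 h5
          · refine ⟨true, Subtype.ext ?_⟩
            have e' : z - z' = half D.k + 1 := by linear_combination e
            rw [e'] at h5
            exact mk_eq.2 (orb_trans hb1 h5)
  have h1 := Nat.card_congr (Equiv.ofBijective f hf)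
  change Nat.card F = 2
  rw [← h1]
  simp

theorem torus_of_flat (hf : D.Flat) (h : 8 * D.numV = Nat.card D.Y) :
    8 * nOrb D.p1 D.p2 = Nat.card D.R := by
  have := D.finite
  rw [D.flat_count hf, D.card_R, ← h, mul_assoc]

theorem Admissible.toral {D : Datum} (h : D.Admissible) : D.Toral := by
  have hfin := D.finite
  have hnon := D.nonempty
  have hpos : 0 < Nat.card D.Y := Nat.card_pos
  have hE := D.count_E
  have hF := D.count_F
  change 8 * D.numF = Nat.card D.Y + 2 * D.T1 + D.T2 + _ at hF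
  rcases h with h | h | h | h | h | h | h
  · obtain ⟨hf, hsq, hm, hnf, ho, hb, hsum⟩ := h
    rw [D.T1_of_squares hsq, D.T2_of_squares hsq, D.card_M_of_noMirror hm] at hF
    rw [D.card_M_of_noMirror hm, D.card_H_of_noFold hnf] at hE
    exact ⟨D.conn_of_not_bipartite hb, D.orient_of_orientable ho hm, D.torus_of_flat hf (by omega)⟩
  · obtain ⟨hf, hsq, hm, hnf, ho, ha, hsum⟩ := h
    rw [D.T1_of_squares hsq, D.T2_of_squares hsq, D.card_M_of_noMirror hm] at hF
    rw [D.card_M_of_noMirror hm, D.card_H_of_noFold hnf] at hE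
    exact ⟨D.conn_of_not_bipartite (D.not_bipartite_of ha ho), D.orient_of_alternating ha,
      D.torus_of_flat hf (by omega)⟩
  · obtain ⟨hk, hf, hsq, hm, ho, hH, hsum⟩ := h
    rw [D.T1_of_squares hsq, D.T2_of_squares hsq, D.card_M_of_noMirror hm] at hF
    rw [D.card_M_of_noMirror hm, hH] at hE
    obtain ⟨y, hy⟩ := exists_of_card_ne (P := fun y => D.s0 (D.s2 y) = y) (by rw [hH]; norm_num)
    exact ⟨D.conn_of_not_bipartite (D.not_bipartite_of_fold hy), D.orient_of_orientable ho hm,
      D.torus_of_flat hf (by omega)⟩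
  · obtain ⟨hk, hf, hm, hnf, ho, hT1, hD2, hsum⟩ := h
    change D.T1 = 4 at hT1
    have hsplit := D.T2_split
    rw [D.card_M_of_noMirror hm] at hF
    rw [D.card_M_of_noMirror hm, D.card_H_of_noFold hnf] at hE
    obtain ⟨y, hy⟩ := exists_of_card_ne (P := fun y => D.turn y = y) (by
      change D.T1 ≠ 0
      rw [hT1]; norm_num)
    exact ⟨D.conn_of_not_bipartite (D.not_bipartite_of_turn hy), D.orient_of_orientable ho hm,
      D.torus_of_flat hf (by omega)⟩
  · obtain ⟨hk, hm, hnf, ho, hT1, hT12, ⟨y₀, hu⟩, hsum⟩ := h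
    change D.T1 = 4 at hT1
    have hT2 : D.T2 = 4 := by
      rw [← hT1]
      refine Nat.card_congr (Equiv.subtypeEquivRight fun y => ⟨hT12 y, fun h => by rw [h, h]⟩)
    rw [D.card_M_of_noMirror hm] at hF
    rw [D.card_M_of_noMirror hm, D.card_H_of_noFold hnf] at hE
    obtain ⟨y, hy⟩ := exists_of_card_ne (P := fun y => D.turn y = y) (by
      change D.T1 ≠ 0
      rw [hT1]; norm_num)
    refine ⟨D.conn_of_not_bipartite (D.not_bipartite_of_turn hy), D.orient_of_orientable ho hm, ?_⟩
    have htv := D.tv_eq_two hk hu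
    have hV := D.count_V hk
    rw [D.card_R, hk]
    norm_num
    omega
  · obtain ⟨hk, hf, hsq, hm, hnf, ho, ha, hsum⟩ := h
    rw [D.T1_of_squares hsq, D.T2_of_squares hsq] at hF
    rw [D.card_H_of_noFold hnf] at hE
    exact ⟨D.conn_of_not_bipartite (D.not_bipartite_of_mirror hm), D.orient_of_alternating ha,
      D.torus_of_flat hf (by omega)⟩
  · obtain ⟨hk, hf, hsq, hm, hnf, ho, ha, hsum⟩ := h
    rw [D.T1_of_squares hsq, D.T2_of_squares hsq] at hF
    rw [D.card_H_of_noFold hnf] at hE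
    exact ⟨D.conn_of_not_bipartite (D.not_bipartite_of_mirror hm), D.orient_of_alternating ha,
      D.torus_of_flat hf (by omega)⟩

/-! ### the flag system of a simple toral datum is polytopal -/

/-- a toral datum has more than eight flags upstairs -/
theorem Toral.eight_lt {D : Datum} (ht : D.Toral) : 8 < Nat.card D.R := by
  have hfin := D.finite
  have hne : NeZero (2 ^ D.k) := ⟨by positivity⟩
  obtain ⟨y0⟩ := D.nonempty
  have h2 : 2 ≤ nOrb D.p1 D.p2 := by
    rw [nOrb]
    have : Nontrivial (Quotient (orb D.p1 D.p2)) := by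
      refine ⟨Quotient.mk _ (y0, 0), Quotient.mk _ (y0, 1), D.mk_zero_ne_one y0 y0⟩
    exact Finite.one_lt_card
  have := ht.torus
  omega

/-- In a simple toral datum opposite corners of a square are different vertices. -/
theorem Toral.noloop {D : Datum} (ht : D.Toral) (hs : D.Simple) (p : D.R) :
    ¬ (orb D.p1 D.p2) p (D.p0 (D.p1 (D.p0 p))) := by
  have hfin := D.finite
  have hne : NeZero (2 ^ D.k) := ⟨by positivity⟩
  intro h
  have e1 : (orb D.p1 D.p2) (D.p0 p) (D.p0 (D.p0 (D.p1 (D.p0 p)))) := by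
    rw [D.p0_p0]; exact orb_left _
  rcases hs _ _ h e1 with h2 | h2
  · have h3 := congrArg D.p0 h2
    rw [D.p0_p0] at h3
    exact D.p1_ne _ h3
  · -- `h2 : p0 p1 p0 p = p2 p`
    have h3 : (orb D.p1 D.p2) (D.p1 p) (D.p1 (D.p2 p)) := by
      refine orb_trans (orb_symm (orb_left p)) (orb_trans (orb_right p) (orb_left _))
    have h4 : D.p0 (D.p1 (D.p2 p)) = D.p1 (D.p0 (D.p1 p)) := by
      rw [← h2, D.p01_comm, D.p0_p0]
    rcases hs _ _ h3 (by rw [h4]; exact orb_left _) with h5 | h5
    · have h6 := congrArg D.p1 h5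
      rw [D.p1_p1, D.p1_p1] at h6
      exact D.p2_ne _ h6
    · -- the unfolded structure has only eight flags
      have A1 : D.p1 (D.p0 p) = D.p0 (D.p2 p) := by rw [← h2, D.p0_p0]
      have A2 : D.p1 (D.p0 (D.p2 p)) = D.p0 p := by rw [← A1, D.p1_p1]
      have A4 : D.p1 (D.p0 (D.p1 (D.p2 p))) = D.p0 (D.p1 p) := by rw [h4, D.p1_p1]
      have B2 : D.p2 (D.p1 (D.p2 p)) = D.p1 p := by rw [h5, D.p2_p2]
      have C2 : ∀ q, D.p2 (D.p0 q) = D.p0 (D.p2 q) := fun q => (D.p0_p2 q).symm
      let S : Set D.R := {p, D.p1 p, D.p2 p, D.p1 (D.p2 p), D.p0 p, D.p0 (D.p1 p),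
        D.p0 (D.p2 p), D.p0 (D.p1 (D.p2 p))}
      have hS0 : ∀ q ∈ S, D.p0 q ∈ S := by
        simp only [S, Set.mem_insert_iff, Set.mem_singleton_iff]
        rintro q (rfl | rfl | rfl | rfl | rfl | rfl | rfl | rfl) <;> simp [D.p0_p0]
      have hS1 : ∀ q ∈ S, D.p1 q ∈ S := by
        simp only [S, Set.mem_insert_iff, Set.mem_singleton_iff]
        rintro q (rfl | rfl | rfl | rfl | rfl | rfl | rfl | rfl) <;>
          simp [D.p1_p1, A1, A2, ← h4, A4]
      have hS2 : ∀ q ∈ S, D.p2 q ∈ S := by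
        simp only [S, Set.mem_insert_iff, Set.mem_singleton_iff]
        rintro q (rfl | rfl | rfl | rfl | rfl | rfl | rfl | rfl) <;>
          simp [D.p2_p2, C2, ← h5, B2]
      have hall : ∀ q, q ∈ S := by
        intro q
        have h6 : (p ∈ S) = (q ∈ S) := by
          refine conn_const (fun q => q ∈ S) ?_ (ht.conn p q)
          rintro a b (rfl | rfl | rfl)
          · exact propext ⟨hS0 a, fun h => by have := hS0 _ h; rwa [D.p0_p0] at this⟩
          · exact propext ⟨hS1 a, fun h => by have := hS1 _ h; rwa [D.p1_p1] at this⟩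
          · exact propext ⟨hS2 a, fun h => by have := hS2 _ h; rwa [D.p2_p2] at this⟩
        rw [← h6]
        simp [S]
      have hcard : Nat.card D.R ≤ 8 := by
        let g : Fin 8 → D.R := ![p, D.p1 p, D.p2 p, D.p1 (D.p2 p), D.p0 p, D.p0 (D.p1 p),
          D.p0 (D.p2 p), D.p0 (D.p1 (D.p2 p))]
        have hg : Function.Surjective g := by
          intro q
          have := hall q
          simp only [S, Set.mem_insert_iff, Set.mem_singleton_iff] at this
          rcases this with h | h | h | h | h | h | h | h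
          · exact ⟨0, h.symm⟩
          · exact ⟨1, h.symm⟩
          · exact ⟨2, h.symm⟩
          · exact ⟨3, h.symm⟩
          · exact ⟨4, h.symm⟩
          · exact ⟨5, h.symm⟩
          · exact ⟨6, h.symm⟩
          · exact ⟨7, h.symm⟩
        have := Nat.card_le_card_of_surjective g hg
        rwa [Nat.card_fin] at this
      have := ht.eight_lt
      omega

theorem sys_vertex {x y : D.X} (h : (orb D.sys.r1 D.sys.r2) x y) : (orb D.p1 D.p2) x.1 y.1 := by
  rw [orb_swap]
  exact orb_map (f := D.sys.r1) (g := D.sys.r2) (fun x : D.X => x.1) (fun _ => rfl)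
    (fun _ => rfl) h

theorem sys_face {x y : D.X} (h : (orb D.sys.r0 D.sys.r1) x y) :
    (orb D.p1 D.p2) (D.p0 x.1) (D.p0 y.1) := by
  refine orb_map (f := D.sys.r0) (g := D.sys.r1) (fun x : D.X => D.p0 x.1) ?_ ?_ h
  · intro x
    exact D.p0_p0 _
  · intro x
    exact D.p0_p2 _

theorem Toral.polytopal {D : Datum} (ht : D.Toral) (hs : D.Simple) : Polytopal D.sys := by
  obtain ⟨y0⟩ := D.nonempty
  refine ⟨⟨(⟨(y0, 0), Even.zero⟩ : D.X)⟩, ?_, ?_, ?_, ?_, ?_⟩
  · -- connected
    classical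
    have hodd : ∀ p : D.R, ¬ Even p.2 → Even (D.p0 p).2 := by
      intro p hp
      rw [not_even_iff_odd D.hk] at hp
      exact hp.add_odd (D.odd0 _)
    let φ : D.R → D.X := fun p => if h : Even p.2 then ⟨p, h⟩ else ⟨D.p0 p, hodd p h⟩
    have hφe : ∀ p (h : Even p.2), φ p = ⟨p, h⟩ := fun p h => dif_pos h
    have hφo : ∀ p (h : ¬ Even p.2), φ p = ⟨D.p0 p, hodd p h⟩ := fun p h => dif_neg h
    have hstep : ∀ p q : D.R, (q = D.p0 p ∨ q = D.p1 p ∨ q = D.p2 p) →
        EqvGen (fun a b => b = D.sys.r0 a ∨ b = D.sys.r1 a ∨ b = D.sys.r2 a) (φ p) (φ q) := by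
      rintro p q (rfl | rfl | rfl)
      · -- `p0`
        have : φ (D.p0 p) = φ p := by
          by_cases h : Even p.2
          · have h' : ¬ Even (D.p0 p).2 := by
              rw [not_even_iff_odd D.hk]; exact h.add_odd (D.odd0 _)
            rw [hφe p h, hφo _ h']
            apply Subtype.ext
            exact D.p0_p0 p
          · rw [hφo p h, hφe _ (hodd p h)]
        rw [this]; exact EqvGen.refl _
      · by_cases h : Even p.2
        · have h' : Even (D.p1 p).2 := D.even_p1 h
          rw [hφe p h, hφe _ h']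
          exact EqvGen.rel _ _ (Or.inr (Or.inr rfl))
        · have h' : ¬ Even (D.p1 p).2 := by
            intro h2
            apply h
            have := D.even_p1 h2
            rwa [D.p1_p1] at this
          rw [hφo p h, hφo _ h']
          refine EqvGen.rel _ _ (Or.inl (Subtype.ext ?_))
          change D.p0 (D.p1 p) = D.p0 (D.p1 (D.p0 (D.p0 p)))
          rw [D.p0_p0]
      · by_cases h : Even p.2
        · have h' : Even (D.p2 p).2 := D.even_p2 h
          rw [hφe p h, hφe _ h']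
          exact EqvGen.rel _ _ (Or.inr (Or.inl rfl))
        · have h' : ¬ Even (D.p2 p).2 := by
            intro h2
            apply h
            have := D.even_p2 h2
            rwa [D.p2_p2] at this
          rw [hφo p h, hφo _ h']
          refine EqvGen.rel _ _ (Or.inr (Or.inl (Subtype.ext ?_)))
          change D.p0 (D.p2 p) = D.p2 (D.p0 p)
          rw [D.p0_p2]
    have hall : ∀ p q, EqvGen (fun a b => b = D.p0 a ∨ b = D.p1 a ∨ b = D.p2 a) p q →
        EqvGen (fun a b => b = D.sys.r0 a ∨ b = D.sys.r1 a ∨ b = D.sys.r2 a) (φ p) (φ q) := by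
      intro p q h
      induction h with
      | rel a b hab => exact hstep a b hab
      | refl a => exact EqvGen.refl _
      | symm a b _ ih => exact EqvGen.symm _ _ ih
      | trans a b c _ _ ih1 ih2 => exact EqvGen.trans _ _ _ ih1 ih2
    intro x y
    have h := hall _ _ (ht.conn x.1 y.1)
    rw [hφe x.1 x.2, hφe y.1 y.2] at h
    exact h
  · intro x h
    exact D.p2_ne x.1 (congrArg Subtype.val h)
  · intro x h
    exact ht.noloop hs x.1 (D.sys_vertex h)
  · intro x h
    have h1 := D.sys_face h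
    refine ht.noloop hs (D.p0 x.1) ?_
    rw [D.p0_p0]
    exact h1
  · intro x y h1 h2
    rcases hs _ _ (D.sys_vertex h1) (D.sys_face h2) with h | h
    · exact Or.inl (Subtype.ext h)
    · exact Or.inr (Subtype.ext h)

/-! ### the polyhedron of a simple toral datum -/

theorem count_sys : nOrb D.sys.r1 D.sys.r2 + nOrb D.sys.r0 D.sys.r1 = nOrb D.p1 D.p2 := by
  have hfin := D.finite
  have hne : NeZero (2 ^ D.k) := ⟨by positivity⟩
  have h := nOrb_double (A := D.X) D.sys.r0 D.sys.r2 D.sys.r1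
  rw [nOrb_comm D.sys.r1 D.sys.r2]
  refine Eq.trans h.symm ?_
  let E : D.X × Bool → D.R := fun p => if p.2 then D.p0 p.1.1 else p.1.1
  have hE : Function.Bijective E := by
    constructor
    · rintro ⟨x, a⟩ ⟨y, b⟩ hab
      have ho : ∀ x : D.X, ¬ Even (D.p0 x.1).2 := by
        intro x
        rw [not_even_iff_odd D.hk]
        exact x.2.add_odd (D.odd0 _)
      rcases a with _ | _ <;> rcases b with _ | _
      · have : x.1 = y.1 := hab
        rw [Subtype.ext this]
      · have : x.1 = D.p0 y.1 := hab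
        exact absurd (this ▸ x.2) (ho y)
      · have : D.p0 x.1 = y.1 := hab
        exact absurd (this.symm ▸ y.2) (ho x)
      · have : D.p0 x.1 = D.p0 y.1 := hab
        have h2 := congrArg D.p0 this
        rw [D.p0_p0, D.p0_p0] at h2
        rw [Subtype.ext h2]
    · intro p
      by_cases hp : Even p.2
      · exact ⟨(⟨p, hp⟩, false), rfl⟩
      · have hp' : Even (D.p0 p).2 := by
          rw [not_even_iff_odd D.hk] at hp
          exact hp.add_odd (D.odd0 _)
        exact ⟨(⟨D.p0 p, hp'⟩, true), D.p0_p0 p⟩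
  refine nOrb_congr (Equiv.ofBijective E hE) ?_ ?_
  · rintro ⟨x, a⟩
    rcases a with _ | _
    · rfl
    · change D.p0 (D.p0 (D.p1 (D.p0 x.1))) = D.p1 (D.p0 x.1)
      rw [D.p0_p0]
  · rintro ⟨x, a⟩
    rcases a with _ | _
    · rfl
    · exact D.p0_p2 _

theorem card_X : 2 * Nat.card D.X = Nat.card D.R := by
  have hfin := D.finite
  have hne : NeZero (2 ^ D.k) := ⟨by positivity⟩
  have h1 := card_split (α := D.R) (P := fun p => Even p.2) (Q := fun _ => True)
    (fun _ _ => trivial)
  have h2 : Nat.card {a : D.R // True} = Nat.card D.R :=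
    Nat.card_congr (Equiv.subtypeUnivEquiv fun _ => trivial)
  have h3 : Nat.card {a : D.R // ¬ Even a.2 ∧ True} = Nat.card D.X := by
    refine Nat.card_congr
      { toFun := fun p => ⟨D.p0 p.1, by
          have := p.2.1
          rw [not_even_iff_odd D.hk] at this
          exact this.add_odd (D.odd0 _)⟩
        invFun := fun p => ⟨D.p0 p.1, by
          refine ⟨?_, trivial⟩
          rw [not_even_iff_odd D.hk]
          exact p.2.add_odd (D.odd0 _)⟩
        left_inv := fun p => Subtype.ext (D.p0_p0 _)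
        right_inv := fun p => Subtype.ext (D.p0_p0 _) }
  have h4 : Nat.card {a : D.R // Even a.2} = Nat.card D.X := rfl
  omega

theorem Toral.main {D : Datum} (ht : D.Toral) (hs : D.Simple) :
    SelfDualToroidal (Faces D.sys) := by
  have hfin := D.finite
  have hne : NeZero (2 ^ D.k) := ⟨by positivity⟩
  refine (ht.polytopal hs).selfDualToroidal_iff.2 ⟨?_, ?_, ?_, ?_⟩
  · change Finite D.X
    infer_instance
  · obtain ⟨ε, hε⟩ := ht.orient
    refine ⟨fun x => ε x.1, fun x => ⟨?_, ?_, ?_⟩⟩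
    · change ε (D.p0 (D.p1 (D.p0 x.1))) = !ε x.1
      rw [(hε _).1, (hε _).2.1, (hε _).1]
      simp
    · exact (hε x.1).2.2
    · exact (hε x.1).2.1
  · rw [D.count_sys]
    have hX : Finite D.sys.X := inferInstanceAs (Finite D.X)
    have h := edge_count D.sys.r0 D.sys.r2 D.sys.inv0 D.sys.inv2 D.sys.comm
    have z1 : Nat.card {x // D.sys.r0 (D.sys.r2 x) = x} = 0 := by
      refine card_empty_of fun x hx => ?_
      exact D.p0101_ne x.1 (congrArg Subtype.val hx)
    have z2 : Nat.card {x // D.sys.r2 x = x} = 0 := by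
      refine card_empty_of fun x hx => ?_
      exact D.p1_ne x.1 (congrArg Subtype.val hx)
    have z3 : Nat.card {x // D.sys.r0 x = x} = 0 := by
      refine card_empty_of fun x hx => ?_
      have h1 : D.p0 (D.p1 (D.p0 x.1)) = x.1 := congrArg Subtype.val hx
      have h2 := congrArg D.p0 h1
      rw [D.p0_p0] at h2
      exact D.p1_ne _ h2
    rw [z1, z2, z3] at h
    have h2 := D.card_X
    have h3 := ht.torus
    have h4 : Nat.card D.sys.X = Nat.card D.X := rfl
    omega
  · let δ : D.X → D.X := fun x => ⟨D.p0 (x.1.1, x.1.2 + 1), by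
      have h1 : Odd (x.1.2 + 1) := by
        exact x.2.add_odd odd_one
      exact h1.add_odd (D.odd0 _)⟩
    have hδ : ∀ x, (δ x).1 = D.p0 (x.1.1, x.1.2 + 1) := fun x => rfl
    have t0 : ∀ p : D.R, ((D.p0 p).1, (D.p0 p).2 + 1) = D.p0 (p.1, p.2 + 1) := by
      intro p
      simp only [p0, Prod.mk.injEq, true_and]; ring
    have t1 : ∀ p : D.R, ((D.p1 p).1, (D.p1 p).2 + 1) = D.p1 (p.1, p.2 + 1) := by
      intro p
      simp only [p1, Prod.mk.injEq, true_and]; ring
    have t2 : ∀ p : D.R, ((D.p2 p).1, (D.p2 p).2 + 1) = D.p2 (p.1, p.2 + 1) := by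
      intro p
      simp only [p2, Prod.mk.injEq, true_and]; ring
    refine ⟨δ, ?_, ?_, ?_, ?_⟩
    · have hinj : Function.Injective δ := by
        intro x y hxy
        have h1 : D.p0 (x.1.1, x.1.2 + 1) = D.p0 (y.1.1, y.1.2 + 1) := congrArg Subtype.val hxy
        have h2 := congrArg D.p0 h1
        rw [D.p0_p0, D.p0_p0] at h2
        have h3 := (Prod.mk.inj h2).1
        have h4 := (Prod.mk.inj h2).2
        exact Subtype.ext (Prod.ext h3 (add_right_cancel h4))
      have hX : Finite D.X := inferInstance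
      have hsurj : Function.Surjective δ := Finite.surjective_of_injective hinj
      exact ⟨hinj, hsurj⟩
    · intro x
      apply Subtype.ext
      change D.p0 ((D.p0 (D.p1 (D.p0 x.1))).1, (D.p0 (D.p1 (D.p0 x.1))).2 + 1) =
        D.p1 (D.p0 (x.1.1, x.1.2 + 1))
      rw [t0, t1, t0, D.p0_p0]
    · intro x
      apply Subtype.ext
      change D.p0 ((D.p2 x.1).1, (D.p2 x.1).2 + 1) = D.p2 (D.p0 (x.1.1, x.1.2 + 1))
      rw [t2, D.p0_p2]
    · intro x
      apply Subtype.ext
      change D.p0 ((D.p1 x.1).1, (D.p1 x.1).2 + 1) =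
        D.p0 (D.p1 (D.p0 (D.p0 (x.1.1, x.1.2 + 1))))
      rw [t1, D.p0_p0]

end Datum

/-- **Main theorem.** -/
theorem classification (P : Type) [PartialOrder P] :
    SelfDualToroidal P ↔
      ∃ D : Datum, D.Admissible ∧ D.Simple ∧ Nonempty (P ≃o Faces D.sys) := by
  constructor
  · intro h
    obtain ⟨⟨rk, ht⟩, hd⟩ := id h
    obtain ⟨S, hS, ⟨e⟩⟩ := exists_flagSys ht.poly
    have h' := h.congr e
    obtain ⟨hf, ho, he, δ, hb, h0, h1, h2⟩ := hS.selfDualToroidal_iff.1 h'
    obtain ⟨D, hD, hDs, f, f0, f1, f2⟩ := exists_datum hS hf ho he δ hb h0 h1 h2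
    obtain ⟨D', hD', hs', f', f0', f1', f2'⟩ := D.admissible_of_toral hD
    obtain ⟨g⟩ := faces_congr f f0 f1 f2
    obtain ⟨g'⟩ := faces_congr f' f0' f1' f2'
    exact ⟨D', hD', hs' hDs, ⟨e.trans (g.trans g')⟩⟩
  · rintro ⟨D, hD, hs, ⟨e⟩⟩
    exact (hD.toral.main hs).congr e.symm

end Pool.Agent.SDT
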