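import Pool.Agent.SDT.Defs

namespace Pool.Agent.SDT
open Relation

section Inv

variable {X : Type}

/-- functions invariant under `f` and `g` -/
def invF (f g : X → X) : Submodule ℚ (X → ℚ) where
  carrier := {h | ∀ x, h (f x) = h x ∧ h (g x) = h x}
  add_mem' {a b} ha hb x := by
    simp only [Pi.add_apply, (ha x).1, (ha x).2, (hb x).1, (hb x).2, and_self]
  zero_mem' x := by simp
  smul_mem' c a ha x := by simp only [Pi.smul_apply, (ha x).1, (ha x).2, and_self]

theorem mem_invF {f g : X → X} {h : X → ℚ} :
    h ∈ invF f g ↔ ∀ x, h (f x) = h x ∧ h (g x) = h x := Iff.rfl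

theorem invF_orb {f g : X → X} {h : X → ℚ} (hh : h ∈ invF f g) {x y : X}
    (hxy : (orb f g) x y) : h x = h y := by
  induction hxy with
  | rel a b hab =>
    rcases hab with rfl | rfl
    · exact (hh a).1.symm
    · exact (hh a).2.symm
  | refl a => rfl
  | symm a b _ ih => exact ih.symm
  | trans a b c _ _ ih1 ih2 => exact ih1.trans ih2

/-- invariant functions are functions on the set of orbits -/
def invEquiv (f g : X → X) : (Quotient (orb f g) → ℚ) ≃ₗ[ℚ] invF f g where
  toFun u := ⟨fun x => u ⟦x⟧, fun x =>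
    ⟨congrArg u (mk_eq.2 (orb_symm (orb_left x))), congrArg u (mk_eq.2 (orb_symm (orb_right x)))⟩⟩
  map_add' u v := rfl
  map_smul' c u := rfl
  invFun h := Quotient.lift h.1 fun _ _ hxy => invF_orb h.2 hxy
  left_inv u := by
    funext q
    induction q using Quotient.inductionOn with
    | h x => rfl
  right_inv h := rfl

theorem finrank_invF [Finite X] (f g : X → X) :
    Module.finrank ℚ (invF f g) = nOrb f g := by
  classical
  have := Fintype.ofFinite (Quotient (orb f g))
  rw [← (invEquiv f g).finrank_eq, Module.finrank_fintype_fun_eq_card, nOrb,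
    Nat.card_eq_fintype_card]

end Inv

section Ineq

variable {X : Type}

theorem card_half [Finite X] (s : X → X) (i : ∀ x, s (s x) = x) (ε : X → Bool)
    (e : ∀ x, ε (s x) = !ε x) : Nat.card X = 2 * Nat.card {x // ε x = true} := by
  classical
  have := Fintype.ofFinite X
  have h1 : Nat.card {x // ε x = true} = Nat.card {x // ¬ ε x = true} := by
    refine Nat.card_congr ⟨fun x => ⟨s x.1, ?_⟩, fun x => ⟨s x.1, ?_⟩, ?_, ?_⟩
    · rw [e, x.2]; simp
    · have := x.2
      rw [Bool.not_eq_true] at this
      rw [e, this]; rfl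
    · intro x; exact Subtype.ext (i x.1)
    · intro x; exact Subtype.ext (i x.1)
  have h2 : Nat.card X = Nat.card {x // ε x = true} + Nat.card {x // ¬ ε x = true} := by
    rw [← Nat.card_sum]
    exact Nat.card_congr (Equiv.sumCompl _).symm
  omega

/-- The Euler inequality. -/
theorem euler_ineq [Finite X] [Nonempty X] (s0 s1 s2 : X → X)
    (i0 : ∀ x, s0 (s0 x) = x) (i1 : ∀ x, s1 (s1 x) = x) (i2 : ∀ x, s2 (s2 x) = x)
    (ε : X → Bool) (e0 : ∀ x, ε (s0 x) = !ε x) (e1 : ∀ x, ε (s1 x) = !ε x)
    (e2 : ∀ x, ε (s2 x) = !ε x)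
    (conn : ∀ x y, EqvGen (fun a b => b = s0 a ∨ b = s1 a ∨ b = s2 a) x y) :
    nOrb s0 s1 + nOrb s1 s2 + nOrb s0 s2 ≤ Nat.card {x // ε x = true} + 2 := by
  classical
  have := Fintype.ofFinite X
  -- sign function
  let σ : X → ℚ := fun x => if ε x then 1 else -1
  have hσ : ∀ (s : X → X), (∀ x, ε (s x) = !ε x) → ∀ x, σ (s x) = - σ x := by
    intro s hs x
    simp only [σ, hs]
    cases ε x <;> simp
  have hσ2 : ∀ x, σ x * σ x = 1 := by
    intro x
    simp only [σ]
    cases ε x <;> simp
  have hσ0 : ∀ x, σ x ≠ 0 := fun x h => by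
    have := hσ2 x
    rw [h] at this
    simp at this
  -- constants
  have hconst : ∀ h : X → ℚ, (∀ x, h (s0 x) = h x) → (∀ x, h (s1 x) = h x) →
      (∀ x, h (s2 x) = h x) → ∀ x y, h x = h y := by
    intro h h0 h1 h2 x y
    have := conn x y
    induction this with
    | rel a b hab =>
      rcases hab with rfl | rfl | rfl
      · exact (h0 a).symm
      · exact (h1 a).symm
      · exact (h2 a).symm
    | refl a => rfl
    | symm a b _ ih => exact ih.symm
    | trans a b c _ _ ih1 ih2 => exact ih1.trans ih2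
  have hone : Module.finrank ℚ (Submodule.span ℚ {(fun _ => (1 : ℚ) : X → ℚ)}) = 1 := by
    refine finrank_span_singleton ?_
    intro h
    obtain ⟨x⟩ := ‹Nonempty X›
    have := congrFun h x
    simp at this
  -- the ambient space
  let E := invF s2 s2
  have hE : Module.finrank ℚ E ≤ Nat.card {x // ε x = true} := by
    let ρ : E →ₗ[ℚ] ({x // ε x = true} → ℚ) :=
      { toFun := fun h x => h.1 x.1
        map_add' := fun _ _ => rfl
        map_smul' := fun _ _ => rfl }
    have hρ : Function.Injective ρ := by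
      intro a b hab
      refine Subtype.ext (funext fun x => ?_)
      by_cases hx : ε x = true
      · exact congrFun hab ⟨x, hx⟩
      · have hx' : ε (s2 x) = true := by
          rw [e2]; simpa using hx
        have h := congrFun hab ⟨s2 x, hx'⟩
        have h1 : a.1 (s2 x) = b.1 (s2 x) := h
        rw [(a.2 x).1, (b.2 x).1] at h1
        exact h1
    have := LinearMap.finrank_le_finrank_of_injective hρ
    rwa [Module.finrank_fintype_fun_eq_card, ← Nat.card_eq_fintype_card] at this
  -- W
  let W := invF s1 s2 ⊔ invF s0 s2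
  have hWE : W ≤ E := by
    refine sup_le ?_ ?_
    · intro h hh x
      exact ⟨(hh x).2, (hh x).2⟩
    · intro h hh x
      exact ⟨(hh x).2, (hh x).2⟩
  have hinf : Module.finrank ℚ ((invF s1 s2 ⊓ invF s0 s2 : Submodule ℚ (X → ℚ))) ≤ 1 := by
    rw [← hone]
    refine Submodule.finrank_mono ?_
    intro h hh
    have hc := hconst h (fun x => (hh.2 x).1) (fun x => (hh.1 x).1) (fun x => (hh.1 x).2)
    obtain ⟨x₀⟩ := ‹Nonempty X›
    refine Submodule.mem_span_singleton.2 ⟨h x₀, ?_⟩
    funext x
    simp [hc x x₀]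
  have hW : nOrb s1 s2 + nOrb s0 s2 ≤ Module.finrank ℚ W + 1 := by
    have h1 : Module.finrank ℚ W +
        Module.finrank ℚ (invF s1 s2 ⊓ invF s0 s2 : Submodule ℚ (X → ℚ)) = _ :=
      Submodule.finrank_sup_add_finrank_inf_eq (invF s1 s2) (invF s0 s2)
    rw [finrank_invF, finrank_invF] at h1
    omega
  -- the boundary map
  let δ : invF s0 s1 →ₗ[ℚ] (X → ℚ) :=
    { toFun := fun h x => σ x * (h.1 x - h.1 (s2 x))
      map_add' := fun a b => by
        funext x
        simp only [Submodule.coe_add, Pi.add_apply]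
        ring
      map_smul' := fun c a => by
        funext x
        simp only [SetLike.val_smul, Pi.smul_apply, smul_eq_mul, RingHom.id_apply]
        ring }
  have hker : Module.finrank ℚ (LinearMap.ker δ) ≤ 1 := by
    rw [← hone]
    let κ : LinearMap.ker δ →ₗ[ℚ] Submodule.span ℚ {(fun _ => (1 : ℚ) : X → ℚ)} :=
      { toFun := fun h => ⟨h.1.1, by
          have hk : δ h.1 = 0 := LinearMap.mem_ker.1 h.2
          have h2 : ∀ x, h.1.1 (s2 x) = h.1.1 x := by
            intro x
            have := congrFun hk x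
            have h3 : σ x * (h.1.1 x - h.1.1 (s2 x)) = 0 := this
            rcases mul_eq_zero.1 h3 with h4 | h4
            · exact absurd h4 (hσ0 x)
            · linarith
          have hc := hconst h.1.1 (fun x => (h.1.2 x).1) (fun x => (h.1.2 x).2) h2
          obtain ⟨x₀⟩ := ‹Nonempty X›
          refine Submodule.mem_span_singleton.2 ⟨h.1.1 x₀, ?_⟩
          funext x
          simp [hc x x₀]⟩
        map_add' := fun _ _ => rfl
        map_smul' := fun _ _ => rfl }
    refine LinearMap.finrank_le_finrank_of_injective (f := κ) ?_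
    intro a b hab
    have := congrArg Subtype.val hab
    exact Subtype.ext (Subtype.ext this)
  have hK : nOrb s0 s1 ≤ Module.finrank ℚ (LinearMap.range δ) + 1 := by
    have := LinearMap.finrank_range_add_finrank_ker δ
    rw [finrank_invF] at this
    omega
  have hKE : LinearMap.range δ ≤ E := by
    rintro _ ⟨h, rfl⟩ x
    have : δ h (s2 x) = δ h x := by
      change σ (s2 x) * (h.1 (s2 x) - h.1 (s2 (s2 x))) = σ x * (h.1 x - h.1 (s2 x))
      rw [i2, hσ s2 e2]
      ring
    exact ⟨this, this⟩
  -- orthogonality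
  have hsum : ∀ (s : X → X) (_ : ∀ x, s (s x) = x) (F : X → ℚ), (∀ x, F (s x) = - F x) →
      ∑ x, F x = 0 := by
    intro s hs F hF
    have h1 : ∑ x, F (s x) = ∑ x, F x :=
      Equiv.sum_comp (⟨s, s, hs, hs⟩ : Equiv.Perm X) F
    have h2 : ∑ x, F (s x) = - ∑ x, F x := by
      rw [← Finset.sum_neg_distrib]
      exact Finset.sum_congr rfl fun x _ => hF x
    linarith
  have horth : ∀ h : invF s0 s1, ∀ w ∈ W, ∑ x, w x * δ h x = 0 := by
    intro h w hw
    have key : ∀ f : X → ℚ, (∀ x, f (s2 x) = f x) → (∑ x, f x * (σ x * h.1 x) = 0) →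
        ∑ x, f x * δ h x = 0 := by
      intro f hf hz
      have h1 : ∀ x, f x * δ h x = f x * (σ x * h.1 x)
          + f (s2 x) * (σ (s2 x) * h.1 (s2 x)) := by
        intro x
        change f x * (σ x * (h.1 x - h.1 (s2 x))) = _
        rw [hf, hσ s2 e2]
        ring
      have h2 : ∑ x, f (s2 x) * (σ (s2 x) * h.1 (s2 x)) = ∑ x, f x * (σ x * h.1 x) :=
        Equiv.sum_comp (⟨s2, s2, i2, i2⟩ : Equiv.Perm X) (fun x => f x * (σ x * h.1 x))
      rw [Finset.sum_congr rfl fun x _ => h1 x, Finset.sum_add_distrib, h2, hz, add_zero]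
    obtain ⟨a, ha, b, hb, rfl⟩ := Submodule.mem_sup.1 hw
    have hA : ∑ x, a x * δ h x = 0 := by
      refine key a (fun x => (ha x).2) (hsum s1 i1 _ fun x => ?_)
      rw [(ha x).1, hσ s1 e1, (h.2 x).2]
      ring
    have hB : ∑ x, b x * δ h x = 0 := by
      refine key b (fun x => (hb x).2) (hsum s0 i0 _ fun x => ?_)
      rw [(hb x).1, hσ s0 e0, (h.2 x).1]
      ring
    rw [← add_zero (0 : ℚ)]
    nth_rewrite 1 [← hA]
    rw [← hB, ← Finset.sum_add_distrib]
    refine Finset.sum_congr rfl fun x _ => ?_
    simp only [Pi.add_apply]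
    ring
  have hdisj : W ⊓ LinearMap.range δ = ⊥ := by
    rw [eq_bot_iff]
    rintro w ⟨hw, ⟨h, rfl⟩⟩
    have h0 := horth h _ hw
    have h1 : ∀ x ∈ (Finset.univ : Finset X), δ h x * δ h x = 0 :=
      (Finset.sum_eq_zero_iff_of_nonneg fun x _ => mul_self_nonneg _).1 h0
    rw [Submodule.mem_bot]
    funext x
    exact mul_self_eq_zero.1 (h1 x (Finset.mem_univ x))
  have hfin := Submodule.finrank_sup_add_finrank_inf_eq W (LinearMap.range δ)
  rw [hdisj, finrank_bot, add_zero] at hfin
  have hle : Module.finrank ℚ (W ⊔ LinearMap.range δ : Submodule ℚ (X → ℚ)) ≤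
      Module.finrank ℚ E := Submodule.finrank_mono (sup_le hWE hKE)
  omega

end Ineq

section Sign

open Equiv.Perm

variable {Z : Type} [Fintype Z] [DecidableEq Z]

/-- number of cycles (with fixed points) -/
noncomputable def nCyc (π : Equiv.Perm Z) : ℕ := Nat.card (Quotient (SameCycle.setoid π))

theorem nCyc_eq (π : Equiv.Perm Z) :
    nCyc π + π.support.card = π.cycleFactorsFinset.card + Fintype.card Z := by
  classical
  -- the map
  let Φ : Z → Equiv.Perm Z ⊕ Z := fun x => if π x = x then Sum.inr x else Sum.inl (π.cycleOf x)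
  have hΦ : ∀ x y, SameCycle π x y ↔ Φ x = Φ y := by
    intro x y
    simp only [Φ]
    constructor
    · intro h
      by_cases hx : π x = x
      · have : x = y := by
          obtain ⟨n, hn⟩ := h
          rw [Equiv.Perm.zpow_apply_eq_self_of_apply_eq_self hx] at hn
          exact hn
        rw [this]
      · have hy : ¬ π y = y := fun hy => hx (h.apply_eq_self_iff.2 hy)
        rw [if_neg hx, if_neg hy, h.cycleOf_eq]
    · intro h
      by_cases hx : π x = x
      · by_cases hy : π y = y
        · rw [if_pos hx, if_pos hy] at h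
          rw [Sum.inr.inj h]
        · rw [if_pos hx, if_neg hy] at h
          cases h
      · by_cases hy : π y = y
        · rw [if_neg hx, if_pos hy] at h
          cases h
        · rw [if_neg hx, if_neg hy] at h
          exact (sameCycle_iff_cycleOf_eq_of_mem_support (mem_support.2 hx) (mem_support.2 hy)).2
            (Sum.inl.inj h)
  let S : Finset (Equiv.Perm Z ⊕ Z) := π.cycleFactorsFinset.disjSum (π.supportᶜ)
  have hS : ∀ u, u ∈ S ↔ ∃ x, Φ x = u := by
    rintro (c | x)
    · simp only [S, Finset.inl_mem_disjSum]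
      constructor
      · intro hc
        obtain ⟨x, hx⟩ := (mem_cycleFactorsFinset_iff.1 hc).1.nonempty_support
        refine ⟨x, ?_⟩
        have h1 : c = π.cycleOf x := cycle_is_cycleOf hx hc
        have h2 : π x ≠ x := by
          have := mem_cycleFactorsFinset_support_le hc hx
          exact mem_support.1 this
        simp only [Φ]
        rw [if_neg h2, h1]
      · rintro ⟨x, hx⟩
        simp only [Φ] at hx
        by_cases h : π x = x
        · rw [if_pos h] at hx; cases hx
        · rw [if_neg h] at hx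
          rw [← Sum.inl.inj hx]
          exact cycleOf_mem_cycleFactorsFinset_iff.2 (mem_support.2 h)
    · simp only [S, Finset.inr_mem_disjSum, Finset.mem_compl, notMem_support]
      constructor
      · intro h
        refine ⟨x, ?_⟩
        simp only [Φ]
        rw [if_pos h]
      · rintro ⟨y, hy⟩
        simp only [Φ] at hy
        by_cases h : π y = y
        · rw [if_pos h] at hy
          rw [← Sum.inr.inj hy]; exact h
        · rw [if_neg h] at hy; cases hy
  have hcard : nCyc π = S.card := by
    have e : Quotient (SameCycle.setoid π) ≃ S := by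
      refine Equiv.ofBijective (Quotient.lift (fun x => (⟨Φ x, (hS _).2 ⟨x, rfl⟩⟩ : S)) ?_) ⟨?_, ?_⟩
      · intro a b hab
        exact Subtype.ext ((hΦ a b).1 hab)
      · intro a b
        induction a using Quotient.inductionOn with
        | h a =>
          induction b using Quotient.inductionOn with
          | h b =>
            intro h
            exact Quotient.sound ((hΦ a b).2 (congrArg Subtype.val h))
      · rintro ⟨u, hu⟩
        obtain ⟨x, hx⟩ := (hS u).1 hu
        exact ⟨⟦x⟧, Subtype.ext hx⟩
    rw [nCyc, Nat.card_congr e, Nat.card_eq_fintype_card, Fintype.card_coe]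
  rw [hcard, Finset.card_disjSum, Finset.card_compl]
  have := Finset.card_le_univ π.support
  omega

theorem sign_nCyc (π : Equiv.Perm Z) :
    sign π = (-1 : ℤˣ) ^ (Fintype.card Z + nCyc π) := by
  have h := nCyc_eq π
  have hc : Multiset.card π.cycleType = π.cycleFactorsFinset.card := by
    rw [cycleType_def, Multiset.card_map]; rfl
  rw [sign_of_cycleType, sum_cycleType, hc]
  have : π.support.card + π.cycleFactorsFinset.card + 2 * nCyc π
      = (Fintype.card Z + nCyc π) + 2 * π.cycleFactorsFinset.card := by omega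
  have h2 : ((-1 : ℤˣ)) ^ (π.support.card + π.cycleFactorsFinset.card + 2 * nCyc π)
      = (-1 : ℤˣ) ^ ((Fintype.card Z + nCyc π) + 2 * π.cycleFactorsFinset.card) := by rw [this]
  rw [pow_add, pow_mul, pow_add _ _ (2 * π.cycleFactorsFinset.card), pow_mul] at h2
  simpa using h2

end Sign

section Dihedral

open Equiv.Perm

variable {X : Type}

/-- the rotation `f ∘ g` on the flags of positive orientation -/
def rot (f g : X → X) (i : ∀ x, f (f x) = x) (j : ∀ x, g (g x) = x) (ε : X → Bool)
    (e : ∀ x, ε (f x) = !ε x) (e' : ∀ x, ε (g x) = !ε x) : Equiv.Perm {x // ε x = true} where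
  toFun x := ⟨f (g x.1), by rw [e, e', x.2]; rfl⟩
  invFun x := ⟨g (f x.1), by rw [e', e, x.2]; rfl⟩
  left_inv x := Subtype.ext (by simp only [i, j])
  right_inv x := Subtype.ext (by simp only [i, j])

theorem nOrb_eq_nCyc (f g : X → X) (i : ∀ x, f (f x) = x) (j : ∀ x, g (g x) = x) (ε : X → Bool)
    (e : ∀ x, ε (f x) = !ε x) (e' : ∀ x, ε (g x) = !ε x) :
    nOrb f g = Nat.card (Quotient (SameCycle.setoid (rot f g i j ε e e'))) := by
  set π := rot f g i j ε e e' with hπ
  -- the retraction to the positive flags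
  have hg : ∀ x, ¬ ε x = true → ε (g x) = true := by
    intro x hx
    rw [e']
    simpa using hx
  classical
  let ρ : X → {x // ε x = true} := fun x => if h : ε x = true then ⟨x, h⟩ else ⟨g x, hg x h⟩
  have hπ1 : ∀ x : {x // ε x = true}, SameCycle π x (π x) := fun x => ⟨1, by simp⟩
  have h1 : ∀ x y, (orb f g) x y → SameCycle π (ρ x) (ρ y) := by
    intro x y hxy
    induction hxy with
    | rel a b hab =>
      rcases hab with rfl | rfl
      · by_cases h : ε a = true
        · have h' : ¬ ε (f a) = true := by rw [e, h]; simp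
          simp only [ρ, dif_pos h, dif_neg h']
          have h2 : π ⟨g (f a), hg _ h'⟩ = ⟨a, h⟩ := Subtype.ext (by
            change f (g (g (f a))) = a
            rw [j, i])
          have h3 := hπ1 ⟨g (f a), hg _ h'⟩
          rw [h2] at h3
          exact h3.symm
        · have h' : ε (f a) = true := by rw [e]; simpa using h
          simp only [ρ, dif_neg h, dif_pos h']
          have h2 : π ⟨g a, hg _ h⟩ = ⟨f a, h'⟩ := Subtype.ext (by
            change f (g (g a)) = f a
            rw [j])
          have h3 := hπ1 ⟨g a, hg _ h⟩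
          rw [h2] at h3
          exact h3
      · by_cases h : ε a = true
        · have h' : ¬ ε (g a) = true := by rw [e', h]; simp
          simp only [ρ, dif_pos h, dif_neg h', j]
          exact SameCycle.refl _ _
        · have h' : ε (g a) = true := by rw [e']; simpa using h
          simp only [ρ, dif_neg h, dif_pos h']
          exact SameCycle.refl _ _
    | refl a => exact SameCycle.refl _ _
    | symm a b _ ih => exact ih.symm
    | trans a b c _ _ ih1 ih2 => exact ih1.trans ih2
  have hstep : ∀ x : {x // ε x = true}, (orb f g) x.1 (π x).1 := fun x =>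
    orb_trans (orb_right x.1) (orb_left _)
  have h2 : ∀ x y : {x // ε x = true}, SameCycle π x y → (orb f g) x.1 y.1 := by
    have hn : ∀ (n : ℕ) (x : {x // ε x = true}), (orb f g) x.1 ((π ^ n) x).1 := by
      intro n
      induction n with
      | zero => intro x; exact orb_refl _
      | succ n ih =>
        intro x
        rw [pow_succ', Equiv.Perm.mul_apply]
        exact orb_trans (ih x) (hstep _)
    rintro x y ⟨n, hn'⟩
    rcases n.eq_nat_or_neg with ⟨m, rfl | rfl⟩
    · rw [zpow_natCast] at hn'
      rw [← hn']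
      exact hn m x
    · have : (π ^ m) y = x := by
        rw [← hn', zpow_neg, zpow_natCast]
        simp
      rw [← this]
      exact orb_symm (hn m y)
  have hρ : ∀ x, (orb f g) x (ρ x).1 := by
    intro x
    by_cases h : ε x = true
    · simp only [ρ, dif_pos h]; exact orb_refl _
    · simp only [ρ, dif_neg h]; exact orb_right _
  refine Nat.card_congr ⟨Quotient.map' ρ h1, Quotient.map' Subtype.val h2, ?_, ?_⟩
  · intro q
    induction q using Quotient.inductionOn with
    | h x => exact Quotient.sound (orb_symm (hρ x))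
  · intro q
    induction q using Quotient.inductionOn with
    | h x =>
      refine Quotient.sound ?_
      have : ρ x.1 = x := by simp only [ρ, dif_pos x.2]
      change SameCycle π (ρ x.1) x
      rw [this]

end Dihedral

/-- genus of an oriented connected flag system -/
theorem genus_flags {X : Type} [Finite X] [Nonempty X] (s0 s1 s2 : X → X)
    (i0 : ∀ x, s0 (s0 x) = x) (i1 : ∀ x, s1 (s1 x) = x) (i2 : ∀ x, s2 (s2 x) = x)
    (ε : X → Bool) (e0 : ∀ x, ε (s0 x) = !ε x) (e1 : ∀ x, ε (s1 x) = !ε x)
    (e2 : ∀ x, ε (s2 x) = !ε x)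
    (conn : ∀ x y, EqvGen (fun a b => b = s0 a ∨ b = s1 a ∨ b = s2 a) x y) :
    ∃ g : ℕ, 2 * (nOrb s0 s1 + nOrb s1 s2 + nOrb s0 s2) + 4 * g = Nat.card X + 4 := by
  classical
  have := Fintype.ofFinite X
  have hineq := euler_ineq s0 s1 s2 i0 i1 i2 ε e0 e1 e2 conn
  have hhalf := card_half s0 i0 ε e0
  -- parity
  have hpar : Even (nOrb s0 s1 + nOrb s1 s2 + nOrb s0 s2 + Nat.card {x // ε x = true}) := by
    have hmul : rot s0 s1 i0 i1 ε e0 e1 * rot s1 s2 i1 i2 ε e1 e2 = rot s0 s2 i0 i2 ε e0 e2 := by
      refine Equiv.ext fun x => Subtype.ext ?_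
      change s0 (s1 (s1 (s2 x.1))) = s0 (s2 x.1)
      rw [i1]
    have hs := congrArg Equiv.Perm.sign hmul
    rw [Equiv.Perm.sign_mul, sign_nCyc, sign_nCyc, sign_nCyc] at hs
    simp only [nCyc] at hs
    rw [← nOrb_eq_nCyc, ← nOrb_eq_nCyc, ← nOrb_eq_nCyc, ← Nat.card_eq_fintype_card] at hs
    set n := Nat.card {x // ε x = true}
    rw [← pow_add] at hs
    have h1 : ((-1 : ℤˣ)) ^ ((n + nOrb s0 s1 + (n + nOrb s1 s2)) + (n + nOrb s0 s2)) = 1 := by
      rw [pow_add, hs, ← pow_add, ← two_mul, pow_mul]
      simp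
    have h2 : Even ((n + nOrb s0 s1 + (n + nOrb s1 s2)) + (n + nOrb s0 s2)) := by
      by_contra hodd
      rw [Nat.not_even_iff_odd] at hodd
      rw [hodd.neg_one_pow] at h1
      exact absurd h1 (by decide)
    obtain ⟨k, hk⟩ := h2
    exact ⟨k - n, by omega⟩
  obtain ⟨k, hk⟩ := hpar
  refine ⟨(Nat.card {x // ε x = true} + 2 - (nOrb s0 s1 + nOrb s1 s2 + nOrb s0 s2)) / 2, ?_⟩
  omega

end Pool.Agent.SDT
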