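import Pool.Agent.SDT.Level
import Pool.Agent.SDT.Genus

/-! Counting in a toral datum. -/

namespace Pool.Agent.SDT
open Relation

/-! ### arithmetic in `ZMod (2 ^ k)` -/

theorem natCast_two_pow_pred {k : ℕ} (hk : 1 ≤ k) {n : ℕ} (hn : n < 2 ^ k) :
    ((2 ^ (k - 1) ∣ n) ↔ n = 0 ∨ n = 2 ^ (k - 1)) := by
  obtain ⟨j, rfl⟩ : ∃ j, k = j + 1 := ⟨k - 1, by omega⟩
  simp only [Nat.add_sub_cancel]
  constructor
  · rintro ⟨m, rfl⟩
    rw [pow_succ] at hn
    have : m < 2 := Nat.lt_of_mul_lt_mul_left hn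
    interval_cases m
    · left; simp
    · right; simp
  · rintro (rfl | rfl)
    · exact dvd_zero _
    · exact dvd_rfl

/-- the element of order two -/
def half (k : ℕ) : ZMod (2 ^ k) := ((2 ^ (k - 1) : ℕ) : ZMod (2 ^ k))

theorem half_ne {k : ℕ} (hk : 1 ≤ k) : half k ≠ 0 := by
  rw [half, Ne, ZMod.natCast_eq_zero_iff]
  intro h
  have := Nat.le_of_dvd (by positivity) h
  have h2 : 2 ^ (k - 1) < 2 ^ k := Nat.pow_lt_pow_right (by norm_num) (by omega)
  omega

theorem half_add {k : ℕ} (hk : 1 ≤ k) : half k + half k = 0 := by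
  rw [half, ← Nat.cast_add, ZMod.natCast_eq_zero_iff, ← two_mul, ← pow_succ',
    Nat.sub_add_cancel hk]

theorem add_self_eq_zero {k : ℕ} (hk : 1 ≤ k) {x : ZMod (2 ^ k)} :
    x + x = 0 ↔ x = 0 ∨ x = half k := by
  have hne : NeZero (2 ^ k) := ⟨by positivity⟩
  constructor
  · intro h
    obtain ⟨n, hn, rfl⟩ : ∃ n : ℕ, n < 2 ^ k ∧ (n : ZMod (2 ^ k)) = x :=
      ⟨x.val, ZMod.val_lt x, ZMod.natCast_zmod_val x⟩
    rw [← Nat.cast_add, ZMod.natCast_eq_zero_iff, ← two_mul] at h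
    have h2 : 2 ^ (k - 1) ∣ n := by
      obtain ⟨j, rfl⟩ : ∃ j, k = j + 1 := ⟨k - 1, by omega⟩
      rw [pow_succ'] at h
      exact Nat.dvd_of_mul_dvd_mul_left (by norm_num) h
    rcases (natCast_two_pow_pred hk hn).1 h2 with rfl | rfl
    · left; simp
    · right; rfl
  · rintro (rfl | rfl)
    · simp
    · exact half_add hk

theorem even_half {k : ℕ} (hk : 2 ≤ k) : Even (half k) := by
  obtain ⟨j, rfl⟩ : ∃ j, k = j + 2 := ⟨k - 2, by omega⟩
  refine ⟨((2 ^ j : ℕ) : ZMod _), ?_⟩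
  rw [half, ← Nat.cast_add]
  congr 1
  rw [show j + 2 - 1 = j + 1 by omega, pow_succ]; ring

theorem half_one : half 1 = 1 := by
  rw [half]; simp

/-- reduction modulo the element of order two -/
def redHalf (k : ℕ) : ZMod (2 ^ k) →+ ZMod (2 ^ (k - 1)) :=
  (ZMod.castHom (pow_dvd_pow 2 (Nat.sub_le k 1)) (ZMod (2 ^ (k - 1)))).toAddMonoidHom

theorem redHalf_surj (k : ℕ) : Function.Surjective (redHalf k) := by
  have hne : NeZero (2 ^ k) := ⟨by positivity⟩
  exact ZMod.castHom_surjective (pow_dvd_pow 2 (Nat.sub_le k 1))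

theorem redHalf_eq_zero {k : ℕ} (hk : 1 ≤ k) (x : ZMod (2 ^ k)) :
    redHalf k x = 0 ↔ x = 0 ∨ x = half k := by
  have hne : NeZero (2 ^ k) := ⟨by positivity⟩
  obtain ⟨n, hn, rfl⟩ : ∃ n : ℕ, n < 2 ^ k ∧ (n : ZMod (2 ^ k)) = x :=
    ⟨x.val, ZMod.val_lt x, ZMod.natCast_zmod_val x⟩
  have h1 : redHalf k (n : ZMod (2 ^ k)) = (n : ZMod (2 ^ (k - 1))) := by
    change (ZMod.castHom (pow_dvd_pow 2 (Nat.sub_le k 1)) (ZMod (2 ^ (k - 1)))) _ = _
    rw [map_natCast]
  rw [h1, ZMod.natCast_eq_zero_iff, natCast_two_pow_pred hk hn]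
  constructor
  · rintro (rfl | rfl)
    · left; simp
    · right; rfl
  · rintro (h | h)
    · left
      rw [ZMod.natCast_eq_zero_iff] at h
      exact Nat.eq_zero_of_dvd_of_lt h hn
    · right
      rw [half, ZMod.natCast_eq_natCast_iff', Nat.mod_eq_of_lt hn, Nat.mod_eq_of_lt] at h
      · exact h
      · exact Nat.pow_lt_pow_right (by norm_num) (by omega)

namespace Datum

variable (D : Datum)

theorem not_odd_half {k : ℕ} (hk : 2 ≤ k) : ¬ Odd (half k) := by
  rw [not_odd_iff_even (by omega)]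
  exact even_half hk

theorem odd_ne_zero {k : ℕ} (hk : 1 ≤ k) {x : ZMod (2 ^ k)} (hx : Odd x) : x ≠ 0 := by
  rintro rfl
  exact (not_odd_iff_even hk).2 (Even.zero) hx

theorem noMirror_of_two_le (hk : 2 ≤ D.k) : D.NoMirror := by
  intro y hy
  have h := D.vinv0 y
  rw [hy] at h
  rcases (add_self_eq_zero D.hk).1 h with e | e
  · exact odd_ne_zero D.hk (D.odd0 y) e
  · exact not_odd_half hk (e ▸ D.odd0 y)

theorem noFold_of_two_le (hk : 2 ≤ D.k) : D.NoFold := by
  intro y hy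
  have hv : Odd (D.v2 y + D.v0 (D.s2 y)) := (D.even2 y).add_odd (D.odd0 _)
  have e2 : D.s2 y = D.s0 y := by
    have := congrArg D.s0 hy
    rwa [D.inv0] at this
  have h2 : (D.v2 y + D.v0 (D.s2 y)) + (D.v2 y + D.v0 (D.s2 y)) = 0 := by
    have a1 := D.vcomm y
    have a2 := D.vinv0 y
    have a3 := D.vinv2 y
    rw [e2] at a1 a3 ⊢
    linear_combination a1 + a2 + a3
  rcases (add_self_eq_zero D.hk).1 h2 with e | e
  · exact odd_ne_zero D.hk hv e
  · exact not_odd_half hk (e ▸ hv)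

theorem w_odd (y : D.Y) : Odd (D.w y) := (D.even1 y).add_odd (D.odd0 _)

theorem turn_turn_w {y : D.Y} (hy : D.turn (D.turn y) = y) :
    D.w y + D.w (D.turn y) = half D.k := by
  have h1 := D.turn2 y hy
  have h2 := D.vturn4 y
  have e : D.s0 (D.s1 (D.s0 (D.s1 y))) = y := hy
  have h3 : (D.w y + D.w (D.turn y)) + (D.w y + D.w (D.turn y)) = 0 := by
    rw [e] at h2
    change D.w y + D.w (D.turn y) + D.w y + D.w (D.turn y) = 0 at h2
    linear_combination h2
  rcases (add_self_eq_zero D.hk).1 h3 with e' | e'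
  · exact absurd e' h1
  · exact e'

theorem squares_of_one (hk : D.k = 1) : D.Squares := by
  intro y hy
  have h := D.turn_turn_w hy
  have h1 : Even (D.w y + D.w (D.turn y)) := (D.w_odd y).add_odd (D.w_odd _)
  rw [h] at h1
  have h2 : Odd (half D.k) := by
    rw [hk, half_one]; exact odd_one
  exact (not_odd_iff_even D.hk).2 h1 h2

theorem turn_ne (hk : D.k ≠ 2) (y : D.Y) : D.turn y ≠ y := by
  intro hy
  have h2 : D.turn (D.turn y) = y := by rw [hy, hy]
  rcases Nat.lt_or_ge D.k 2 with h | h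
  · exact D.squares_of_one (by have := D.hk; omega) y h2
  · have hk3 : 3 ≤ D.k := by omega
    have h3 := D.turn_turn_w h2
    rw [hy] at h3
    obtain ⟨j, hj⟩ : ∃ j, D.k = j + 3 := ⟨D.k - 3, by omega⟩
    have h5 : half D.k = ((2 ^ (j + 1) : ℕ) : ZMod (2 ^ D.k)) + ((2 ^ (j + 1) : ℕ)) := by
      rw [half, ← Nat.cast_add]
      congr 1
      rw [hj, show j + 3 - 1 = j + 2 by omega, pow_succ _ (j + 1)]; ring
    have h6 : (D.w y - ((2 ^ (j + 1) : ℕ) : ZMod (2 ^ D.k))) +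
        (D.w y - ((2 ^ (j + 1) : ℕ) : ZMod (2 ^ D.k))) = 0 := by
      linear_combination h3 + h5
    have h7 : Even (((2 ^ (j + 1) : ℕ) : ZMod (2 ^ D.k))) := by
      refine ⟨((2 ^ j : ℕ) : ZMod _), ?_⟩
      rw [← Nat.cast_add]; congr 1; rw [pow_succ]; ring
    have h8 : Odd (D.w y - ((2 ^ (j + 1) : ℕ) : ZMod (2 ^ D.k))) := by
      rw [odd_iff_par D.hk, map_sub, (odd_iff_par D.hk).1 (D.w_odd y),
        (even_iff_par D.hk).1 h7, sub_zero]
    rcases (add_self_eq_zero D.hk).1 h6 with e | e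
    · exact odd_ne_zero D.hk h8 e
    · exact not_odd_half h (e ▸ h8)

/-! ### counting on the quotient -/

theorem count_E [Finite D.Y] : 4 * D.numE = Nat.card D.Y +
    Nat.card {y // D.s0 (D.s2 y) = y} + Nat.card {y // D.s0 y = y} := by
  have h := edge_count D.s0 D.s2 D.inv0 D.inv2 D.comm
  have z : Nat.card {y // D.s2 y = y} = 0 := by
    rw [Nat.card_eq_zero]; exact Or.inl ⟨fun y => D.free2 y.1 y.2⟩
  rw [z, add_zero] at h
  exact h

theorem count_F [Finite D.Y] : 8 * D.numF = Nat.card D.Y + 2 * Nat.card {y // D.turn y = y} +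
    Nat.card {y // D.turn (D.turn y) = y} + 2 * Nat.card {y // D.s0 y = y} := by
  have h := face_count D.s0 D.s1 D.inv0 D.inv1 D.turn4
  have z : Nat.card {y // D.s1 y = y} = 0 := by
    rw [Nat.card_eq_zero]; exact Or.inl ⟨fun y => D.free1 y.1 y.2⟩
  rw [z, mul_zero, add_zero] at h
  exact h

theorem card_R [Finite D.Y] : Nat.card D.R = Nat.card D.Y * 2 ^ D.k := by
  rw [Nat.card_prod]
  congr 1
  exact Nat.card_zmod _

theorem flat_orb (hf : D.Flat) {p q : D.R} :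
    (orb D.p1 D.p2) p q ↔ (orb D.s1 D.s2) p.1 q.1 ∧ p.2 = q.2 := by
  constructor
  · intro h
    refine ⟨D.orb_proj h, ?_⟩
    refine conn_const (fun p : D.R => p.2) ?_ h
    rintro ⟨y, z⟩ _ (rfl | rfl)
    · change z = z + D.v1 y
      rw [hf.1, add_zero]
    · change z = z + D.v2 y
      rw [hf.2, add_zero]
  · rintro ⟨h1, h2⟩
    have h3 : (orb D.p1 D.p2) (p.1, p.2) (q.1, p.2) := by
      refine orb_map (fun y : D.Y => (y, p.2)) ?_ ?_ h1
      · intro a
        change (D.s1 a, p.2) = (D.s1 a, p.2 + D.v1 a)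
        rw [hf.1, add_zero]
      · intro a
        change (D.s2 a, p.2) = (D.s2 a, p.2 + D.v2 a)
        rw [hf.2, add_zero]
    rw [h2] at h3
    have e1 : p = (p.1, q.2) := by rw [← h2]
    rw [e1]
    exact h3

theorem flat_count (hf : D.Flat) : nOrb D.p1 D.p2 = D.numV * 2 ^ D.k := by
  rw [numV, nOrb, nOrb]
  have e : Quotient (orb D.p1 D.p2) ≃ Quotient (orb D.s1 D.s2) × ZMod (2 ^ D.k) :=
    { toFun := Quotient.lift (fun p : D.R => (Quotient.mk (orb D.s1 D.s2) p.1, p.2)) (by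
        intro p q h
        have := (D.flat_orb hf).1 h
        exact Prod.ext (mk_eq.2 this.1) this.2)
      invFun := fun c => Quotient.lift (fun y => Quotient.mk (orb D.p1 D.p2) (y, c.2)) (by
        intro y y' h
        exact mk_eq.2 ((D.flat_orb hf).2 ⟨h, rfl⟩)) c.1
      left_inv := by
        intro q
        induction q using Quotient.inductionOn
        rfl
      right_inv := by
        rintro ⟨c, z⟩
        induction c using Quotient.inductionOn
        rfl }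
  rw [Nat.card_congr e, Nat.card_prod, Nat.card_zmod]

theorem numV_eq [Finite D.Y] (ht : D.Toral) (hf : D.Flat) : 8 * D.numV = Nat.card D.Y := by
  have h1 := ht.torus
  rw [D.flat_count hf, D.card_R] at h1
  have : 0 < 2 ^ D.k := by positivity
  apply Nat.eq_of_mul_eq_mul_right this
  rw [← h1]; ring

/-! ### orientation -/

theorem Toral.eps {D : Datum} (ht : D.Toral) : ∃ (ε : D.R → Bool) (c : Bool),
    (∀ p, ε (D.p0 p) = !ε p) ∧ (∀ p, ε (D.p1 p) = !ε p) ∧ (∀ p, ε (D.p2 p) = !ε p) ∧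
    ∀ y z, ε (y, z + 1) = xor c (ε (y, z)) := by
  obtain ⟨ε, hε⟩ := ht.orient
  obtain ⟨y0⟩ := D.nonempty
  refine ⟨ε, xor (ε (y0, 1)) (ε (y0, 0)), fun p => (hε p).1, fun p => (hε p).2.1,
    fun p => (hε p).2.2, ?_⟩
  have hc : ∀ p q : D.R, xor (ε (p.1, p.2 + 1)) (ε p) = xor (ε (q.1, q.2 + 1)) (ε q) := by
    intro p q
    refine conn_const (fun p : D.R => xor (ε (p.1, p.2 + 1)) (ε p)) ?_ (ht.conn p q)
    rintro ⟨y, z⟩ v (rfl | rfl | rfl)
    · have e : ε ((D.p0 (y, z)).1, (D.p0 (y, z)).2 + 1) = ε (D.p0 (y, z + 1)) := by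
        congr 1
        simp only [p0, Prod.mk.injEq, true_and]; ring
      simp only [e, (hε _).1]
      simp
    · have e : ε ((D.p1 (y, z)).1, (D.p1 (y, z)).2 + 1) = ε (D.p1 (y, z + 1)) := by
        congr 1
        simp only [p1, Prod.mk.injEq, true_and]; ring
      simp only [e, (hε _).2.1]
      simp
    · have e : ε ((D.p2 (y, z)).1, (D.p2 (y, z)).2 + 1) = ε (D.p2 (y, z + 1)) := by
        congr 1
        simp only [p2, Prod.mk.injEq, true_and]; ring
      simp only [e, (hε _).2.2]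
      simp
  intro y z
  have := hc (y, z) (y0, 0)
  simp only [zero_add] at this
  rw [← this]
  simp

theorem eps_even {D : Datum} {ε : D.R → Bool} {c : Bool}
    (h : ∀ y z, ε (y, z + 1) = xor c (ε (y, z))) (y : D.Y) (z w : ZMod (2 ^ D.k))
    (hw : Even w) : ε (y, z + w) = ε (y, z) := by
  have hne : NeZero (2 ^ D.k) := ⟨by positivity⟩
  obtain ⟨r, rfl⟩ := hw
  have key : ∀ m : ℕ, ε (y, z + ((m : ZMod (2 ^ D.k)) + m)) = ε (y, z) := by
    intro m
    induction m with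
    | zero => simp
    | succ m ih =>
      have : z + (((m + 1 : ℕ) : ZMod (2 ^ D.k)) + ((m + 1 : ℕ) : ZMod (2 ^ D.k))) =
          z + ((m : ZMod (2 ^ D.k)) + m) + 1 + 1 := by push_cast; ring
      rw [this, h, h, ih]
      simp
  have := key r.val
  rwa [ZMod.natCast_zmod_val] at this

/-- case of an orientation preserving duality -/
theorem orientable_of_false {D : Datum} {ε : D.R → Bool} (e0 : ∀ p, ε (D.p0 p) = !ε p)
    (e1 : ∀ p, ε (D.p1 p) = !ε p) (e2 : ∀ p, ε (D.p2 p) = !ε p)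
    (h : ∀ y z, ε (y, z + 1) = xor false (ε (y, z))) :
    ∃ ε' : D.Y → Bool, ∀ y, ε' (D.s0 y) = !ε' y ∧ ε' (D.s1 y) = !ε' y ∧ ε' (D.s2 y) = !ε' y := by
  have hne : NeZero (2 ^ D.k) := ⟨by positivity⟩
  have hz : ∀ y z, ε (y, z) = ε (y, 0) := by
    intro y z
    have key : ∀ m : ℕ, ε (y, (m : ZMod (2 ^ D.k))) = ε (y, 0) := by
      intro m
      induction m with
      | zero => simp
      | succ m ih => rw [Nat.cast_succ, h, ih]; simp
    have := key z.val
    rwa [ZMod.natCast_zmod_val] at this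
  refine ⟨fun y => ε (y, 0), fun y => ⟨?_, ?_, ?_⟩⟩
  · change ε (D.s0 y, 0) = !ε (y, 0)
    rw [← e0, ← hz (D.s0 y) (0 + D.v0 y)]; rfl
  · change ε (D.s1 y, 0) = !ε (y, 0)
    rw [← e1, ← hz (D.s1 y) (0 + D.v1 y)]; rfl
  · change ε (D.s2 y, 0) = !ε (y, 0)
    rw [← e2, ← hz (D.s2 y) (0 + D.v2 y)]; rfl

/-- case of an orientation reversing duality -/
theorem alternating_of_true {D : Datum} {ε : D.R → Bool} (e0 : ∀ p, ε (D.p0 p) = !ε p)
    (e1 : ∀ p, ε (D.p1 p) = !ε p) (e2 : ∀ p, ε (D.p2 p) = !ε p)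
    (h : ∀ y z, ε (y, z + 1) = xor true (ε (y, z))) : D.Alternating := by
  have hne : NeZero (2 ^ D.k) := ⟨by positivity⟩
  have hz : ∀ y z, ε (y, z) = xor (isOdd z) (ε (y, 0)) := by
    intro y z
    have key : ∀ m : ℕ, ε (y, (m : ZMod (2 ^ D.k))) =
        xor (isOdd (m : ZMod (2 ^ D.k))) (ε (y, 0)) := by
      intro m
      induction m with
      | zero => simp [isOdd_zero]
      | succ m ih =>
        rw [Nat.cast_succ, h, ih, isOdd_add D.hk, isOdd_one D.hk]
        cases isOdd (m : ZMod (2 ^ D.k)) <;> cases ε (y, 0) <;> rfl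
    have := key z.val
    rwa [ZMod.natCast_zmod_val] at this
  refine ⟨fun y => ε (y, 0), fun y => ⟨?_, ?_, ?_⟩⟩
  · change ε (D.s0 y, 0) = ε (y, 0)
    have h1 := e0 (y, 0)
    have h2 : ε (D.p0 (y, 0)) = xor (isOdd (0 + D.v0 y)) (ε (D.s0 y, 0)) := hz _ _
    rw [zero_add, isOdd_of_odd D.hk (D.odd0 y)] at h2
    rw [h2] at h1
    revert h1
    cases ε (D.s0 y, 0) <;> cases ε (y, 0) <;> simp
  · change ε (D.s1 y, 0) = !ε (y, 0)
    have h1 := e1 (y, 0)
    have h2 : ε (D.p1 (y, 0)) = xor (isOdd (0 + D.v1 y)) (ε (D.s1 y, 0)) := hz _ _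
    rw [zero_add, isOdd_of_even D.hk (D.even1 y)] at h2
    rw [h2] at h1
    revert h1
    cases ε (D.s1 y, 0) <;> cases ε (y, 0) <;> simp
  · change ε (D.s2 y, 0) = !ε (y, 0)
    have h1 := e2 (y, 0)
    have h2 : ε (D.p2 (y, 0)) = xor (isOdd (0 + D.v2 y)) (ε (D.s2 y, 0)) := hz _ _
    rw [zero_add, isOdd_of_even D.hk (D.even2 y)] at h2
    rw [h2] at h1
    revert h1
    cases ε (D.s2 y, 0) <;> cases ε (y, 0) <;> simp

theorem not_bipartite {D : Datum} (ht : D.Toral) : ¬ D.Bipartite := by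
  rintro ⟨c, hc⟩
  obtain ⟨y0⟩ := D.nonempty
  have h : xor (c y0) (isOdd (0 : ZMod (2 ^ D.k))) = xor (c y0) (isOdd (1 : ZMod (2 ^ D.k))) := by
    refine conn_const (fun p : D.R => xor (c p.1) (isOdd p.2)) ?_ (ht.conn (y0, 0) (y0, 1))
    rintro ⟨y, z⟩ v (rfl | rfl | rfl)
    · change xor (c y) (isOdd z) = xor (c (D.s0 y)) (isOdd (z + D.v0 y))
      rw [isOdd_add D.hk, isOdd_of_odd D.hk (D.odd0 y), (hc y).1]
      cases c y <;> cases isOdd z <;> rfl
    · change xor (c y) (isOdd z) = xor (c (D.s1 y)) (isOdd (z + D.v1 y))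
      rw [isOdd_add D.hk, isOdd_of_even D.hk (D.even1 y), (hc y).2.1]
      cases c y <;> cases isOdd z <;> rfl
    · change xor (c y) (isOdd z) = xor (c (D.s2 y)) (isOdd (z + D.v2 y))
      rw [isOdd_add D.hk, isOdd_of_even D.hk (D.even2 y), (hc y).2.2]
      cases c y <;> cases isOdd z <;> rfl
  rw [isOdd_zero, isOdd_one D.hk] at h
  revert h
  cases c y0 <;> simp

end Datum

end Pool.Agent.SDT
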