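import Pool.Agent.SDT.Parities

/-! From an automorphism swapping the colours to a datum. -/

namespace Pool.Agent.SDT
open Relation

/-- a function invariant under the generators is constant on a connected set -/
theorem conn_const {X β : Type} {r : X → X → Prop} (f : X → β) (h : ∀ a b, r a b → f a = f b)
    {x y : X} (hxy : EqvGen r x y) : f x = f y := by
  induction hxy with
  | rel a b hab => exact h a b hab
  | refl a => rfl
  | symm a b _ ih => exact ih.symm
  | trans a b c _ _ ih1 ih2 => exact ih1.trans ih2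

theorem comm_pow {X : Type} {s : X → X} {b : Equiv.Perm X} (hs : ∀ x, s (b x) = b (s x)) (n : ℕ)
    (x : X) : s ((b ^ n) x) = (b ^ n) (s x) := by
  induction n with
  | zero => rfl
  | succ n ih => rw [pow_succ', Equiv.Perm.mul_apply, hs, ih]; rfl

theorem fix_const {X : Type} {s : X → X} (hss : ∀ x, s (s x) = x) {b : Equiv.Perm X}
    (hs : ∀ x, s (b x) = b (s x)) (x : X) : b x = x ↔ b (s x) = s x := by
  constructor
  · intro h; rw [← hs, h]
  · intro h
    have := congrArg s h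
    rwa [← hs, hss, hss] at this

theorem exists_cover {X : Type} [Finite X] [Nonempty X] (s0 s1 s2 : X → X)
    (i0 : ∀ x, s0 (s0 x) = x) (i1 : ∀ x, s1 (s1 x) = x) (i2 : ∀ x, s2 (s2 x) = x)
    (conn : ∀ x y, EqvGen (fun a b => b = s0 a ∨ b = s1 a ∨ b = s2 a) x y)
    (a : Equiv.Perm X) (h0 : ∀ x, s0 (a x) = a (s0 x)) (h1 : ∀ x, s1 (a x) = a (s1 x))
    (h2 : ∀ x, s2 (a x) = a (s2 x)) (col : X → Bool) (hcol : ∀ x, col (a x) = !col x) :
    ∃ (k : ℕ) (_ : 1 ≤ k) (Y : Type) (Θ : Y × ZMod (2 ^ k) ≃ X) (b : Equiv.Perm X),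
      (∀ y z, Θ (y, z + 1) = b (Θ (y, z))) ∧ (∀ x, s0 (b x) = b (s0 x)) ∧
      (∀ x, s1 (b x) = b (s1 x)) ∧ (∀ x, s2 (b x) = b (s2 x)) ∧
      (∀ x, col (b x) = !col x) ∧ ∀ y, col (Θ (y, 0)) = false := by
  classical
  have hord : orderOf a ≠ 0 := (orderOf_pos a).ne'
  obtain ⟨k, m, hm, hkm⟩ := Nat.exists_eq_two_pow_mul_odd hord
  have hcoln : ∀ (n : ℕ) x, col ((a ^ n) x) = xor (col x) (decide (n % 2 = 1)) := by
    intro n
    induction n with
    | zero => intro x; simp
    | succ n ih =>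
      intro x
      rw [pow_succ', Equiv.Perm.mul_apply, hcol, ih]
      rcases Nat.mod_two_eq_zero_or_one n with h | h
      · have h' : (n + 1) % 2 = 1 := by omega
        simp [h, h']
      · have h' : (n + 1) % 2 = 0 := by omega
        simp [h, h']
  obtain ⟨b, hb⟩ : ∃ b : Equiv.Perm X, b = a ^ m := ⟨_, rfl⟩
  have hordb : orderOf b = 2 ^ k := by
    rw [hb, orderOf_pow, hkm]
    have : Nat.gcd (2 ^ k * m) m = m := Nat.gcd_eq_right (Dvd.intro_left _ rfl)
    rw [this, Nat.mul_div_cancel _ hm.pos]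
  have hb2 : b ^ (2 ^ k) = 1 := by rw [← hordb, pow_orderOf_eq_one]
  have hcolb : ∀ x, col (b x) = !col x := by
    intro x
    rw [hb, hcoln]
    simp [Nat.odd_iff.1 hm]
  have hk : 1 ≤ k := by
    by_contra hk
    have : k = 0 := by omega
    subst this
    have hb1 : b = 1 := by simpa using hb2
    have := hcolb (Classical.arbitrary X)
    rw [hb1] at this
    simp at this
  have hb0 : ∀ x, s0 (b x) = b (s0 x) := by rw [hb]; exact comm_pow h0 m
  have hb1 : ∀ x, s1 (b x) = b (s1 x) := by rw [hb]; exact comm_pow h1 m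
  have hb2' : ∀ x, s2 (b x) = b (s2 x) := by rw [hb]; exact comm_pow h2 m
  have hfree : ∀ (n : ℕ) x, (b ^ n) x = x → 2 ^ k ∣ n := by
    intro n x hx
    rw [← hordb]
    apply orderOf_dvd_of_pow_eq_one
    ext y
    have := conn_const (fun x => ((b ^ n) x = x)) (r := fun a b => b = s0 a ∨ b = s1 a ∨
      b = s2 a) (by
        rintro u v (rfl | rfl | rfl)
        · exact propext (fix_const i0 (comm_pow hb0 n) u)
        · exact propext (fix_const i1 (comm_pow hb1 n) u)
        · exact propext (fix_const i2 (comm_pow hb2' n) u)) (conn x y)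
    exact this ▸ hx
  have hne : NeZero (2 ^ k) := ⟨by positivity⟩
  -- the quotient
  let Y : Type := Quotient (Equiv.Perm.SameCycle.setoid b)
  let mkY : X → Y := Quotient.mk _
  have hmk : ∀ x x' : X, mkY x = mkY x' ↔ ∃ n : ℕ, (b ^ n) x = x' := by
    intro x x'
    change Quotient.mk (Equiv.Perm.SameCycle.setoid b) x = Quotient.mk _ x' ↔ _
    rw [Quotient.eq]
    change Equiv.Perm.SameCycle b x x' ↔ _
    constructor
    · intro h
      obtain ⟨n, _, hn⟩ := h.exists_pow_eq''
      exact ⟨n, hn.2⟩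
    · rintro ⟨n, hn⟩
      exact ⟨n, by simpa using hn⟩
  have hσ : ∀ y : Y, ∃ x, mkY x = y ∧ col x = false := by
    intro y
    obtain ⟨x, rfl⟩ := Quotient.exists_rep y
    rcases h : col x with _ | _
    · exact ⟨x, rfl, h⟩
    · refine ⟨b x, ?_, by rw [hcolb, h]; rfl⟩
      refine ((hmk x (b x)).2 ⟨1, by simp⟩).symm
  choose σ hσ1 hσ2 using hσ
  let f : Y × ZMod (2 ^ k) → X := fun p => (b ^ p.2.val) (σ p.1)
  have hf : Function.Bijective f := by
    constructor
    · rintro ⟨y, z⟩ ⟨y', z'⟩ h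
      change (b ^ z.val) (σ y) = (b ^ z'.val) (σ y') at h
      have hy : y = y' := by
        rw [← hσ1 y, ← hσ1 y']
        have e1 : mkY (σ y) = mkY ((b ^ z.val) (σ y)) := (hmk _ _).2 ⟨_, rfl⟩
        have e2 : mkY (σ y') = mkY ((b ^ z'.val) (σ y')) := (hmk _ _).2 ⟨_, rfl⟩
        rw [e1, e2, h]
      subst hy
      have key : ∀ z z' : ZMod (2 ^ k), z.val ≤ z'.val → (b ^ z.val) (σ y) = (b ^ z'.val) (σ y) →
          z = z' := by
        intro z z' hle h
        have h1 : (b ^ (z'.val - z.val)) (σ y) = σ y := by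
          apply (b ^ z.val).injective
          rw [← Equiv.Perm.mul_apply, ← pow_add, Nat.add_sub_cancel' hle, ← h]
        have h2 := hfree _ _ h1
        have h3 : z'.val - z.val = 0 :=
          Nat.eq_zero_of_dvd_of_lt h2 (lt_of_le_of_lt (Nat.sub_le _ _) (ZMod.val_lt z'))
        exact ZMod.val_injective _ (by omega)
      rcases le_total z.val z'.val with hle | hle
      · rw [key z z' hle h]
      · rw [key z' z hle h.symm]
    · intro x
      obtain ⟨n, hn⟩ := (hmk (σ (mkY x)) x).1 (hσ1 (mkY x))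
      refine ⟨(mkY x, (n : ZMod (2 ^ k))), ?_⟩
      change (b ^ ((n : ZMod (2 ^ k)).val)) (σ (mkY x)) = x
      rw [ZMod.val_natCast, ← pow_eq_pow_mod _ hb2]
      exact hn
  refine ⟨k, hk, Y, Equiv.ofBijective f hf, b, ?_, hb0, hb1, hb2', hcolb, ?_⟩
  · intro y z
    change (b ^ (z + 1).val) (σ y) = b ((b ^ z.val) (σ y))
    rw [← Equiv.Perm.mul_apply, ← pow_succ', ZMod.val_add, ← pow_eq_pow_mod _ hb2]
    congr 1
    have h1 : (1 : ZMod (2 ^ k)).val = 1 := by
      have : Fact (1 < 2 ^ k) := ⟨Nat.one_lt_two_pow (by omega)⟩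
      exact ZMod.val_one _
    rw [h1]
  · intro y
    change col ((b ^ (0 : ZMod (2 ^ k)).val) (σ y)) = false
    simp [hσ2]

end Pool.Agent.SDT
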