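import Mathlib

/-!
# Self-dual toroidal polyhedra: the definitions

The first part follows the problem file (abstract polyhedra, flags, toroidal, self-dual).
The second part describes the data from which all self-dual toroidal polyhedra are built.
-/

namespace Pool.Agent.SDT

/-! ## Abstract polyhedra -/

/-- Two flags (maximal chains) are adjacent if they differ in exactly one face. -/
def FlagAdj {P : Type} [PartialOrder P] (A B : Flag P) : Prop :=
  ((A : Set P) \ B).ncard = 1 ∧ ((B : Set P) \ A).ncard = 1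

/-- `P` is an abstract polyhedron with rank function `rk`. -/
structure IsPolyhedron (P : Type) [PartialOrder P] (rk : P → ℤ) : Prop where
  strictMono : StrictMono rk
  range_eq : Set.range rk = {-1, 0, 1, 2, 3}
  least : ∃ b, rk b = -1 ∧ ∀ x, b ≤ x
  greatest : ∃ t, rk t = 3 ∧ ∀ x, x ≤ t
  card_flag : ∀ A : Flag P, (A : Set P).ncard = 5
  diamond : ∀ F G : P, F < G → rk G - rk F = 2 → {H | F < H ∧ H < G}.ncard = 2
  connected : ∀ A B : Flag P, Relation.ReflTransGen
    (fun C D : Flag P => FlagAdj C D ∧ (A : Set P) ∩ B ⊆ D) A B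

/-- `P` is a toroidal polyhedron with rank function `rk`: the closed surface of the polyhedron is
compact (`P` is finite), orientable (the flags can be two-coloured so that adjacent flags get
different colours) and has Euler characteristic `0`. -/
structure IsToroidal (P : Type) [PartialOrder P] (rk : P → ℤ) : Prop where
  poly : IsPolyhedron P rk
  finite : Finite P
  orientable : ∃ ε : Flag P → Bool, ∀ A B : Flag P, FlagAdj A B → ε A ≠ ε B
  euler : ({x | rk x = 0}.ncard : ℤ) - {x | rk x = 1}.ncard + {x | rk x = 2}.ncard = 0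

/-- `P` is a self-dual toroidal polyhedron. -/
def SelfDualToroidal (P : Type) [PartialOrder P] : Prop :=
  (∃ rk : P → ℤ, IsToroidal P rk) ∧ Nonempty (P ≃o Pᵒᵈ)

/-! ## Orbits and flag systems -/

/-- The equivalence relation same orbit of the group generated by two involutions. -/
def orb {X : Type} (f g : X → X) : Setoid X :=
  Relation.EqvGen.setoid fun x y => y = f x ∨ y = g x

/-- number of orbits -/
noncomputable def nOrb {X : Type} (f g : X → X) : ℕ := Nat.card (Quotient (orb f g))

/-- A flag system: `r0`, `r1`, `r2` change the vertex, the edge, the face of a flag. -/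
structure FlagSys where
  X : Type
  r0 : X → X
  r1 : X → X
  r2 : X → X
  inv0 : ∀ x, r0 (r0 x) = x
  inv1 : ∀ x, r1 (r1 x) = x
  inv2 : ∀ x, r2 (r2 x) = x
  comm : ∀ x, r0 (r2 x) = r2 (r0 x)

/-- The faces of a flag system: vertices, edges and faces are the orbits of `⟨r1,r2⟩`, `⟨r0,r2⟩`
and `⟨r0,r1⟩`; a least and a greatest face are added. -/
inductive Faces (S : FlagSys) : Type
  | bot : Faces S
  | vertex (a : Quotient (orb S.r1 S.r2)) : Faces S
  | edge (a : Quotient (orb S.r0 S.r2)) : Faces S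
  | face (a : Quotient (orb S.r0 S.r1)) : Faces S
  | top : Faces S

/-- incidence of faces: two orbits are incident if they have a common flag -/
def Faces.le {S : FlagSys} : Faces S → Faces S → Prop
  | .bot, _ => True
  | _, .top => True
  | .vertex a, .vertex b => a = b
  | .vertex a, .edge b => ∃ x : S.X, a = ⟦x⟧ ∧ b = ⟦x⟧
  | .vertex a, .face b => ∃ x : S.X, a = ⟦x⟧ ∧ b = ⟦x⟧
  | .edge a, .edge b => a = b
  | .edge a, .face b => ∃ x : S.X, a = ⟦x⟧ ∧ b = ⟦x⟧
  | .face a, .face b => a = b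
  | _, _ => False

theorem orb_refl {X : Type} {f g : X → X} (x : X) : (orb f g) x x := Relation.EqvGen.refl x
theorem orb_symm {X : Type} {f g : X → X} {x y : X} (h : (orb f g) x y) : (orb f g) y x :=
  Relation.EqvGen.symm _ _ h
theorem orb_trans {X : Type} {f g : X → X} {x y z : X} (h : (orb f g) x y) (h' : (orb f g) y z) :
    (orb f g) x z := Relation.EqvGen.trans _ _ _ h h'
theorem orb_left {X : Type} {f g : X → X} (x : X) : (orb f g) x (f x) :=
  Relation.EqvGen.rel _ _ (Or.inl rfl)
theorem orb_right {X : Type} {f g : X → X} (x : X) : (orb f g) x (g x) :=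
  Relation.EqvGen.rel _ _ (Or.inr rfl)

theorem mk_eq {X : Type} {f g : X → X} {x y : X} :
    (Quotient.mk (orb f g) x = Quotient.mk (orb f g) y) ↔ (orb f g) x y := Quotient.eq

/-- an orbit of two commuting involutions has at most four elements -/
theorem orb_comm_iff {X : Type} {f g : X → X} (hf : ∀ x, f (f x) = x) (hg : ∀ x, g (g x) = x)
    (h : ∀ x, f (g x) = g (f x)) {x y : X} :
    (orb f g) x y ↔ y = x ∨ y = f x ∨ y = g x ∨ y = f (g x) := by
  constructor
  · intro hxy
    induction hxy with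
    | rel a b hab =>
      rcases hab with rfl | rfl
      · exact Or.inr (Or.inl rfl)
      · exact Or.inr (Or.inr (Or.inl rfl))
    | refl a => exact Or.inl rfl
    | symm a b _ ih =>
      rcases ih with rfl | rfl | rfl | rfl
      · exact Or.inl rfl
      · exact Or.inr (Or.inl (hf a).symm)
      · exact Or.inr (Or.inr (Or.inl (hg a).symm))
      · refine Or.inr (Or.inr (Or.inr ?_))
        rw [h (f (g a)), hf, hg]
    | trans a b c _ _ ih1 ih2 =>
      rcases ih1 with rfl | rfl | rfl | rfl <;> rcases ih2 with rfl | rfl | rfl | rfl <;>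
        simp [hf, hg, h]
  · rintro (rfl | rfl | rfl | rfl)
    · exact orb_refl _
    · exact orb_left _
    · exact orb_right _
    · exact orb_trans (orb_right x) (orb_left _)

theorem Faces.le_trans' {S : FlagSys} (a b c : Faces S) (hab : a.le b) (hbc : b.le c) :
    a.le c := by
  cases a <;> cases b <;> cases c <;> simp only [Faces.le] at hab hbc ⊢
  · exact hab.trans hbc
  · subst hab; exact hbc
  · subst hab; exact hbc
  · subst hbc; exact hab
  · obtain ⟨x, rfl, rfl⟩ := hab
    obtain ⟨y, h1, rfl⟩ := hbc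
    rw [mk_eq, orb_comm_iff S.inv0 S.inv2 S.comm] at h1
    rcases h1 with rfl | rfl | rfl | rfl
    · exact ⟨_, rfl, rfl⟩
    · exact ⟨x, rfl, mk_eq.2 (orb_symm (orb_left x))⟩
    · exact ⟨S.r2 x, mk_eq.2 (orb_right x), rfl⟩
    · exact ⟨S.r2 x, mk_eq.2 (orb_right x), mk_eq.2 (orb_symm (orb_left _))⟩
  · subst hbc; exact hab
  · exact hab.trans hbc
  · subst hab; exact hbc
  · subst hbc; exact hab
  · exact hab.trans hbc

instance {S : FlagSys} : PartialOrder (Faces S) where
  le := Faces.le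
  le_refl a := by cases a <;> simp [Faces.le]
  le_trans := Faces.le_trans'
  le_antisymm a b hab hba := by
    cases a <;> cases b <;> simp_all [Faces.le]

/-! ## The data

A datum is a finite cell decomposition of a quotient surface, given by its set `Y` of flags
(`s0`: other end of the side, `s1`: other side at the corner, `s2`: across the side), together with
voltages `v0, v1, v2` in the cyclic group of order `2 ^ k`.  The derived (unfolded) structure
on `Y × ZMod (2 ^ k)` is a decomposition of a closed surface into squares whose vertices are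
coloured by the parity of the second coordinate; it is the vertex-face incidence map of
the polyhedron. -/

structure Datum where
  Y : Type
  finite : Finite Y
  nonempty : Nonempty Y
  k : ℕ
  hk : 1 ≤ k
  s0 : Y → Y
  s1 : Y → Y
  s2 : Y → Y
  v0 : Y → ZMod (2 ^ k)
  v1 : Y → ZMod (2 ^ k)
  v2 : Y → ZMod (2 ^ k)
  inv0 : ∀ y, s0 (s0 y) = y
  inv1 : ∀ y, s1 (s1 y) = y
  inv2 : ∀ y, s2 (s2 y) = y
  free1 : ∀ y, s1 y ≠ y
  free2 : ∀ y, s2 y ≠ y
  comm : ∀ y, s0 (s2 y) = s2 (s0 y)
  conn : ∀ y y', Relation.EqvGen (fun a b => b = s0 a ∨ b = s1 a ∨ b = s2 a) y y'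
  vinv0 : ∀ y, v0 y + v0 (s0 y) = 0
  vinv1 : ∀ y, v1 y + v1 (s1 y) = 0
  vinv2 : ∀ y, v2 y + v2 (s2 y) = 0
  vcomm : ∀ y, v2 y + v0 (s2 y) = v0 y + v2 (s0 y)
  odd0 : ∀ y, Odd (v0 y)
  even1 : ∀ y, Even (v1 y)
  even2 : ∀ y, Even (v2 y)
  /-- four quarter turns around a cell are the identity, on flags and on voltages -/
  turn4 : ∀ y, s0 (s1 (s0 (s1 (s0 (s1 (s0 (s1 y))))))) = y
  vturn4 : ∀ y, v1 y + v0 (s1 y) + (v1 (s0 (s1 y)) + v0 (s1 (s0 (s1 y))))
    + (v1 (s0 (s1 (s0 (s1 y)))) + v0 (s1 (s0 (s1 (s0 (s1 y))))))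
    + (v1 (s0 (s1 (s0 (s1 (s0 (s1 y)))))) + v0 (s1 (s0 (s1 (s0 (s1 (s0 (s1 y)))))))) = 0
  /-- two quarter turns are not -/
  turn2 : ∀ y, s0 (s1 (s0 (s1 y))) = y →
    v1 y + v0 (s1 y) + (v1 (s0 (s1 y)) + v0 (s1 (s0 (s1 y)))) ≠ 0

namespace Datum

/-- quarter turn around a cell -/
def turn (D : Datum) (y : D.Y) : D.Y := D.s0 (D.s1 y)

/-- voltage of a quarter turn -/
def w (D : Datum) (y : D.Y) : ZMod (2 ^ D.k) := D.v1 y + D.v0 (D.s1 y)

/-- flags of the unfolded structure -/
abbrev R (D : Datum) : Type := D.Y × ZMod (2 ^ D.k)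

def p0 (D : Datum) (p : D.R) : D.R := (D.s0 p.1, p.2 + D.v0 p.1)
def p1 (D : Datum) (p : D.R) : D.R := (D.s1 p.1, p.2 + D.v1 p.1)
def p2 (D : Datum) (p : D.R) : D.R := (D.s2 p.1, p.2 + D.v2 p.1)

theorem p0_p0 (D : Datum) (p : D.R) : D.p0 (D.p0 p) = p := by
  obtain ⟨y, z⟩ := p
  simp only [p0, D.inv0, add_assoc, D.vinv0, add_zero]
theorem p1_p1 (D : Datum) (p : D.R) : D.p1 (D.p1 p) = p := by
  obtain ⟨y, z⟩ := p
  simp only [p1, D.inv1, add_assoc, D.vinv1, add_zero]
theorem p2_p2 (D : Datum) (p : D.R) : D.p2 (D.p2 p) = p := by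
  obtain ⟨y, z⟩ := p
  simp only [p2, D.inv2, add_assoc, D.vinv2, add_zero]
theorem p0_p2 (D : Datum) (p : D.R) : D.p0 (D.p2 p) = D.p2 (D.p0 p) := by
  obtain ⟨y, z⟩ := p
  simp only [p0, p2, D.comm, add_assoc, D.vcomm]
theorem turn4_R (D : Datum) (p : D.R) :
    D.p0 (D.p1 (D.p0 (D.p1 (D.p0 (D.p1 (D.p0 (D.p1 p))))))) = p := by
  obtain ⟨y, z⟩ := p
  have := D.vturn4 y
  simp only [p0, p1, D.turn4, Prod.mk.injEq, true_and]
  calc _ = z + (D.v1 y + D.v0 (D.s1 y) + (D.v1 (D.s0 (D.s1 y)) + D.v0 (D.s1 (D.s0 (D.s1 y))))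
    + (D.v1 (D.s0 (D.s1 (D.s0 (D.s1 y)))) + D.v0 (D.s1 (D.s0 (D.s1 (D.s0 (D.s1 y))))))
    + (D.v1 (D.s0 (D.s1 (D.s0 (D.s1 (D.s0 (D.s1 y)))))) +
      D.v0 (D.s1 (D.s0 (D.s1 (D.s0 (D.s1 (D.s0 (D.s1 y))))))))) := by ring
    _ = z := by rw [this, add_zero]

theorem p01_comm (D : Datum) (p : D.R) :
    D.p0 (D.p1 (D.p0 (D.p1 p))) = D.p1 (D.p0 (D.p1 (D.p0 p))) := by
  have h := D.turn4_R p
  have h1 := congrArg (fun q => D.p1 (D.p0 (D.p1 (D.p0 q)))) h
  simpa only [p0_p0, p1_p1] using h1

/-- flags of the polyhedron: the flags of the unfolded structure at vertices of even colour -/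
abbrev X (D : Datum) : Type := {p : D.R // Even p.2}

theorem even_p1 (D : Datum) {p : D.R} (h : Even p.2) : Even (D.p1 p).2 := h.add (D.even1 _)
theorem even_p2 (D : Datum) {p : D.R} (h : Even p.2) : Even (D.p2 p).2 := h.add (D.even2 _)
theorem even_p010 (D : Datum) {p : D.R} (h : Even p.2) : Even (D.p0 (D.p1 (D.p0 p))).2 := by
  have h1 : Odd (D.p0 p).2 := h.add_odd (D.odd0 _)
  have h2 : Odd (D.p1 (D.p0 p)).2 := h1.add_even (D.even1 _)
  exact h2.add_odd (D.odd0 _)

/-- the flag system of the polyhedron of the datum `D`: its vertices (faces) are the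
vertices of even (odd) colour of the unfolded structure, its edges are the squares -/
def sys (D : Datum) : FlagSys where
  X := D.X
  r0 x := ⟨D.p0 (D.p1 (D.p0 x.1)), D.even_p010 x.2⟩
  r1 x := ⟨D.p2 x.1, D.even_p2 x.2⟩
  r2 x := ⟨D.p1 x.1, D.even_p1 x.2⟩
  inv0 x := by simp [p0_p0, p1_p1]
  inv1 x := by simp [p2_p2]
  inv2 x := by simp [p1_p1]
  comm x := Subtype.ext (D.p01_comm x.1)

/-- The unfolded structure is simple: no two of its edges have the same two ends. -/
def Simple (D : Datum) : Prop :=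
  ∀ p q : D.R, (orb D.p1 D.p2) p q → (orb D.p1 D.p2) (D.p0 p) (D.p0 q) → q = p ∨ q = D.p2 p

/-! ### The seven types of data -/

/-- number of vertices of the quotient surface -/
noncomputable def numV (D : Datum) : ℕ := nOrb D.s1 D.s2
/-- number of edges of the quotient surface (an edge that is folded at its midpoint or cut by a
mirror counts as one edge) -/
noncomputable def numE (D : Datum) : ℕ := nOrb D.s0 D.s2
/-- number of cells of the quotient surface -/
noncomputable def numF (D : Datum) : ℕ := nOrb D.s0 D.s1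

/-- the voltages live on the edges only -/
def Flat (D : Datum) : Prop := (∀ y, D.v1 y = 0) ∧ ∀ y, D.v2 y = 0

/-- all cells of the quotient are squares, or halves of squares cut by a mirror -/
def Squares (D : Datum) : Prop := ∀ y, D.turn (D.turn y) ≠ y

/-- no mirrors, i.e. the quotient surface has no boundary -/
def NoMirror (D : Datum) : Prop := ∀ y, D.s0 y ≠ y

/-- no edge is folded at its midpoint -/
def NoFold (D : Datum) : Prop := ∀ y, D.s0 (D.s2 y) ≠ y

/-- the quotient surface is orientable -/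
def Orientable (D : Datum) : Prop :=
  ∃ ε : D.Y → Bool, ∀ y, (D.s0 y ≠ y → ε (D.s0 y) = !ε y) ∧ ε (D.s1 y) = !ε y ∧
    ε (D.s2 y) = !ε y

/-- the graph of the quotient is bipartite (a folded or mirrored edge counts as an odd closed
walk) -/
def Bipartite (D : Datum) : Prop :=
  ∃ c : D.Y → Bool, ∀ y, c (D.s0 y) = !c y ∧ c (D.s1 y) = c y ∧ c (D.s2 y) = c y

/-- a closed edge walk of the quotient reverses the orientation if and only if it has odd length
(passing through a mirror counts as an orientation reversing step of length one) -/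
def Alternating (D : Datum) : Prop :=
  ∃ ε : D.Y → Bool, ∀ y, ε (D.s0 y) = ε y ∧ ε (D.s1 y) = !ε y ∧ ε (D.s2 y) = !ε y

/-- the vertex of the flag `y` is unbranched: its voltage monodromy is trivial -/
def Unbranched (D : Datum) (y : D.Y) : Prop :=
  ∀ z : ZMod (2 ^ D.k), (orb D.p1 D.p2) (y, 0) (y, z) → z = 0

/-- Type I: a torus divided into squares, whose graph is not bipartite, with odd voltages
(an odd cocycle) in a cyclic group of order `2 ^ k`. -/
def TypeI (D : Datum) : Prop :=
  D.Flat ∧ D.Squares ∧ D.NoMirror ∧ D.NoFold ∧ D.Orientable ∧ ¬ D.Bipartite ∧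
    D.numV + D.numF = D.numE

/-- Type II: a Klein bottle divided into squares, such that a closed edge walk has odd length if and
only if it reverses the orientation, with odd voltages in a cyclic group of order `2 ^ k`. -/
def TypeII (D : Datum) : Prop :=
  D.Flat ∧ D.Squares ∧ D.NoMirror ∧ D.NoFold ∧ ¬ D.Orientable ∧ D.Alternating ∧
    D.numV + D.numF = D.numE

/-- Type III: a sphere divided into squares, exactly four edges of which are folded at their
midpoints; `k = 1`. -/
def TypeIII (D : Datum) : Prop :=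
  D.k = 1 ∧ D.Flat ∧ D.Squares ∧ D.NoMirror ∧ D.Orientable ∧
    Nat.card {y : D.Y // D.s0 (D.s2 y) = y} = 8 ∧ D.numV + D.numF = (D.numE - 4) + 2

/-- Type IV: a sphere whose cells are squares, two monogons and one digon; `k = 2`. -/
def TypeIV (D : Datum) : Prop :=
  D.k = 2 ∧ D.Flat ∧ D.NoMirror ∧ D.NoFold ∧ D.Orientable ∧
    Nat.card {y : D.Y // D.turn y = y} = 4 ∧
    Nat.card {y : D.Y // D.turn y ≠ y ∧ D.turn (D.turn y) = y} = 4 ∧
    D.numV + D.numF = D.numE + 2

/-- Type V: a sphere whose cells are squares and two monogons, and exactly one branched vertex;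
`k = 2`. -/
def TypeV (D : Datum) : Prop :=
  D.k = 2 ∧ D.NoMirror ∧ D.NoFold ∧ D.Orientable ∧
    Nat.card {y : D.Y // D.turn y = y} = 4 ∧
    (∀ y, D.turn (D.turn y) = y → D.turn y = y) ∧
    (∃ y₀, ∀ y, ¬ D.Unbranched y ↔ (orb D.s1 D.s2) y₀ y) ∧
    D.numV + D.numF = D.numE + 2

/-- Type VI: an annulus (orientable, Euler characteristic `0`, non-empty boundary) divided into
squares and half squares; `k = 1`. -/
def TypeVI (D : Datum) : Prop :=
  D.k = 1 ∧ D.Flat ∧ D.Squares ∧ ¬ D.NoMirror ∧ D.NoFold ∧ D.Orientable ∧ D.Alternating ∧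
    D.numV + D.numF = D.numE

/-- Type VII: a Moebius band divided into squares and half squares; `k = 1`. -/
def TypeVII (D : Datum) : Prop :=
  D.k = 1 ∧ D.Flat ∧ D.Squares ∧ ¬ D.NoMirror ∧ D.NoFold ∧ ¬ D.Orientable ∧ D.Alternating ∧
    D.numV + D.numF = D.numE

/-- `D` is of one of the seven types. -/
def Admissible (D : Datum) : Prop :=
  D.TypeI ∨ D.TypeII ∨ D.TypeIII ∨ D.TypeIV ∨ D.TypeV ∨ D.TypeVI ∨ D.TypeVII

end Datum

end Pool.Agent.SDT
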