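import Pool.Agent.SDT.MkDatum

/-! From a self-dual polyhedron to a datum. -/

namespace Pool.Agent.SDT
open Relation

theorem eqvGen_map {A B : Type} {r : A → A → Prop} {r' : B → B → Prop} (f : A → B)
    (h : ∀ a b, r a b → r' (f a) (f b)) {a b : A} (hab : EqvGen r a b) :
    EqvGen r' (f a) (f b) := by
  induction hab with
  | rel a b hab => exact EqvGen.rel _ _ (h a b hab)
  | refl a => exact EqvGen.refl _
  | symm a b _ ih => exact EqvGen.symm _ _ ih
  | trans a b c _ _ ih1 ih2 => exact EqvGen.trans _ _ _ ih1 ih2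

theorem orb_map {A B : Type} {f g : A → A} {f' g' : B → B} (e : A → B)
    (hf : ∀ a, e (f a) = f' (e a)) (hg : ∀ a, e (g a) = g' (e a)) {a a' : A}
    (h : (orb f g) a a') : (orb f' g') (e a) (e a') := by
  refine eqvGen_map e ?_ h
  rintro a b (rfl | rfl)
  · exact Or.inl (hf a)
  · exact Or.inr (hg a)

/-- orbits on a doubled set -/
theorem nOrb_double {A : Type} [Finite A] (f g h : A → A) :
    nOrb (fun p : A × Bool => if p.2 then (f p.1, p.2) else (g p.1, p.2))
      (fun p : A × Bool => (h p.1, p.2)) = nOrb g h + nOrb f h := by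
  rw [nOrb, nOrb, nOrb, ← Nat.card_sum]
  refine Nat.card_congr
    { toFun := Quotient.lift (fun p : A × Bool => if p.2 then
        (Sum.inr (Quotient.mk (orb f h) p.1) : Quotient (orb g h) ⊕ Quotient (orb f h))
        else Sum.inl (Quotient.mk (orb g h) p.1)) ?_
      invFun := Sum.elim (Quotient.map (fun a => (a, false)) ?_)
        (Quotient.map (fun a => (a, true)) ?_)
      left_inv := ?_
      right_inv := ?_ }
  · intro p q hpq
    change (orb _ _) p q at hpq
    refine conn_const (fun p : A × Bool => if p.2 then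
        (Sum.inr (Quotient.mk (orb f h) p.1) : Quotient (orb g h) ⊕ Quotient (orb f h))
        else Sum.inl (Quotient.mk (orb g h) p.1)) ?_ hpq
    rintro ⟨a, c⟩ q (rfl | rfl)
    · rcases c with _ | _
      · simp only [Bool.false_eq_true, if_false]
        congr 1
        exact mk_eq.2 (orb_left a)
      · simp only [if_true]
        congr 1
        exact mk_eq.2 (orb_left a)
    · rcases c with _ | _
      · simp only [Bool.false_eq_true, if_false]
        congr 1
        exact mk_eq.2 (orb_right a)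
      · simp only [if_true]
        congr 1
        exact mk_eq.2 (orb_right a)
  · intro a a' haa
    exact orb_map (fun a => (a, false)) (fun a => by simp) (fun a => rfl) haa
  · intro a a' haa
    exact orb_map (fun a => (a, true)) (fun a => by simp) (fun a => rfl) haa
  · intro q
    induction q using Quotient.inductionOn with
    | h p =>
      obtain ⟨a, c⟩ := p
      rcases c with _ | _ <;> rfl
  · rintro (q | q) <;> induction q using Quotient.inductionOn <;> rfl

theorem exists_datum {S : FlagSys} (h : Polytopal S) (hf : Finite S.X)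
    (ho : ∃ ε : S.X → Bool, ∀ x, ε (S.r0 x) = !ε x ∧ ε (S.r1 x) = !ε x ∧ ε (S.r2 x) = !ε x)
    (he : nOrb S.r1 S.r2 + nOrb S.r0 S.r1 = nOrb S.r0 S.r2)
    (δ : S.X → S.X) (hb : Function.Bijective δ) (h0 : ∀ x, δ (S.r0 x) = S.r2 (δ x))
    (h1 : ∀ x, δ (S.r1 x) = S.r1 (δ x)) (h2 : ∀ x, δ (S.r2 x) = S.r0 (δ x)) :
    ∃ D : Datum, D.Toral ∧ D.Simple ∧ ∃ e : S.X ≃ D.sys.X, (∀ x, e (S.r0 x) = D.sys.r0 (e x)) ∧
      (∀ x, e (S.r1 x) = D.sys.r1 (e x)) ∧ (∀ x, e (S.r2 x) = D.sys.r2 (e x)) := by
  obtain ⟨ε, hε⟩ := ho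
  have hne := h.nonempty
  let X : Type := S.X × Bool
  let s0 : X → X := fun p => (p.1, !p.2)
  let s1 : X → X := fun p => if p.2 then (S.r0 p.1, p.2) else (S.r2 p.1, p.2)
  let s2 : X → X := fun p => (S.r1 p.1, p.2)
  let a : Equiv.Perm X := Equiv.ofBijective (fun p => (δ p.1, !p.2)) (by
    constructor
    · rintro ⟨x, c⟩ ⟨x', c'⟩ e
      have e1 : δ x = δ x' := congrArg Prod.fst e
      have e2 : (!c) = !c' := congrArg Prod.snd e
      rw [hb.1 e1]
      have : c = c' := by rcases c <;> rcases c' <;> simp_all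
      rw [this]
    · rintro ⟨x, c⟩
      obtain ⟨y, rfl⟩ := hb.2 x
      exact ⟨(y, !c), by simp⟩)
  have ha : ∀ x c, a (x, c) = (δ x, !c) := fun x c => rfl
  have e0 : ∀ x c, s0 (x, c) = (x, !c) := fun x c => rfl
  have e1f : ∀ x, s1 (x, false) = (S.r2 x, false) := fun x => rfl
  have e1t : ∀ x, s1 (x, true) = (S.r0 x, true) := fun x => rfl
  have e2 : ∀ x c, s2 (x, c) = (S.r1 x, c) := fun x c => rfl
  have i0 : ∀ p, s0 (s0 p) = p := by rintro ⟨x, c⟩; simp [s0]
  have i1 : ∀ p, s1 (s1 p) = p := by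
    rintro ⟨x, c⟩
    rcases c with _ | _
    · rw [e1f, e1f, S.inv2]
    · rw [e1t, e1t, S.inv0]
  have i2 : ∀ p, s2 (s2 p) = p := by rintro ⟨x, c⟩; simp [s2, S.inv1]
  -- connectedness
  have link0 : ∀ x c c', EqvGen (fun a b => b = s0 a ∨ b = s1 a ∨ b = s2 a) (x, c) (x, c') := by
    intro x c c'
    by_cases hc : c = c'
    · rw [hc]; exact EqvGen.refl _
    · refine EqvGen.rel _ _ (Or.inl ?_)
      rw [e0]
      congr 1
      rcases c <;> rcases c' <;> simp_all
  have conn : ∀ p q, EqvGen (fun a b => b = s0 a ∨ b = s1 a ∨ b = s2 a) p q := by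
    have key : ∀ x x', EqvGen (fun a b => b = S.r0 a ∨ b = S.r1 a ∨ b = S.r2 a) x x' →
        EqvGen (fun a b => b = s0 a ∨ b = s1 a ∨ b = s2 a) (x, false) (x', false) := by
      intro x x' hx
      induction hx with
      | rel u v huv =>
        rcases huv with rfl | rfl | rfl
        · refine EqvGen.trans _ _ _ (link0 u false true) ?_
          refine EqvGen.trans _ (S.r0 u, true) _ ?_ (link0 _ true false)
          exact EqvGen.rel _ _ (Or.inr (Or.inl (e1t u).symm))
        · exact EqvGen.rel _ _ (Or.inr (Or.inr (e2 u false).symm))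
        · exact EqvGen.rel _ _ (Or.inr (Or.inl (e1f u).symm))
      | refl u => exact EqvGen.refl _
      | symm u v _ ih => exact EqvGen.symm _ _ ih
      | trans u v w _ _ ih1 ih2 => exact EqvGen.trans _ _ _ ih1 ih2
    rintro ⟨x, c⟩ ⟨x', c'⟩
    exact EqvGen.trans _ _ _ (link0 x c false) (EqvGen.trans _ _ _ (key x x' (h.conn x x'))
      (link0 x' false c'))
  have c0 : ∀ p, s0 (a p) = a (s0 p) := by rintro ⟨x, c⟩; rw [ha, e0, e0, ha]
  have c1 : ∀ p, s1 (a p) = a (s1 p) := by
    rintro ⟨x, c⟩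
    rcases c with _ | _
    · rw [ha, e1f, ha, h2]; rfl
    · rw [ha, e1t, ha, h0]; rfl
  have c2 : ∀ p, s2 (a p) = a (s2 p) := by rintro ⟨x, c⟩; rw [ha, e2, e2, ha, h1]
  have hX : Nonempty X := ⟨(Classical.arbitrary _, false)⟩
  obtain ⟨k, hk, Y, Θ, b, hb1, hb2, hb3, hb4, hb5, hb6⟩ := exists_cover s0 s1 s2 i0 i1 i2 conn a
    c0 c1 c2 Prod.snd (by rintro ⟨x, c⟩; rfl)
  have hr02 : ∀ x, S.r0 (S.r2 x) ≠ x := by
    intro x hx
    apply h.noloop0 x
    have : S.r2 x = S.r0 x := by
      have := congrArg S.r0 hx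
      rwa [S.inv0] at this
    rw [← this]
    exact orb_right _
  have hcd : CoverData Θ b s0 s1 s2 Prod.snd (fun p => xor (ε p.1) p.2) :=
    { hk := hk
      finite := inferInstance
      nonempty := hX
      hb := hb1
      c0 := hb2
      c1 := hb3
      c2 := hb4
      colb := hb5
      colz := hb6
      i0 := i0
      i1 := i1
      i2 := i2
      comm := by rintro ⟨x, c⟩; rfl
      turn4 := by
        rintro ⟨x, c⟩
        rcases c with _ | _
        · simp only [e0, e1f, e1t, Bool.not_false, Bool.not_true]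
          rw [S.comm (S.r2 x) |>.symm]
          simp [S.inv0, S.inv2, S.comm]
        · simp only [e0, e1f, e1t, Bool.not_false, Bool.not_true]
          simp [S.inv0, S.inv2, S.comm]
      turn2 := by
        rintro ⟨x, c⟩
        rcases c with _ | _
        · simp only [e0, e1f, e1t, Bool.not_false, Bool.not_true]
          intro e
          exact hr02 x (congrArg Prod.fst e)
        · simp only [e0, e1f, e1t, Bool.not_false, Bool.not_true]
          intro e
          exact hr02 x (by rw [S.comm]; exact congrArg Prod.fst e)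
      col0 := by rintro ⟨x, c⟩; rfl
      col1 := by rintro ⟨x, c⟩; rcases c <;> rfl
      col2 := by rintro ⟨x, c⟩; rfl
      or0 := by rintro ⟨x, c⟩; simp [e0]
      or1 := by rintro ⟨x, c⟩; rcases c <;> simp [e1f, e1t, hε]
      or2 := by rintro ⟨x, c⟩; simp [e2, hε]
      conn := conn }
  obtain ⟨D, Φ, p0, p1, p2, pe⟩ := hcd.exists_datum
  refine ⟨D, ⟨?_, ?_, ?_⟩, ?_, ?_⟩
  · intro p q
    have := eqvGen_map Φ.symm (r' := fun a b => b = D.p0 a ∨ b = D.p1 a ∨ b = D.p2 a)
      (r := fun a b => b = s0 a ∨ b = s1 a ∨ b = s2 a) (by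
        rintro u v (rfl | rfl | rfl)
        · left; rw [Equiv.symm_apply_eq, p0, Equiv.apply_symm_apply]
        · right; left; rw [Equiv.symm_apply_eq, p1, Equiv.apply_symm_apply]
        · right; right; rw [Equiv.symm_apply_eq, p2, Equiv.apply_symm_apply])
      (conn (Φ p) (Φ q))
    simpa using this
  · refine ⟨fun p => xor (ε (Φ p).1) (Φ p).2, fun p => ⟨?_, ?_, ?_⟩⟩
    · show (ε (Φ (D.p0 p)).1 ^^ (Φ (D.p0 p)).2) = _
      rw [p0]; exact hcd.or0 _
    · show (ε (Φ (D.p1 p)).1 ^^ (Φ (D.p1 p)).2) = _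
      rw [p1]; exact hcd.or1 _
    · show (ε (Φ (D.p2 p)).1 ^^ (Φ (D.p2 p)).2) = _
      rw [p2]; exact hcd.or2 _
  · have h3 : nOrb D.p1 D.p2 = nOrb s1 s2 := nOrb_congr Φ p1 p2
    have h4 : nOrb s1 s2 = nOrb S.r2 S.r1 + nOrb S.r0 S.r1 := nOrb_double S.r0 S.r2 S.r1
    have h5 := edge_count S.r0 S.r2 S.inv0 S.inv2 S.comm
    have z1 : Nat.card {y // S.r0 (S.r2 y) = y} = 0 := by
      rw [Nat.card_eq_zero]; exact Or.inl ⟨fun y => hr02 y.1 y.2⟩
    have z2 : Nat.card {y // S.r2 y = y} = 0 := by
      rw [Nat.card_eq_zero]; left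
      exact ⟨fun y => h.noloop2 y.1 (y.2.symm ▸ orb_refl _)⟩
    have z3 : Nat.card {y // S.r0 y = y} = 0 := by
      rw [Nat.card_eq_zero]; left
      exact ⟨fun y => h.noloop0 y.1 (y.2.symm ▸ orb_refl _)⟩
    have h6 : Nat.card D.R = 2 * Nat.card S.X := by
      rw [Nat.card_congr Φ]
      change Nat.card (S.X × Bool) = _
      rw [Nat.card_prod]
      simp [mul_comm]
    rw [h3, h4, nOrb_comm S.r2 S.r1, he, h6]
    omega
  · -- simple
    have key : ∀ p q : X, (orb s1 s2) p q → (orb s1 s2) (s0 p) (s0 q) → q = p ∨ q = s2 p := by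
      have hsnd : ∀ p q : X, (orb s1 s2) p q → p.2 = q.2 := by
        intro p q hpq
        refine conn_const (fun p : X => p.2) ?_ hpq
        rintro ⟨x, c⟩ _ (rfl | rfl)
        · rcases c <;> rfl
        · rfl
      have hfst : ∀ p q : X, (orb s1 s2) p q → (p.2 = true → (orb S.r0 S.r1) p.1 q.1) ∧
          (p.2 = false → (orb S.r1 S.r2) p.1 q.1) := by
        intro p q hpq
        change EqvGen _ p q at hpq
        induction hpq with
        | rel u v huv =>
          obtain ⟨x, c⟩ := u
          rcases huv with rfl | rfl <;> rcases c with _ | _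
          · exact ⟨fun h => by simp at h, fun _ => orb_right _⟩
          · exact ⟨fun _ => orb_left _, fun h => by simp at h⟩
          · exact ⟨fun h => by simp at h, fun _ => orb_left _⟩
          · exact ⟨fun _ => orb_right _, fun h => by simp at h⟩
        | refl u => exact ⟨fun _ => orb_refl _, fun _ => orb_refl _⟩
        | symm u v huv ih =>
          have := hsnd u v huv
          exact ⟨fun h => orb_symm (ih.1 (this.trans h)), fun h => orb_symm (ih.2 (this.trans h))⟩
        | trans u v w huv _ ih1 ih2 =>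
          have := hsnd u v huv
          exact ⟨fun h => orb_trans (ih1.1 h) (ih2.1 (this.symm.trans h)),
            fun h => orb_trans (ih1.2 h) (ih2.2 (this.symm.trans h))⟩
      rintro ⟨x, c⟩ ⟨x', c'⟩ hpq hpq'
      have hc : c = c' := hsnd _ _ hpq
      subst hc
      have hm : x' = x ∨ x' = S.r1 x := by
        rcases c with _ | _
        · exact h.meet x x' ((hfst _ _ hpq).2 rfl) ((hfst _ _ hpq').1 rfl)
        · exact h.meet x x' ((hfst _ _ hpq').2 rfl) ((hfst _ _ hpq).1 rfl)
      rcases hm with rfl | rfl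
      · exact Or.inl rfl
      · exact Or.inr rfl
    intro p q hpq hpq'
    have k1 : (orb s1 s2) (Φ p) (Φ q) := orb_map Φ p1 p2 hpq
    have k2 : (orb s1 s2) (s0 (Φ p)) (s0 (Φ q)) := by
      rw [← p0, ← p0]; exact orb_map Φ p1 p2 hpq'
    rcases key _ _ k1 k2 with e | e
    · exact Or.inl (Φ.injective e)
    · right
      rw [← p2] at e
      exact Φ.injective e
  · -- the isomorphism
    let e : S.X ≃ D.sys.X :=
      { toFun := fun x => ⟨Φ.symm (x, false), (pe _).1 (by simp)⟩
        invFun := fun p => (Φ p.1).1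
        left_inv := fun x => by simp
        right_inv := fun p => by
          apply Subtype.ext
          simp only
          rw [Equiv.symm_apply_eq]
          have := (pe p.1).2 p.2
          exact Prod.ext rfl this.symm }
    refine ⟨e, ?_, ?_, ?_⟩
    · intro x
      apply Subtype.ext
      change Φ.symm (S.r0 x, false) = D.p0 (D.p1 (D.p0 (Φ.symm (x, false))))
      rw [Equiv.symm_apply_eq, p0, p1, p0, Equiv.apply_symm_apply]
      rfl
    · intro x
      apply Subtype.ext
      change Φ.symm (S.r1 x, false) = D.p2 (Φ.symm (x, false))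
      rw [Equiv.symm_apply_eq, p2, Equiv.apply_symm_apply]
    · intro x
      apply Subtype.ext
      change Φ.symm (S.r2 x, false) = D.p1 (Φ.symm (x, false))
      rw [Equiv.symm_apply_eq, p1, Equiv.apply_symm_apply]
      rfl

end Pool.Agent.SDT
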