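import Pool.Agent.SDT.FromDual

/-! Change of the lifts (gauge transformations) of a datum. -/

namespace Pool.Agent.SDT
open Relation

namespace Datum

/-- an isomorphism of the unfolded structures of two data preserving the colours -/
structure RIso (D D' : Datum) (G : D.R ≃ D'.R) : Prop where
  g0 : ∀ p, G (D.p0 p) = D'.p0 (G p)
  g1 : ∀ p, G (D.p1 p) = D'.p1 (G p)
  g2 : ∀ p, G (D.p2 p) = D'.p2 (G p)
  even : ∀ p, Even (G p).2 ↔ Even p.2

theorem RIso.symm {D D' : Datum} {G : D.R ≃ D'.R} (h : RIso D D' G) : RIso D' D G.symm where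
  g0 p := by rw [Equiv.symm_apply_eq, h.g0, Equiv.apply_symm_apply]
  g1 p := by rw [Equiv.symm_apply_eq, h.g1, Equiv.apply_symm_apply]
  g2 p := by rw [Equiv.symm_apply_eq, h.g2, Equiv.apply_symm_apply]
  even p := by rw [← h.even, Equiv.apply_symm_apply]

theorem RIso.simple {D D' : Datum} {G : D.R ≃ D'.R} (h : RIso D D' G) (hs : D.Simple) :
    D'.Simple := by
  intro p q hpq hpq'
  have k1 : (orb D.p1 D.p2) (G.symm p) (G.symm q) := orb_map G.symm h.symm.g1 h.symm.g2 hpq
  have k2 : (orb D.p1 D.p2) (D.p0 (G.symm p)) (D.p0 (G.symm q)) := by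
    rw [← h.symm.g0, ← h.symm.g0]
    exact orb_map G.symm h.symm.g1 h.symm.g2 hpq'
  rcases hs _ _ k1 k2 with e | e
  · exact Or.inl (G.symm.injective e)
  · right
    rw [← h.symm.g2] at e
    exact G.symm.injective e

theorem RIso.toral {D D' : Datum} {G : D.R ≃ D'.R} (h : RIso D D' G) (ht : D.Toral) :
    D'.Toral := by
  refine ⟨?_, ?_, ?_⟩
  · intro p q
    have := eqvGen_map G (r' := fun a b => b = D'.p0 a ∨ b = D'.p1 a ∨ b = D'.p2 a) (by
      rintro u v (rfl | rfl | rfl)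
      · exact Or.inl (h.g0 u)
      · exact Or.inr (Or.inl (h.g1 u))
      · exact Or.inr (Or.inr (h.g2 u))) (ht.conn (G.symm p) (G.symm q))
    simpa using this
  · obtain ⟨ε, hε⟩ := ht.orient
    refine ⟨fun p => ε (G.symm p), fun p => ⟨?_, ?_, ?_⟩⟩
    · change ε (G.symm (D'.p0 p)) = !ε (G.symm p)
      rw [h.symm.g0]; exact (hε _).1
    · change ε (G.symm (D'.p1 p)) = !ε (G.symm p)
      rw [h.symm.g1]; exact (hε _).2.1
    · change ε (G.symm (D'.p2 p)) = !ε (G.symm p)
      rw [h.symm.g2]; exact (hε _).2.2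
  · rw [← nOrb_congr G h.g1 h.g2, ht.torus, Nat.card_congr G]

theorem RIso.sys {D D' : Datum} {G : D.R ≃ D'.R} (h : RIso D D' G) :
    ∃ e : D.sys.X ≃ D'.sys.X, (∀ x, e (D.sys.r0 x) = D'.sys.r0 (e x)) ∧
      (∀ x, e (D.sys.r1 x) = D'.sys.r1 (e x)) ∧ (∀ x, e (D.sys.r2 x) = D'.sys.r2 (e x)) := by
  let e : D.sys.X ≃ D'.sys.X := Equiv.subtypeEquiv G (fun p => (h.even p).symm)
  have he : ∀ x : D.sys.X, (e x).1 = G x.1 := fun x => rfl
  refine ⟨e, ?_, ?_, ?_⟩
  · intro x
    apply Subtype.ext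
    change G (D.p0 (D.p1 (D.p0 x.1))) = D'.p0 (D'.p1 (D'.p0 (G x.1)))
    rw [h.g0, h.g1, h.g0]
  · intro x
    apply Subtype.ext
    exact h.g2 _
  · intro x
    apply Subtype.ext
    exact h.g1 _

/-- change of the lifts -/
def gauge (D : Datum) (h : D.Y → ZMod (2 ^ D.k)) (hh : ∀ y, Even (h y)) : Datum where
  Y := D.Y
  finite := D.finite
  nonempty := D.nonempty
  k := D.k
  hk := D.hk
  s0 := D.s0
  s1 := D.s1
  s2 := D.s2
  v0 y := D.v0 y + h (D.s0 y) - h y
  v1 y := D.v1 y + h (D.s1 y) - h y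
  v2 y := D.v2 y + h (D.s2 y) - h y
  inv0 := D.inv0
  inv1 := D.inv1
  inv2 := D.inv2
  free1 := D.free1
  free2 := D.free2
  comm := D.comm
  conn := D.conn
  vinv0 y := by rw [D.inv0]; linear_combination D.vinv0 y
  vinv1 y := by rw [D.inv1]; linear_combination D.vinv1 y
  vinv2 y := by rw [D.inv2]; linear_combination D.vinv2 y
  vcomm y := by rw [D.comm]; linear_combination D.vcomm y
  odd0 y := by
    rw [odd_iff_par D.hk, map_sub, map_add, (even_iff_par D.hk).1 (hh y),
      (even_iff_par D.hk).1 (hh _), (odd_iff_par D.hk).1 (D.odd0 y)]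
    simp
  even1 y := by
    rw [even_iff_par D.hk, map_sub, map_add, (even_iff_par D.hk).1 (hh y),
      (even_iff_par D.hk).1 (hh _), (even_iff_par D.hk).1 (D.even1 y)]
    simp
  even2 y := by
    rw [even_iff_par D.hk, map_sub, map_add, (even_iff_par D.hk).1 (hh y),
      (even_iff_par D.hk).1 (hh _), (even_iff_par D.hk).1 (D.even2 y)]
    simp
  turn4 := D.turn4
  vturn4 y := by
    rw [D.turn4 y]
    linear_combination D.vturn4 y
  turn2 y hy := by
    have := D.turn2 y hy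
    intro e
    apply this
    rw [hy] at e
    linear_combination e

theorem gauge_iso (D : Datum) (h : D.Y → ZMod (2 ^ D.k)) (hh : ∀ y, Even (h y)) :
    ∃ G : D.R ≃ (D.gauge h hh).R, RIso D (D.gauge h hh) G := by
  let G : D.R ≃ D.Y × ZMod (2 ^ D.k) :=
    { toFun := fun p => (p.1, p.2 + h p.1)
      invFun := fun p => (p.1, p.2 - h p.1)
      left_inv := fun p => by simp
      right_inv := fun p => by simp }
  refine ⟨(G : D.R ≃ (D.gauge h hh).R), ?_, ?_, ?_, ?_⟩
  · rintro ⟨y, z⟩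
    change (D.s0 y, z + D.v0 y + h (D.s0 y)) = (D.s0 y, z + h y + (D.v0 y + h (D.s0 y) - h y))
    congr 1; ring
  · rintro ⟨y, z⟩
    change (D.s1 y, z + D.v1 y + h (D.s1 y)) = (D.s1 y, z + h y + (D.v1 y + h (D.s1 y) - h y))
    congr 1; ring
  · rintro ⟨y, z⟩
    change (D.s2 y, z + D.v2 y + h (D.s2 y)) = (D.s2 y, z + h y + (D.v2 y + h (D.s2 y) - h y))
    congr 1; ring
  · rintro ⟨y, z⟩
    change Even (z + h y) ↔ Even z
    rw [even_iff_par D.hk, even_iff_par D.hk, map_add, (even_iff_par D.hk).1 (hh y), add_zero]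

/-- the parity of the voltage is constant along vertices of the unfolded structure -/
theorem par_vertex (D : Datum) {p q : D.R} (h : (orb D.p1 D.p2) p q) :
    par D.hk p.2 = par D.hk q.2 := by
  refine conn_const (fun p : D.R => par D.hk p.2) ?_ h
  rintro ⟨y, z⟩ _ (rfl | rfl)
  · change par D.hk z = par D.hk (z + D.v1 y)
    rw [map_add, (even_iff_par D.hk).1 (D.even1 y), add_zero]
  · change par D.hk z = par D.hk (z + D.v2 y)
    rw [map_add, (even_iff_par D.hk).1 (D.even2 y), add_zero]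

theorem orb_transl (D : Datum) (c : ZMod (2 ^ D.k)) {p q : D.R} (h : (orb D.p1 D.p2) p q) :
    (orb D.p1 D.p2) (p.1, p.2 + c) (q.1, q.2 + c) := by
  refine orb_map (fun p : D.R => (p.1, p.2 + c)) ?_ ?_ h
  · rintro ⟨y, z⟩
    simp only [p1, Prod.mk.injEq, true_and]; ring
  · rintro ⟨y, z⟩
    simp only [p2, Prod.mk.injEq, true_and]; ring

theorem orb_lift (D : Datum) {y y' : D.Y} (h : (orb D.s1 D.s2) y y') (z : ZMod (2 ^ D.k)) :
    ∃ z', (orb D.p1 D.p2) (y, z) (y', z') := by
  change EqvGen _ y y' at h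
  induction h generalizing z with
  | rel a b hab =>
    rcases hab with rfl | rfl
    · exact ⟨_, orb_left (a, z)⟩
    · exact ⟨_, orb_right (a, z)⟩
  | refl a => exact ⟨z, orb_refl _⟩
  | symm a b _ ih =>
    obtain ⟨w, hw⟩ := ih z
    refine ⟨z + (z - w), orb_symm ?_⟩
    have := D.orb_transl (z - w) hw
    simpa using this
  | trans a b c _ _ ih1 ih2 =>
    obtain ⟨w, hw⟩ := ih1 z
    obtain ⟨u, hu⟩ := ih2 w
    exact ⟨u, orb_trans hw hu⟩

theorem orb_proj (D : Datum) {p q : D.R} (h : (orb D.p1 D.p2) p q) :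
    (orb D.s1 D.s2) p.1 q.1 :=
  orb_map (fun p : D.R => p.1) (fun _ => rfl) (fun _ => rfl) h

/-- an unbranched datum can be made flat -/
theorem exists_flat (D : Datum) (hu : ∀ y, D.Unbranched y) :
    ∃ (h : D.Y → ZMod (2 ^ D.k)) (hh : ∀ y, Even (h y)), (D.gauge h hh).Flat := by
  classical
  let rep : D.Y → D.Y := fun y => Quotient.out (Quotient.mk (orb D.s1 D.s2) y)
  have hrep : ∀ y, (orb D.s1 D.s2) (rep y) y := fun y =>
    mk_eq.1 (Quotient.out_eq (Quotient.mk (orb D.s1 D.s2) y))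
  have hrep' : ∀ y y', (orb D.s1 D.s2) y y' → rep y = rep y' := fun y y' h => by
    change Quotient.out _ = Quotient.out _
    rw [mk_eq.2 h]
  choose z hz using fun y => D.orb_lift (hrep y) 0
  have huniq : ∀ y w, (orb D.p1 D.p2) (rep y, 0) (y, w) → w = z y := by
    intro y w hw
    have h1 := orb_trans (orb_symm (hz y)) hw
    have h2 := D.orb_transl (-(z y)) h1
    simp only [add_neg_cancel] at h2
    have h3 := hu y _ h2
    linear_combination h3
  have heven : ∀ y, Even (z y) := by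
    intro y
    have := D.par_vertex (hz y)
    rw [map_zero] at this
    exact (even_iff_par D.hk).2 this.symm
  have hstep1 : ∀ y, z (D.s1 y) = z y + D.v1 y := by
    intro y
    symm
    apply huniq
    rw [← hrep' y (D.s1 y) (orb_left y)]
    exact orb_trans (hz y) (orb_left (y, z y))
  have hstep2 : ∀ y, z (D.s2 y) = z y + D.v2 y := by
    intro y
    symm
    apply huniq
    rw [← hrep' y (D.s2 y) (orb_right y)]
    exact orb_trans (hz y) (orb_right (y, z y))
  refine ⟨fun y => -(z y), fun y => ?_, ?_, ?_⟩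
  · rw [even_iff_par D.hk, map_neg, (even_iff_par D.hk).1 (heven y), neg_zero]
  · intro (y : D.Y)
    change D.v1 y + -(z (D.s1 y)) - -(z y) = 0
    rw [hstep1]; ring
  · intro (y : D.Y)
    change D.v2 y + -(z (D.s2 y)) - -(z y) = 0
    rw [hstep2]; ring

end Datum

end Pool.Agent.SDT
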