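import Pool.Agent.SDT.Gauge

/-! Vertices of intermediate coverings. -/

namespace Pool.Agent.SDT
open Relation

section Level
variable {Y A B : Type} [AddCommGroup A] [AddCommGroup B]

/-- flags with voltages in `A` -/
def PP (s : Y → Y) (u : Y → A) (p : Y × A) : Y × A := (s p.1, p.2 + u p.1)

theorem PP_transl {s1 s2 : Y → Y} {u1 u2 : Y → A} (c : A) {p q : Y × A}
    (h : (orb (PP s1 u1) (PP s2 u2)) p q) :
    (orb (PP s1 u1) (PP s2 u2)) (p.1, p.2 + c) (q.1, q.2 + c) := by
  refine orb_map (fun p : Y × A => (p.1, p.2 + c)) ?_ ?_ h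
  · rintro ⟨y, z⟩
    simp only [PP, Prod.mk.injEq, true_and]; abel
  · rintro ⟨y, z⟩
    simp only [PP, Prod.mk.injEq, true_and]; abel

/-- translation on the vertices -/
def trV (s1 s2 : Y → Y) (u1 u2 : Y → A) (c : A) :
    Quotient (orb (PP s1 u1) (PP s2 u2)) → Quotient (orb (PP s1 u1) (PP s2 u2)) :=
  Quotient.map (fun p => (p.1, p.2 + c)) (fun _ _ h => PP_transl c h)

theorem trV_mk (s1 s2 : Y → Y) (u1 u2 : Y → A) (c : A) (p : Y × A) :
    trV s1 s2 u1 u2 c (Quotient.mk _ p) = Quotient.mk _ (p.1, p.2 + c) := rfl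

theorem trV_add (s1 s2 : Y → Y) (u1 u2 : Y → A) (c d : A)
    (C : Quotient (orb (PP s1 u1) (PP s2 u2))) :
    trV s1 s2 u1 u2 c (trV s1 s2 u1 u2 d C) = trV s1 s2 u1 u2 (d + c) C := by
  induction C using Quotient.inductionOn with
  | h p => rw [trV_mk, trV_mk, trV_mk, add_assoc]

theorem trV_zero (s1 s2 : Y → Y) (u1 u2 : Y → A)
    (C : Quotient (orb (PP s1 u1) (PP s2 u2))) : trV s1 s2 u1 u2 0 C = C := by
  induction C using Quotient.inductionOn with
  | h p => rw [trV_mk, add_zero]

theorem level_lift {s1 s2 : Y → Y} {u1 u2 : Y → A} (π : A →+ B) (hπ : Function.Surjective π)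
    {x x' : Y × B}
    (h : (orb (PP s1 (fun y => π (u1 y))) (PP s2 (fun y => π (u2 y)))) x x') :
    ∀ a, π a = x.2 → ∃ a', π a' = x'.2 ∧ (orb (PP s1 u1) (PP s2 u2)) (x.1, a) (x'.1, a') := by
  change EqvGen _ x x' at h
  induction h with
  | rel u v huv =>
    intro a ha
    rcases huv with rfl | rfl
    · refine ⟨a + u1 u.1, ?_, orb_left (f := PP s1 u1) (u.1, a)⟩
      rw [map_add, ha]; rfl
    · refine ⟨a + u2 u.1, ?_, orb_right (g := PP s2 u2) (u.1, a)⟩
      rw [map_add, ha]; rfl
  | refl u => intro a ha; exact ⟨a, ha, orb_refl _⟩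
  | symm u v _ ih =>
    intro a ha
    obtain ⟨b, hb⟩ := hπ u.2
    obtain ⟨a', ha', h'⟩ := ih b hb
    refine ⟨b + (a - a'), ?_, ?_⟩
    · rw [map_add, map_sub, hb, ha, ha', sub_self, add_zero]
    · have := PP_transl (a - a') h'
      simp only [add_sub_cancel] at this
      exact orb_symm this
  | trans u v w _ _ ih1 ih2 =>
    intro a ha
    obtain ⟨b, hb, h1⟩ := ih1 a ha
    obtain ⟨c, hc, h2⟩ := ih2 b hb
    exact ⟨c, hc, orb_trans h1 h2⟩

theorem level_count [Finite Y] [Finite A] (s1 s2 : Y → Y) (u1 u2 : Y → A) (π : A →+ B)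
    (hπ : Function.Surjective π) (c : A) (hc : ∀ a, π a = 0 ↔ a = 0 ∨ a = c) :
    2 * nOrb (PP s1 (fun y => π (u1 y))) (PP s2 (fun y => π (u2 y))) =
      nOrb (PP s1 u1) (PP s2 u2) +
        Nat.card {C : Quotient (orb (PP s1 u1) (PP s2 u2)) // trV s1 s2 u1 u2 c C = C} := by
  have hcc : c + c = 0 := by
    have h1 : π c = 0 := (hc c).2 (Or.inr rfl)
    rcases (hc (c + c)).1 (by rw [map_add, h1, add_zero]) with h | h
    · exact h
    · have : c = 0 := by simpa using h
      rw [this, add_zero]
  refine involution_count (trV s1 s2 u1 u2 c) ?_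
    (Quotient.map (fun p : Y × A => (p.1, π p.2)) ?_) ?_ ?_
  · intro C
    rw [trV_add, hcc, trV_zero]
  · intro p q hpq
    refine orb_map (fun p : Y × A => (p.1, π p.2)) ?_ ?_ hpq
    · rintro ⟨y, z⟩
      simp [PP]
    · rintro ⟨y, z⟩
      simp [PP]
  · intro C
    induction C using Quotient.inductionOn with
    | h p =>
      obtain ⟨a, ha⟩ := hπ p.2
      refine ⟨Quotient.mk _ (p.1, a), ?_⟩
      rw [Quotient.map_mk]
      simp [ha]
  · intro C C'
    induction C using Quotient.inductionOn with
    | h p =>
      induction C' using Quotient.inductionOn with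
      | h q =>
        rw [Quotient.map_mk, Quotient.map_mk, trV_mk, mk_eq]
        constructor
        · intro h
          obtain ⟨a', ha', h'⟩ := level_lift π hπ h p.2 rfl
          simp only at ha' h'
          have h0 : π (q.2 - a') = 0 := by rw [map_sub, ha', sub_self]
          rcases (hc _).1 h0 with e | e
          · left
            have : a' = q.2 := (sub_eq_zero.1 e).symm
            rw [this] at h'
            exact mk_eq.2 (orb_symm h')
          · right
            have : q.2 = a' + c := by rw [← e]; abel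
            have h2 := PP_transl c h'
            rw [← this] at h2
            exact mk_eq.2 (orb_symm h2)
        · intro h
          have key : ∀ {p q : Y × A}, (orb (PP s1 u1) (PP s2 u2)) p q →
              (orb (PP s1 (fun y => π (u1 y))) (PP s2 (fun y => π (u2 y))))
                (p.1, π p.2) (q.1, π q.2) := by
            intro p q hpq
            refine orb_map (fun p : Y × A => (p.1, π p.2)) ?_ ?_ hpq
            · rintro ⟨y, z⟩
              simp [PP]
            · rintro ⟨y, z⟩
              simp [PP]
          rcases h with h | h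
          · exact orb_symm (key (mk_eq.1 h))
          · have h1 := key (mk_eq.1 h)
            have h2 : π c = 0 := (hc c).2 (Or.inr rfl)
            simp only [map_add, h2, add_zero] at h1
            exact orb_symm h1

/-- free actions of the cyclic group of order 8 -/
theorem free8 {S : Type} [Finite S] (b : ℕ → S → S) (h0 : ∀ x, b 0 x = x)
    (hadd : ∀ m n x, b m (b n x) = b (n + m) x) (h8 : ∀ x, b 8 x = x) :
    8 ∣ Nat.card {x // b 4 x ≠ x} := by
  classical
  let r : Setoid {x // b 4 x ≠ x} :=
    { r := fun x y => ∃ n, b n x.1 = y.1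
      iseqv :=
        { refl := fun x => ⟨0, h0 _⟩
          symm := by
            rintro x y ⟨n, hn⟩
            refine ⟨8 * n - n, ?_⟩
            rw [← hn, hadd]
            have h : ∀ m x, b (8 * m) x = x := by
              intro m
              induction m with
              | zero => intro x; exact h0 x
              | succ m ih => intro x; rw [Nat.mul_succ, ← hadd, ih, h8]
            rw [show n + (8 * n - n) = 8 * n by omega, h]
          trans := by
            rintro x y z ⟨n, hn⟩ ⟨m, hm⟩
            exact ⟨n + m, by rw [← hadd, hn, hm]⟩ } }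
  have hmod : ∀ n x, b n x = b (n % 8) x := by
    have h : ∀ m x, b (8 * m) x = x := by
      intro m
      induction m with
      | zero => intro x; exact h0 x
      | succ m ih => intro x; rw [Nat.mul_succ, ← hadd, ih, h8]
    intro n x
    conv_lhs => rw [← Nat.mod_add_div n 8, ← hadd, h]
  have hk : ∀ x : {x // b 4 x ≠ x}, Nat.card {y // r x y} = 8 := by
    intro x
    have hx : ∀ d, 0 < d → d < 8 → b d x.1 ≠ x.1 := by
      intro d hd hd8 e
      have hm : ∀ m, b (d * m) x.1 = x.1 := by
        intro m
        induction m with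
        | zero => exact h0 _
        | succ m ih => rw [Nat.mul_succ, ← hadd, ih, e]
      have key : ∃ m, d * m % 8 = 4 := by
        interval_cases d
        · exact ⟨4, rfl⟩
        · exact ⟨2, rfl⟩
        · exact ⟨4, rfl⟩
        · exact ⟨1, rfl⟩
        · exact ⟨4, rfl⟩
        · exact ⟨2, rfl⟩
        · exact ⟨4, rfl⟩
      obtain ⟨m, hm'⟩ := key
      have h1 := hmod (d * m) x.1
      rw [hm', hm] at h1
      exact x.2 h1.symm
    have e : Fin 8 ≃ {y // r x y} := by
      refine Equiv.ofBijective (fun i => ⟨⟨b i.val x.1, ?_⟩, ⟨i.val, rfl⟩⟩) ⟨?_, ?_⟩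
      · intro h
        have h1 := congrArg (b (8 - i.val)) h
        have e1 : b (8 - i.val) (b 4 (b i.val x.1)) = b 4 x.1 := by
          rw [hadd, hadd, hmod, show (i.val + (4 + (8 - i.val))) % 8 = 4 by omega]
        have e2 : b (8 - i.val) (b i.val x.1) = x.1 := by
          rw [hadd, show i.val + (8 - i.val) = 8 by omega, h8]
        rw [e1, e2] at h1
        exact x.2 h1
      · intro i j hij
        have hij' : b i.val x.1 = b j.val x.1 := congrArg (fun y => y.1.1) hij
        by_contra hne
        have key : ∀ i j : Fin 8, i.val < j.val → b i.val x.1 ≠ b j.val x.1 := by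
          intro i j hlt h
          have h1 := congrArg (b (8 - i.val)) h
          rw [hadd, hadd, show i.val + (8 - i.val) = 8 by omega, h8] at h1
          rw [hmod (j.val + (8 - i.val)), show (j.val + (8 - i.val)) % 8 = j.val - i.val by omega]
            at h1
          exact hx (j.val - i.val) (by omega) (by omega) h1.symm
        rcases lt_or_gt_of_ne (fun h => hne (Fin.ext h)) with hlt | hlt
        · exact key i j hlt hij'
        · exact key j i hlt hij'.symm
      · rintro ⟨y, n, hn⟩
        refine ⟨⟨n % 8, Nat.mod_lt _ (by norm_num)⟩, ?_⟩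
        apply Subtype.ext
        apply Subtype.ext
        change b (n % 8) x.1 = y.1
        rw [← hmod, hn]
    rw [← Nat.card_congr e, Nat.card_fin]
  exact ⟨_, card_eq_mul_classes r 8 hk⟩

end Level

end Pool.Agent.SDT
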