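import Pool.Agent.SDT.Base

/-! Counting orbits. -/

namespace Pool.Agent.SDT
open Relation

/-- counting with weights along the fibres of a map -/
theorem fibre_count {S T : Type} [Fintype S] [Fintype T] [DecidableEq T] (f : S → T) (w : S → ℕ)
    (K : ℕ) (h : ∀ t, ∑ s ∈ Finset.univ.filter (fun s => f s = t), w s = K) :
    ∑ s, w s = K * Fintype.card T := by
  rw [← Finset.sum_fiberwise Finset.univ f w]
  simp [h, mul_comm]

/-- quotient by an involution -/
theorem involution_count {S T : Type} [Finite S] (b : S → S) (hb : ∀ s, b (b s) = s) (f : S → T)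
    (hf : Function.Surjective f) (hfb : ∀ s s', f s = f s' ↔ s' = s ∨ s' = b s) :
    2 * Nat.card T = Nat.card S + Nat.card {s // b s = s} := by
  classical
  have := Finite.of_surjective f hf
  have := Fintype.ofFinite S
  have := Fintype.ofFinite T
  have h := fibre_count f (fun s => 1 + if b s = s then 1 else 0) 2 (by
    intro t
    obtain ⟨s, rfl⟩ := hf t
    by_cases hs : b s = s
    · have : (Finset.univ.filter fun s' => f s' = f s) = {s} := by
        ext s'
        simp only [Finset.mem_filter, Finset.mem_univ, true_and, Finset.mem_singleton]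
        rw [eq_comm, hfb, hs]
        simp
      rw [this]
      simp [hs]
    · have : (Finset.univ.filter fun s' => f s' = f s) = {s, b s} := by
        ext s'
        simp only [Finset.mem_filter, Finset.mem_univ, true_and, Finset.mem_insert,
          Finset.mem_singleton]
        rw [eq_comm, hfb]
      rw [this, Finset.sum_pair (Ne.symm hs)]
      simp [hb, hs, Ne.symm hs])
  rw [Finset.sum_add_distrib, Finset.sum_const, Finset.card_univ, smul_eq_mul, mul_one,
    Finset.sum_boole] at h
  rw [Nat.card_eq_fintype_card, Nat.card_eq_fintype_card, Nat.card_eq_fintype_card,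
    Fintype.card_subtype, ← h]
  simp

/-- all classes of the same size -/
theorem card_eq_mul_classes {X : Type} [Finite X] (r : Setoid X) (K : ℕ)
    (h : ∀ x, Nat.card {y // r x y} = K) : Nat.card X = K * Nat.card (Quotient r) := by
  classical
  have := Fintype.ofFinite X
  have := Fintype.ofFinite (Quotient r)
  have h' := fibre_count (Quotient.mk r) (fun _ => 1) K (by
    intro t
    obtain ⟨x, rfl⟩ := Quotient.exists_rep t
    rw [← h x]
    simp only [Finset.sum_const, smul_eq_mul, mul_one]
    rw [Nat.card_eq_fintype_card, Fintype.card_subtype]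
    congr 1
    ext y
    simp only [Finset.mem_filter, Finset.mem_univ, true_and]
    rw [Quotient.eq]
    exact ⟨fun h => Setoid.symm' r h, fun h => Setoid.symm' r h⟩)
  simpa [Nat.card_eq_fintype_card] using h'

section Dihedral

variable {Y : Type} {n : ℕ} [NeZero n]

theorem pow_val_add {G : Type} [Group G] {T : G} (hT : T ^ n = 1) (i j : ZMod n) :
    T ^ (i + j).val = T ^ i.val * T ^ j.val := by
  rw [ZMod.val_add, ← pow_add, ← pow_eq_pow_mod _ hT]

theorem pow_val_neg {G : Type} [Group G] {T : G} (hT : T ^ n = 1) (i : ZMod n) :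
    T ^ (-i).val = (T ^ i.val)⁻¹ := by
  rw [eq_inv_iff_mul_eq_one, ← pow_val_add hT]
  simp

/-- the action of the dihedral group generated by two involutions -/
noncomputable def dihHom (T g : Equiv.Perm Y) (hg : g * g = 1) (hT : T ^ n = 1)
    (hgT : g * T * g = T⁻¹) : DihedralGroup n →* Equiv.Perm Y := by
  have hc : ∀ m : ℕ, T ^ m * g = g * (T ^ m)⁻¹ := by
    intro m
    have h1 : g * T ^ m * g = (T ^ m)⁻¹ := by
      induction m with
      | zero => simp [hg]
      | succ m ih =>
        have : g * T ^ (m + 1) * g = (g * T ^ m * g) * (g * T * g) := by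
          rw [pow_succ]
          calc g * (T ^ m * T) * g = g * T ^ m * 1 * T * g := by simp [mul_assoc]
            _ = _ := by rw [← hg]; simp [mul_assoc]
        rw [this, ih, hgT, ← mul_inv_rev, pow_succ']
    rw [← h1, ← mul_assoc, ← mul_assoc, hg, one_mul]
  exact
    { toFun := fun d => match d with
        | DihedralGroup.r i => T ^ i.val
        | DihedralGroup.sr i => g * T ^ i.val
      map_one' := by
        change T ^ (0 : ZMod n).val = 1
        simp
      map_mul' := by
        rintro (i | i) (j | j)
        · simp only [DihedralGroup.r_mul_r]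
          exact pow_val_add hT i j
        · simp only [DihedralGroup.r_mul_sr]
          rw [sub_eq_neg_add, pow_val_add hT, pow_val_neg hT, ← mul_assoc, ← mul_assoc, ← hc]
        · simp only [DihedralGroup.sr_mul_r]
          rw [pow_val_add hT, mul_assoc]
        · simp only [DihedralGroup.sr_mul_sr]
          rw [sub_eq_neg_add, pow_val_add hT, pow_val_neg hT]
          calc (T ^ i.val)⁻¹ * T ^ j.val = (g * g) * (T ^ i.val)⁻¹ * T ^ j.val := by
                rw [hg, one_mul]
            _ = g * (g * (T ^ i.val)⁻¹) * T ^ j.val := by simp [mul_assoc]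
            _ = g * (T ^ i.val * g) * T ^ j.val := by rw [hc]
            _ = _ := by simp [mul_assoc] }

/-- Burnside's lemma for two involutions whose product has order dividing `n` -/
theorem dihedral_count [Finite Y] (f g : Equiv.Perm Y) (hf : f * f = 1) (hg : g * g = 1)
    (hT : (f * g) ^ n = 1) :
    2 * n * nOrb f g = ∑ i : ZMod n, Nat.card {y // ((f * g) ^ i.val) y = y} +
      ∑ i : ZMod n, Nat.card {y // (g * (f * g) ^ i.val) y = y} := by
  classical
  have := Fintype.ofFinite Y
  have hgT : g * (f * g) * g = (f * g)⁻¹ := by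
    rw [mul_inv_rev]
    have h1 : g⁻¹ = g := inv_eq_of_mul_eq_one_left hg
    have h2 : f⁻¹ = f := inv_eq_of_mul_eq_one_left hf
    rw [h1, h2]
    simp [mul_assoc, hg]
  let φ := dihHom (f * g) g hg hT hgT
  let _ : MulAction (DihedralGroup n) Y := MulAction.compHom Y φ
  have hsmul : ∀ (d : DihedralGroup n) (y : Y), d • y = φ d y := fun d y => rfl
  have hr : ∀ i : ZMod n, φ (DihedralGroup.r i) = (f * g) ^ i.val := fun i => rfl
  have hsr : ∀ i : ZMod n, φ (DihedralGroup.sr i) = g * (f * g) ^ i.val := fun i => rfl
  have hB := MulAction.sum_card_fixedBy_eq_card_orbits_mul_card_group (DihedralGroup n) Y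
  have hrel : MulAction.orbitRel (DihedralGroup n) Y = orb f g := by
    ext x y
    rw [MulAction.orbitRel_apply, MulAction.mem_orbit_iff]
    have hpow : ∀ (m : ℕ) (y : Y), (orb f g) y (((f * g) ^ m) y) := by
      intro m
      induction m with
      | zero => intro y; exact orb_refl y
      | succ m ih =>
        intro y
        rw [pow_succ', Equiv.Perm.mul_apply]
        refine orb_trans (ih y) ?_
        rw [Equiv.Perm.mul_apply]
        exact orb_trans (orb_right _) (orb_left _)
    constructor
    · rintro ⟨d, rfl⟩
      refine orb_symm ?_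
      rw [hsmul]
      rcases d with i | i
      · rw [hr]; exact hpow _ _
      · rw [hsr, Equiv.Perm.mul_apply]; exact orb_trans (hpow _ _) (orb_right _)
    · intro h
      have : (MulAction.orbitRel (DihedralGroup n) Y) x y := by
        induction h with
        | rel a b hab =>
          refine Setoid.symm' _ ?_
          rw [MulAction.orbitRel_apply, MulAction.mem_orbit_iff]
          rcases hab with rfl | rfl
          · refine ⟨DihedralGroup.r 1 * DihedralGroup.sr 0, ?_⟩
            rw [hsmul, map_mul, hr, hsr]
            have h1 : (f * g) ^ (1 : ZMod n).val = f * g := by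
              rcases Nat.lt_or_ge 1 n with h1 | h1
              · have : Fact (1 < n) := ⟨h1⟩
                rw [ZMod.val_one, pow_one]
              · have h2 : n = 1 := le_antisymm h1 (NeZero.pos n)
                subst h2
                have : f * g = 1 := by simpa using hT
                rw [this, one_pow]
            rw [h1]
            simp only [ZMod.val_zero, pow_zero, mul_one]
            rw [mul_assoc, hg, mul_one]
          · refine ⟨DihedralGroup.sr 0, ?_⟩
            rw [hsmul, hsr]
            simp
        | refl a => exact Setoid.refl' _ a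
        | symm a b _ ih => exact Setoid.symm' _ ih
        | trans a b c _ _ ih1 ih2 => exact Setoid.trans' _ ih1 ih2
      simpa [MulAction.orbitRel_apply, MulAction.mem_orbit_iff] using this
  have hcard : Fintype.card (DihedralGroup n) = 2 * n := DihedralGroup.card
  have horb : Fintype.card (Quotient (MulAction.orbitRel (DihedralGroup n) Y)) = nOrb f g := by
    rw [nOrb, ← Nat.card_eq_fintype_card, hrel]
  rw [hcard, horb] at hB
  rw [mul_comm (2 * n), ← hB]
  rw [← (DihedralGroup.equivSum (n := n)).symm.sum_comp, Fintype.sum_sum_type]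
  congr 1
  · refine Finset.sum_congr rfl fun i _ => ?_
    rw [Nat.card_eq_fintype_card]
    exact Fintype.card_congr (Equiv.refl _)
  · refine Finset.sum_congr rfl fun i _ => ?_
    rw [Nat.card_eq_fintype_card]
    exact Fintype.card_congr (Equiv.refl _)

end Dihedral

theorem nOrb_congr {A B : Type} (e : A ≃ B) {f g : A → A} {f' g' : B → B}
    (hf : ∀ a, e (f a) = f' (e a)) (hg : ∀ a, e (g a) = g' (e a)) : nOrb f g = nOrb f' g' := by
  refine Nat.card_congr (Quotient.congr e ?_)
  intro a a'
  have h1 : ∀ {A B : Type} (e : A ≃ B) {f g : A → A} {f' g' : B → B}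
      (_ : ∀ a, e (f a) = f' (e a)) (_ : ∀ a, e (g a) = g' (e a)) (a a' : A),
      (orb f g) a a' → (orb f' g') (e a) (e a') := by
    intro A B e f g f' g' hf hg a a' h
    induction h with
    | rel a b hab =>
      rcases hab with rfl | rfl
      · rw [hf]; exact orb_left _
      · rw [hg]; exact orb_right _
    | refl a => exact orb_refl _
    | symm a b _ ih => exact orb_symm ih
    | trans a b c _ _ ih1 ih2 => exact orb_trans ih1 ih2
  constructor
  · exact h1 e hf hg a a'
  · intro h
    have := h1 e.symm (f := f') (g := g') (f' := f) (g' := g)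
      (fun b => by rw [Equiv.symm_apply_eq, hf, Equiv.apply_symm_apply])
      (fun b => by rw [Equiv.symm_apply_eq, hg, Equiv.apply_symm_apply]) _ _ h
    simpa using this

theorem orb_swap {A : Type} (f g : A → A) : orb f g = orb g f := by
  have h1 : ∀ (f g : A → A) a a', (orb f g) a a' → (orb g f) a a' := by
    intro f g a a' h
    induction h with
    | rel a b hab =>
      rcases hab with rfl | rfl
      · exact orb_right _
      · exact orb_left _
    | refl a => exact orb_refl _
    | symm a b _ ih => exact orb_symm ih
    | trans a b c _ _ ih1 ih2 => exact orb_trans ih1 ih2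
  ext a a'
  exact ⟨h1 f g a a', h1 g f a a'⟩

theorem nOrb_comm {A : Type} (f g : A → A) : nOrb f g = nOrb g f := by
  rw [nOrb, nOrb, orb_swap]

theorem edge_count {Y : Type} [Finite Y] (f g : Y → Y) (hf : ∀ y, f (f y) = y)
    (hg : ∀ y, g (g y) = y) (hc : ∀ y, f (g y) = g (f y)) :
    4 * nOrb f g = Nat.card Y + Nat.card {y // f (g y) = y} + Nat.card {y // g y = y} +
      Nat.card {y // f y = y} := by
  have hF : Function.Involutive f := hf
  have hG : Function.Involutive g := hg
  have h := dihedral_count (n := 2) hF.toPerm hG.toPerm (by ext y; simp [hf])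
    (by ext y; simp [hg]) (by ext y; simp [pow_two, hf, hg, hc])
  have e1 : nOrb (hF.toPerm : Y → Y) (hG.toPerm : Y → Y) = nOrb f g := rfl
  rw [e1] at h
  have e2 : (∑ i : ZMod 2, Nat.card {y // ((hF.toPerm * hG.toPerm) ^ i.val) y = y}) =
      Nat.card Y + Nat.card {y // f (g y) = y} := by
    rw [show (∑ i : ZMod 2, Nat.card {y // ((hF.toPerm * hG.toPerm) ^ i.val) y = y}) =
      Nat.card {y // ((hF.toPerm * hG.toPerm) ^ 0) y = y} +
      Nat.card {y // ((hF.toPerm * hG.toPerm) ^ 1) y = y} from Fin.sum_univ_two _]
    congr 1
    exact Nat.card_congr (Equiv.subtypeUnivEquiv fun y => by simp)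
  have e3 : (∑ i : ZMod 2, Nat.card {y // (hG.toPerm * (hF.toPerm * hG.toPerm) ^ i.val) y = y}) =
      Nat.card {y // g y = y} + Nat.card {y // f y = y} := by
    rw [show (∑ i : ZMod 2,
      Nat.card {y // (hG.toPerm * (hF.toPerm * hG.toPerm) ^ i.val) y = y}) =
      Nat.card {y // (hG.toPerm * (hF.toPerm * hG.toPerm) ^ 0) y = y} +
      Nat.card {y // (hG.toPerm * (hF.toPerm * hG.toPerm) ^ 1) y = y} from Fin.sum_univ_two _]
    congr 1
    refine Nat.card_congr (Equiv.subtypeEquivRight fun y => ?_)
    simp [hc, hg]
  rw [e2, e3] at h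
  omega

theorem face_count {Y : Type} [Finite Y] (f g : Y → Y) (hf : ∀ y, f (f y) = y)
    (hg : ∀ y, g (g y) = y) (h4 : ∀ y, f (g (f (g (f (g (f (g y))))))) = y) :
    8 * nOrb f g = Nat.card Y + 2 * Nat.card {y // f (g y) = y} +
      Nat.card {y // f (g (f (g y))) = y} + 2 * Nat.card {y // g y = y} +
      2 * Nat.card {y // f y = y} := by
  have hF : Function.Involutive f := hf
  have hG : Function.Involutive g := hg
  have h := dihedral_count (n := 4) hF.toPerm hG.toPerm (by ext y; simp [hf])
    (by ext y; simp [hg]) (by ext y; simp [pow_succ, h4])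
  have e1 : nOrb (hF.toPerm : Y → Y) (hG.toPerm : Y → Y) = nOrb f g := rfl
  rw [e1] at h
  have h3 : ∀ y, f (g (f (g (f (g y))))) = g (f y) := by
    intro y
    have := h4 (g (f y))
    rw [hg, hf] at this
    exact this
  have e2 : (∑ i : ZMod 4, Nat.card {y // ((hF.toPerm * hG.toPerm) ^ i.val) y = y}) =
      Nat.card Y + Nat.card {y // f (g y) = y} + Nat.card {y // f (g (f (g y))) = y} +
        Nat.card {y // f (g y) = y} := by
    rw [show (∑ i : ZMod 4, Nat.card {y // ((hF.toPerm * hG.toPerm) ^ i.val) y = y}) =
      Nat.card {y // ((hF.toPerm * hG.toPerm) ^ 0) y = y} +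
      Nat.card {y // ((hF.toPerm * hG.toPerm) ^ 1) y = y} +
      Nat.card {y // ((hF.toPerm * hG.toPerm) ^ 2) y = y} +
      Nat.card {y // ((hF.toPerm * hG.toPerm) ^ 3) y = y} from Fin.sum_univ_four _]
    congr 1
    · congr 1
      congr 1
      exact Nat.card_congr (Equiv.subtypeUnivEquiv fun y => by simp)
    · refine Nat.card_congr (Equiv.subtypeEquivRight fun y => ?_)
      have : ((hF.toPerm * hG.toPerm) ^ 3) y = g (f y) := by simp [pow_succ, h3]
      rw [this]
      constructor
      · intro h
        conv_lhs => rw [← h, hg, hf]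
      · intro h
        conv_lhs => rw [← h, hf, hg]
  have e3 : (∑ i : ZMod 4, Nat.card {y // (hG.toPerm * (hF.toPerm * hG.toPerm) ^ i.val) y = y}) =
      Nat.card {y // g y = y} + Nat.card {y // f y = y} + Nat.card {y // g y = y} +
      Nat.card {y // f y = y} := by
    rw [show (∑ i : ZMod 4,
      Nat.card {y // (hG.toPerm * (hF.toPerm * hG.toPerm) ^ i.val) y = y}) =
      Nat.card {y // (hG.toPerm * (hF.toPerm * hG.toPerm) ^ 0) y = y} +
      Nat.card {y // (hG.toPerm * (hF.toPerm * hG.toPerm) ^ 1) y = y} +
      Nat.card {y // (hG.toPerm * (hF.toPerm * hG.toPerm) ^ 2) y = y} +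
      Nat.card {y // (hG.toPerm * (hF.toPerm * hG.toPerm) ^ 3) y = y} from
        Fin.sum_univ_four _]
    congr 1
    · congr 1
      · congr 1
        refine Nat.card_congr (Equiv.subtypeEquiv hG.toPerm fun y => ?_)
        simp only [pow_one, Equiv.Perm.mul_apply, Function.Involutive.coe_toPerm]
        constructor
        · intro h
          have := congrArg g h
          rwa [hg] at this
        · intro h
          rw [h, hg]
      · refine Nat.card_congr (Equiv.subtypeEquiv (hF.toPerm * hG.toPerm) fun y => ?_)
        simp only [pow_two, Equiv.Perm.mul_apply, Function.Involutive.coe_toPerm]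
        constructor
        · intro h
          have := congrArg (fun u => f (g u)) h
          simp only [hg, hf] at this
          exact this
        · intro h
          rw [h, hf, hg]
    · refine Nat.card_congr (Equiv.subtypeEquivRight fun y => ?_)
      have : (hG.toPerm * (hF.toPerm * hG.toPerm) ^ 3) y = f y := by simp [pow_succ, h3, hg]
      rw [this]
  rw [e2, e3] at h
  omega

end Pool.Agent.SDT
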