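import Pool.Agent.SDT.Cover
import Pool.Agent.SDT.Orb

/-! Construction of a datum from a coordinatised covering. -/

namespace Pool.Agent.SDT
open Relation

/-- a map commuting with the translation is given by its values at `0` -/
theorem transl_form {X Y : Type} {n : ℕ} [NeZero n] (Θ : Y × ZMod n ≃ X) (b : Equiv.Perm X)
    (hb : ∀ y z, Θ (y, z + 1) = b (Θ (y, z))) (s : X → X) (hs : ∀ x, s (b x) = b (s x))
    (y : Y) (z : ZMod n) :
    Θ.symm (s (Θ (y, z))) =
      ((Θ.symm (s (Θ (y, 0)))).1, z + (Θ.symm (s (Θ (y, 0)))).2) := by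
  have hb' : ∀ x, Θ.symm (b x) = ((Θ.symm x).1, (Θ.symm x).2 + 1) := by
    intro x
    rw [Equiv.symm_apply_eq, hb]
    simp
  have key : ∀ m : ℕ, Θ.symm (s (Θ (y, (m : ZMod n)))) =
      ((Θ.symm (s (Θ (y, 0)))).1, (m : ZMod n) + (Θ.symm (s (Θ (y, 0)))).2) := by
    intro m
    induction m with
    | zero => simp
    | succ m ih =>
      rw [Nat.cast_succ, hb, hs, hb', ih]
      simp only [Prod.mk.injEq, true_and]
      ring
  have := key z.val
  rwa [ZMod.natCast_zmod_val] at this

section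

variable {X Y : Type} {k : ℕ} (Θ : Y × ZMod (2 ^ k) ≃ X) (b : Equiv.Perm X)

/-- properties of a coordinatised covering that yield a datum -/
structure CoverData (s0 s1 s2 : X → X) (col : X → Bool) (ε : X → Bool) : Prop where
  hk : 1 ≤ k
  finite : Finite X
  nonempty : Nonempty X
  hb : ∀ y z, Θ (y, z + 1) = b (Θ (y, z))
  c0 : ∀ x, s0 (b x) = b (s0 x)
  c1 : ∀ x, s1 (b x) = b (s1 x)
  c2 : ∀ x, s2 (b x) = b (s2 x)
  colb : ∀ x, col (b x) = !col x
  colz : ∀ y, col (Θ (y, 0)) = false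
  i0 : ∀ x, s0 (s0 x) = x
  i1 : ∀ x, s1 (s1 x) = x
  i2 : ∀ x, s2 (s2 x) = x
  comm : ∀ x, s0 (s2 x) = s2 (s0 x)
  turn4 : ∀ x, s0 (s1 (s0 (s1 (s0 (s1 (s0 (s1 x))))))) = x
  turn2 : ∀ x, s0 (s1 (s0 (s1 x))) ≠ x
  col0 : ∀ x, col (s0 x) = !col x
  col1 : ∀ x, col (s1 x) = col x
  col2 : ∀ x, col (s2 x) = col x
  or0 : ∀ x, ε (s0 x) = !ε x
  or1 : ∀ x, ε (s1 x) = !ε x
  or2 : ∀ x, ε (s2 x) = !ε x
  conn : ∀ x y, EqvGen (fun a b => b = s0 a ∨ b = s1 a ∨ b = s2 a) x y

end

/-- the datum of a covering -/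
theorem CoverData.exists_datum {X Y : Type} {k : ℕ} {Θ : Y × ZMod (2 ^ k) ≃ X}
    {b : Equiv.Perm X} {s0 s1 s2 : X → X} {col ε : X → Bool}
    (h : CoverData Θ b s0 s1 s2 col ε) :
    ∃ (D : Datum) (Φ : D.R ≃ X), (∀ p, Φ (D.p0 p) = s0 (Φ p)) ∧ (∀ p, Φ (D.p1 p) = s1 (Φ p)) ∧
      (∀ p, Φ (D.p2 p) = s2 (Φ p)) ∧ ∀ p, (col (Φ p) = false ↔ Even p.2) := by
  classical
  have hne : NeZero (2 ^ k) := ⟨by positivity⟩
  have f0 := fun y z => transl_form Θ b h.hb s0 h.c0 y z
  have f1 := fun y z => transl_form Θ b h.hb s1 h.c1 y z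
  have f2 := fun y z => transl_form Θ b h.hb s2 h.c2 y z
  -- the maps on `Y × ZMod`
  let S : (X → X) → Y → Y := fun s y => (Θ.symm (s (Θ (y, 0)))).1
  let V : (X → X) → Y → ZMod (2 ^ k) := fun s y => (Θ.symm (s (Θ (y, 0)))).2
  have g0 : ∀ y z, s0 (Θ (y, z)) = Θ (S s0 y, z + V s0 y) := fun y z => by
    rw [← f0 y z, Equiv.apply_symm_apply]
  have g1 : ∀ y z, s1 (Θ (y, z)) = Θ (S s1 y, z + V s1 y) := fun y z => by
    rw [← f1 y z, Equiv.apply_symm_apply]
  have g2 : ∀ y z, s2 (Θ (y, z)) = Θ (S s2 y, z + V s2 y) := fun y z => by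
    rw [← f2 y z, Equiv.apply_symm_apply]
  -- colours
  have hcol : ∀ y z, col (Θ (y, z)) = isOdd z := by
    intro y z
    have key : ∀ m : ℕ, col (Θ (y, (m : ZMod (2 ^ k)))) = isOdd (m : ZMod (2 ^ k)) := by
      intro m
      induction m with
      | zero => rw [Nat.cast_zero, h.colz, isOdd_zero]
      | succ m ih => rw [Nat.cast_succ, h.hb, h.colb, ih, isOdd_add h.hk, isOdd_one h.hk]; simp
    have := key z.val
    rwa [ZMod.natCast_zmod_val] at this
  have odd0 : ∀ y, Odd (V s0 y) := by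
    intro y
    have := h.col0 (Θ (y, 0))
    rw [g0, hcol, hcol, zero_add, isOdd_zero] at this
    exact (isOdd_eq_true h.hk).1 this
  have even1 : ∀ y, Even (V s1 y) := by
    intro y
    have := h.col1 (Θ (y, 0))
    rw [g1, hcol, hcol, zero_add, isOdd_zero] at this
    exact (isOdd_eq_false h.hk).1 this
  have even2 : ∀ y, Even (V s2 y) := by
    intro y
    have := h.col2 (Θ (y, 0))
    rw [g2, hcol, hcol, zero_add, isOdd_zero] at this
    exact (isOdd_eq_false h.hk).1 this
  -- orientation and translation by an even element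
  have hε2 : ∀ x, ε (b (b x)) = ε x := by
    have hc : ∀ x y, xor (ε (b x)) (ε x) = xor (ε (b y)) (ε y) := by
      intro x y
      refine conn_const (fun x => xor (ε (b x)) (ε x)) ?_ (h.conn x y)
      rintro u v (rfl | rfl | rfl)
      · simp only [← h.c0, h.or0]; simp
      · simp only [← h.c1, h.or1]; simp
      · simp only [← h.c2, h.or2]; simp
    intro x
    have := hc (b x) x
    revert this
    rcases ε (b (b x)) <;> rcases ε (b x) <;> rcases ε x <;> simp
  have hεe : ∀ y z w, Even w → ε (Θ (y, z + w)) = ε (Θ (y, z)) := by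
    rintro y z w ⟨r, rfl⟩
    have key : ∀ m : ℕ, ε (Θ (y, z + ((m : ZMod (2 ^ k)) + m))) = ε (Θ (y, z)) := by
      intro m
      induction m with
      | zero => simp
      | succ m ih =>
        have : z + (((m + 1 : ℕ) : ZMod (2 ^ k)) + ((m + 1 : ℕ) : ZMod (2 ^ k))) =
            z + ((m : ZMod (2 ^ k)) + m) + 1 + 1 := by push_cast; ring
        rw [this, h.hb, h.hb, hε2, ih]
    have := key r.val
    rwa [ZMod.natCast_zmod_val] at this
  have inj : ∀ {y y' z z'}, Θ (y, z) = Θ (y', z') → y = y' ∧ z = z' := by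
    intro y y' z z' e
    have := Θ.injective e
    simpa using this
  have e00 := fun y => inj ((h.i0 (Θ (y, 0))).symm.trans (by rw [g0, g0]))
  have e11 := fun y => inj ((h.i1 (Θ (y, 0))).symm.trans (by rw [g1, g1]))
  have e22 := fun y => inj ((h.i2 (Θ (y, 0))).symm.trans (by rw [g2, g2]))
  have e02 : ∀ y, _ := fun y =>
    inj ((((congrArg s0 (g2 y 0)).symm.trans (h.comm (Θ (y, 0)))).trans
      (congrArg s2 (g0 y 0))) |> fun e => (g0 _ _).symm.trans (e.trans (g2 _ _)))
  have et : ∀ y, s0 (s1 (Θ (y, 0))) = Θ (S s0 (S s1 y), 0 + V s1 y + V s0 (S s1 y)) := by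
    intro y; rw [g1, g0]
  have et4 := fun y => inj ((h.turn4 (Θ (y, 0))).symm.trans (by
    rw [g1, g0, g1, g0, g1, g0, g1, g0]))
  have et2 : ∀ y, S s0 (S s1 (S s0 (S s1 y))) = y →
      V s1 y + V s0 (S s1 y) + (V s1 (S s0 (S s1 y)) + V s0 (S s1 (S s0 (S s1 y)))) ≠ 0 := by
    intro y hy hv
    apply h.turn2 (Θ (y, 0))
    rw [g1, g0, g1, g0, hy]
    congr 2
    linear_combination hv
  have hYf : Finite Y := by
    have := h.finite
    exact Finite.of_injective (fun y => Θ (y, 0)) (fun y y' e => (inj e).1)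
  have hYn : Nonempty Y := by
    obtain ⟨x⟩ := h.nonempty
    exact ⟨(Θ.symm x).1⟩
  have hconn : ∀ y y', EqvGen (fun a b => b = S s0 a ∨ b = S s1 a ∨ b = S s2 a) y y' := by
    have key : ∀ x x', EqvGen (fun a b => b = s0 a ∨ b = s1 a ∨ b = s2 a) x x' →
        EqvGen (fun a b => b = S s0 a ∨ b = S s1 a ∨ b = S s2 a) (Θ.symm x).1
          (Θ.symm x').1 := by
      intro x x' hx
      induction hx with
      | rel a c hac =>
        have ha : a = Θ ((Θ.symm a).1, (Θ.symm a).2) := by simp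
        apply EqvGen.rel
        rcases hac with rfl | rfl | rfl
        · left; conv_lhs => rw [ha, g0]
          simp
        · right; left; conv_lhs => rw [ha, g1]
          simp
        · right; right; conv_lhs => rw [ha, g2]
          simp
      | refl a => exact EqvGen.refl _
      | symm a b _ ih => exact EqvGen.symm _ _ ih
      | trans a b c _ _ ih1 ih2 => exact EqvGen.trans _ _ _ ih1 ih2
    intro y y'
    simpa using key _ _ (h.conn (Θ (y, 0)) (Θ (y', 0)))
  let D : Datum :=
    { Y := Y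
      finite := hYf
      nonempty := hYn
      k := k
      hk := h.hk
      s0 := S s0
      s1 := S s1
      s2 := S s2
      v0 := V s0
      v1 := V s1
      v2 := V s2
      inv0 := fun y => (e00 y).1.symm
      inv1 := fun y => (e11 y).1.symm
      inv2 := fun y => (e22 y).1.symm
      free1 := by
        intro y hy
        have h1 := h.or1 (Θ (y, 0))
        rw [g1, hy, hεe _ _ _ (even1 y)] at h1
        simp at h1
      free2 := by
        intro y hy
        have h1 := h.or2 (Θ (y, 0))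
        rw [g2, hy, hεe _ _ _ (even2 y)] at h1
        simp at h1
      comm := fun y => (e02 y).1
      conn := hconn
      vinv0 := fun y => by have := (e00 y).2; rw [zero_add] at this; exact this.symm
      vinv1 := fun y => by have := (e11 y).2; rw [zero_add] at this; exact this.symm
      vinv2 := fun y => by have := (e22 y).2; rw [zero_add] at this; exact this.symm
      vcomm := fun y => by have := (e02 y).2; rwa [zero_add, zero_add] at this
      odd0 := odd0
      even1 := even1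
      even2 := even2
      turn4 := fun y => (et4 y).1.symm
      vturn4 := fun y => by
        have := (et4 y).2
        linear_combination (-1 : ZMod (2 ^ k)) * this
      turn2 := et2 }
  refine ⟨D, Θ, ?_, ?_, ?_, ?_⟩
  · rintro ⟨y, z⟩; exact (g0 y z).symm
  · rintro ⟨y, z⟩; exact (g1 y z).symm
  · rintro ⟨y, z⟩; exact (g2 y z).symm
  · rintro ⟨y, z⟩
    rw [hcol]
    exact isOdd_eq_false h.hk

end Pool.Agent.SDT
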