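import Pool.Agent.SDT.Base

/-! Parity in `ZMod (2 ^ k)`. -/

namespace Pool.Agent.SDT

theorem two_dvd_pow {k : ℕ} (hk : 1 ≤ k) : 2 ∣ 2 ^ k := dvd_pow_self 2 (by omega)

/-- parity of an element of `ZMod (2 ^ k)`, `k ≥ 1` -/
def par {k : ℕ} (hk : 1 ≤ k) : ZMod (2 ^ k) →+* ZMod 2 := ZMod.castHom (two_dvd_pow hk) (ZMod 2)

theorem zmod2_cases (x : ZMod 2) : x = 0 ∨ x = 1 := by
  revert x; decide

theorem even_of_par {k : ℕ} (hk : 1 ≤ k) {z : ZMod (2 ^ k)} (h : par hk z = 0) : Even z := by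
  have hne : NeZero (2 ^ k) := ⟨by positivity⟩
  obtain ⟨n, rfl⟩ : ∃ n : ℕ, (n : ZMod (2 ^ k)) = z := ⟨z.val, ZMod.natCast_zmod_val z⟩
  rw [map_natCast, ZMod.natCast_eq_zero_iff] at h
  obtain ⟨m, rfl⟩ := h
  exact ⟨m, by push_cast; ring⟩

theorem even_iff_par {k : ℕ} (hk : 1 ≤ k) {z : ZMod (2 ^ k)} : Even z ↔ par hk z = 0 := by
  constructor
  · rintro ⟨r, rfl⟩
    rw [map_add]
    rcases zmod2_cases (par hk r) with h | h <;> rw [h] <;> decide
  · exact even_of_par hk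

theorem odd_iff_par {k : ℕ} (hk : 1 ≤ k) {z : ZMod (2 ^ k)} : Odd z ↔ par hk z = 1 := by
  constructor
  · rintro ⟨r, rfl⟩
    rw [map_add, map_mul, map_one]
    have : (par hk) 2 = 0 := by
      rw [map_ofNat]; decide
    rw [this]; simp
  · intro h
    have h' : par hk (z - 1) = 0 := by rw [map_sub, h, map_one, sub_self]
    obtain ⟨r, hr⟩ := even_of_par hk h'
    exact ⟨r, by rw [two_mul, ← hr]; ring⟩

theorem not_odd_iff_even {k : ℕ} (hk : 1 ≤ k) {z : ZMod (2 ^ k)} : ¬ Odd z ↔ Even z := by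
  rw [odd_iff_par hk, even_iff_par hk]
  rcases zmod2_cases (par hk z) with h | h <;> rw [h] <;> decide

theorem not_even_iff_odd {k : ℕ} (hk : 1 ≤ k) {z : ZMod (2 ^ k)} : ¬ Even z ↔ Odd z := by
  rw [odd_iff_par hk, even_iff_par hk]
  rcases zmod2_cases (par hk z) with h | h <;> rw [h] <;> decide

/-- parity as a Boolean: `true` for odd -/
def isOdd {k : ℕ} (z : ZMod (2 ^ k)) : Bool := decide (z.val % 2 = 1)

theorem isOdd_eq_true {k : ℕ} (hk : 1 ≤ k) {z : ZMod (2 ^ k)} : isOdd z = true ↔ Odd z := by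
  have hne : NeZero (2 ^ k) := ⟨by positivity⟩
  rw [isOdd, decide_eq_true_iff, odd_iff_par hk]
  conv_rhs => rw [← ZMod.natCast_zmod_val z]
  rw [map_natCast]
  have h := ZMod.natCast_eq_natCast_iff' z.val 1 2
  rw [Nat.cast_one] at h
  exact h.symm

theorem isOdd_eq_false {k : ℕ} (hk : 1 ≤ k) {z : ZMod (2 ^ k)} : isOdd z = false ↔ Even z := by
  rw [← not_odd_iff_even hk, ← isOdd_eq_true hk]
  simp

theorem isOdd_add {k : ℕ} (hk : 1 ≤ k) (z w : ZMod (2 ^ k)) :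
    isOdd (z + w) = xor (isOdd z) (isOdd w) := by
  rcases hz : isOdd z with _ | _ <;> rcases hw : isOdd w with _ | _ <;>
    simp only [isOdd_eq_true hk, isOdd_eq_false hk, even_iff_par hk, odd_iff_par hk] at hz hw <;>
    simp only [Bool.xor_false, Bool.xor_true, Bool.not_false,
      Bool.not_true, isOdd_eq_true hk, isOdd_eq_false hk, even_iff_par hk, odd_iff_par hk,
      map_add, hz, hw] <;> decide

theorem isOdd_zero {k : ℕ} : isOdd (0 : ZMod (2 ^ k)) = false := by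
  simp [isOdd]

theorem isOdd_one {k : ℕ} (hk : 1 ≤ k) : isOdd (1 : ZMod (2 ^ k)) = true := by
  rw [isOdd_eq_true hk]; exact odd_one

theorem isOdd_of_odd {k : ℕ} (hk : 1 ≤ k) {z : ZMod (2 ^ k)} (h : Odd z) : isOdd z = true :=
  (isOdd_eq_true hk).2 h

theorem isOdd_of_even {k : ℕ} (hk : 1 ≤ k) {z : ZMod (2 ^ k)} (h : Even z) : isOdd z = false :=
  (isOdd_eq_false hk).2 h

end Pool.Agent.SDT
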