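import Pool.Agent.SDT.Defs

namespace Pool.Agent.SDT
open Relation Equiv

/-! ### number of orbits -/

theorem par_orb_map {X X' : Type} (e : X → X') {f g : X → X} {f' g' : X' → X'}
    (hf : ∀ x, e (f x) = f' (e x)) (hg : ∀ x, e (g x) = g' (e x)) {x y : X}
    (h : (orb f g) x y) : (orb f' g') (e x) (e y) := by
  induction h with
  | rel a b hab =>
    rcases hab with rfl | rfl
    · rw [hf]; exact orb_left _
    · rw [hg]; exact orb_right _
  | refl a => exact orb_refl _
  | symm a b _ ih => exact orb_symm ih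
  | trans a b c _ _ ih1 ih2 => exact orb_trans ih1 ih2

theorem par_nOrb_congr {X X' : Type} (e : X ≃ X') {f g : X → X} {f' g' : X' → X'}
    (hf : ∀ x, e (f x) = f' (e x)) (hg : ∀ x, e (g x) = g' (e x)) :
    nOrb f g = nOrb f' g' := by
  apply Nat.card_congr
  refine Quotient.congr e ?_
  intro a b
  constructor
  · exact fun h => par_orb_map e hf hg h
  · intro h
    have := par_orb_map (f := f') (g := g') (f' := f) (g' := g) e.symm
      (fun x => by rw [Equiv.symm_apply_eq, hf, Equiv.apply_symm_apply])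
      (fun x => by rw [Equiv.symm_apply_eq, hg, Equiv.apply_symm_apply]) h
    simpa using this

theorem par_nOrb_prod {X : Type} (f g : X → X) :
    nOrb (fun p : X × Bool => (f p.1, p.2)) (fun p => (g p.1, p.2)) = 2 * nOrb f g := by
  have e : Quotient (orb (fun p : X × Bool => (f p.1, p.2)) (fun p => (g p.1, p.2))) ≃
      Quotient (orb f g) × Bool :=
    { toFun := Quotient.lift (fun p => (Quotient.mk _ p.1, p.2)) (by
        intro p q h
        have h' : (orb (fun p : X × Bool => (f p.1, p.2)) (fun p => (g p.1, p.2))) p q := h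
        induction h' with
        | rel a b hab =>
          rcases hab with rfl | rfl
          · exact Prod.ext (mk_eq.2 (orb_left _)) rfl
          · exact Prod.ext (mk_eq.2 (orb_right _)) rfl
        | refl a => rfl
        | symm a b _ ih => exact (ih (by assumption)).symm
        | trans a b c _ _ ih1 ih2 => exact (ih1 (by assumption)).trans (ih2 (by assumption)))
      invFun := fun r => Quotient.lift (fun x => Quotient.mk _ (x, r.2)) (by
        intro x y h
        exact mk_eq.2 (par_orb_map (fun x => (x, r.2)) (fun _ => rfl) (fun _ => rfl) h)) r.1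
      left_inv := by
        rintro ⟨p⟩
        rfl
      right_inv := by
        rintro ⟨⟨x⟩, b⟩
        rfl }
  unfold nOrb
  rw [Nat.card_congr e, Nat.card_prod]
  simp [mul_comm]

/-! ### the sign of an alternating permutation -/

/-- follow `f` from `d = false` and `g` from `d = true` -/
def altPerm {X : Type} (f g : X → X) (hf : ∀ x, f (f x) = x) (hg : ∀ x, g (g x) = x)
    (d : X → Bool) (df : ∀ x, d (f x) = !d x) (dg : ∀ x, d (g x) = !d x) : Perm X where
  toFun x := if d x then g x else f x
  invFun x := if d x then f x else g x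
  left_inv x := by
    by_cases h : d x
    · simp [h, dg, hg]
    · simp [h, df, hf]
  right_inv x := by
    by_cases h : d x
    · simp [h, df, hf]
    · simp [h, dg, hg]

theorem altPerm_apply {X : Type} {f g : X → X} {hf : ∀ x, f (f x) = x} {hg : ∀ x, g (g x) = x}
    {d : X → Bool} {df : ∀ x, d (f x) = !d x} {dg : ∀ x, d (g x) = !d x} (x : X) :
    altPerm f g hf hg d df dg x = if d x then g x else f x := rfl

theorem sameCycle_alt {X : Type} [Fintype X] [DecidableEq X] {f g : X → X}
    (hf : ∀ x, f (f x) = x) (hg : ∀ x, g (g x) = x)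
    (d : X → Bool) (df : ∀ x, d (f x) = !d x) (dg : ∀ x, d (g x) = !d x) (x y : X) :
    (altPerm f g hf hg d df dg).SameCycle x y ↔ (orb f g) x y := by
  set π := altPerm f g hf hg d df dg with hπ
  have step : ∀ x, (orb f g) x (π x) := by
    intro x
    rw [hπ, altPerm_apply]
    split
    · exact orb_right x
    · exact orb_left x
  constructor
  · intro h
    obtain ⟨n, -, hn⟩ := h.exists_pow_eq'
    have : ∀ n : ℕ, (orb f g) x ((π ^ n) x) := by
      intro n
      induction n with
      | zero => exact orb_refl x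
      | succ n ih =>
        rw [pow_succ']
        exact orb_trans ih (step _)
    rw [← hn]; exact this n
  · intro h
    induction h with
    | rel a b hab =>
      rcases hab with rfl | rfl
      · by_cases hd : d a
        · refine Perm.SameCycle.symm ⟨1, ?_⟩
          rw [zpow_one, hπ, altPerm_apply, df, hd]
          simp [hf]
        · refine ⟨1, ?_⟩
          rw [zpow_one, hπ, altPerm_apply]
          simp [hd]
      · by_cases hd : d a
        · refine ⟨1, ?_⟩
          rw [zpow_one, hπ, altPerm_apply]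
          simp [hd]
        · refine Perm.SameCycle.symm ⟨1, ?_⟩
          rw [zpow_one, hπ, altPerm_apply, dg]
          simp [hd, hg]
    | refl a => exact Perm.SameCycle.refl _ _
    | symm a b _ ih => exact ih.symm
    | trans a b c _ _ ih1 ih2 => exact ih1.trans ih2

theorem alt_ne {X : Type} {f g : X → X}
    (hf : ∀ x, f (f x) = x) (hg : ∀ x, g (g x) = x)
    (d : X → Bool) (df : ∀ x, d (f x) = !d x) (dg : ∀ x, d (g x) = !d x) (x : X) :
    altPerm f g hf hg d df dg x ≠ x := by
  intro h
  have h1 := congrArg d h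
  rw [altPerm_apply] at h1
  split at h1
  · rw [dg] at h1; simp at h1
  · rw [df] at h1; simp at h1

theorem card_even {X : Type} [Fintype X] (f : X → X) (hf : ∀ x, f (f x) = x)
    (d : X → Bool) (df : ∀ x, d (f x) = !d x) :
    Fintype.card X = 2 * Fintype.card {x // d x = false} := by
  have e : X ≃ {x // d x = false} × Bool :=
    { toFun := fun x => if h : d x = false then (⟨x, h⟩, false)
        else (⟨f x, by rw [df]; simpa using h⟩, true)
      invFun := fun p => if p.2 then f p.1 else p.1
      left_inv := by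
        intro x
        by_cases h : d x = false
        · simp [h]
        · simp [h, hf]
      right_inv := by
        rintro ⟨⟨x, hx⟩, b⟩
        cases b
        · simp [hx]
        · simp [df, hx, hf] }
  rw [Fintype.card_congr e, Fintype.card_prod]
  simp [mul_comm]

theorem sign_alt {X : Type} [Fintype X] [DecidableEq X] {f g : X → X}
    (hf : ∀ x, f (f x) = x) (hg : ∀ x, g (g x) = x)
    (d : X → Bool) (df : ∀ x, d (f x) = !d x) (dg : ∀ x, d (g x) = !d x) :
    Perm.sign (altPerm f g hf hg d df dg) = (-1) ^ nOrb f g := by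
  set π := altPerm f g hf hg d df dg with hπ
  have hne : ∀ x, π x ≠ x := alt_ne hf hg d df dg
  have hsupp : π.support = Finset.univ := by
    ext x; simp [Perm.mem_support, hne x]
  rw [Perm.sign_of_cycleType, Perm.sum_cycleType, hsupp, Finset.card_univ,
    card_even f hf d df, pow_add, pow_mul]
  have hcard : Multiset.card π.cycleType = nOrb f g := by
    rw [Perm.cycleType_def, Multiset.card_map]
    change π.cycleFactorsFinset.card = _
    rw [← Fintype.card_coe, ← Nat.card_eq_fintype_card]
    symm
    apply Nat.card_congr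
    refine Equiv.ofBijective (Quotient.lift (fun x => (⟨π.cycleOf x, by
      rw [Perm.cycleOf_mem_cycleFactorsFinset_iff, hsupp]; exact Finset.mem_univ x⟩ :
        {c // c ∈ π.cycleFactorsFinset})) ?_) ⟨?_, ?_⟩
    · intro x y h
      apply Subtype.ext
      exact ((sameCycle_alt hf hg d df dg x y).2 h).cycleOf_eq
    · rintro ⟨x⟩ ⟨y⟩ h
      have h1 : π.cycleOf x = π.cycleOf y := congrArg Subtype.val h
      apply mk_eq.2
      rw [← sameCycle_alt hf hg d df dg]
      rw [Perm.sameCycle_iff_cycleOf_eq_of_mem_support (by rw [hsupp]; exact Finset.mem_univ x)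
        (by rw [hsupp]; exact Finset.mem_univ y)]
      exact h1
    · rintro ⟨c, hc⟩
      obtain ⟨a, ha⟩ := (Perm.mem_cycleFactorsFinset_iff.1 hc).1.nonempty_support
      refine ⟨Quotient.mk _ a, ?_⟩
      apply Subtype.ext
      exact (Perm.cycle_is_cycleOf ha hc).symm
  rw [hcard]
  simp

/-! ### a bipartition for two fixed point free involutions -/

theorem not_sameCycle {Y : Type} (S T : Perm Y) (hS : S * S = 1) (hT : T * T = 1)
    (fS : ∀ y, S y ≠ y) (fT : ∀ y, T y ≠ y) (y : Y) : ¬ (S * T).SameCycle y (S y) := by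
  rintro ⟨n, hn⟩
  have hSi : S⁻¹ = S := by
    rw [inv_eq_iff_mul_eq_one]; exact hS
  have hTi : T⁻¹ = T := by
    rw [inv_eq_iff_mul_eq_one]; exact hT
  have conj : ∀ l : ℤ, S * (S * T) ^ l * S = (S * T) ^ (-l) := by
    intro l
    have h1 := (conj_zpow (a := S) (b := S * T) (i := l)).symm
    rw [hSi] at h1
    rw [h1, zpow_neg, ← inv_zpow]
    congr 1
    rw [mul_inv_rev, hSi, hTi, ← mul_assoc, hS, one_mul]
  have conj' : ∀ (l : ℤ) (z : Y), ((S * T) ^ (-l)) (S z) = S (((S * T) ^ l) z) := by
    intro l z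
    rw [← conj l]
    have hSz : S (S z) = z := by
      have := congrArg (fun p : Perm Y => p z) hS
      simpa using this
    simp [Perm.mul_apply, hSz]
  rcases Int.even_or_odd' n with ⟨l, rfl | rfl⟩
  · have h1 := congrArg ((S * T) ^ (-l)) hn
    rw [conj', ← Perm.mul_apply, ← zpow_add] at h1
    rw [show -l + 2 * l = l by ring] at h1
    exact fS _ h1.symm
  · have h1 := congrArg ((S * T) ^ (-l)) hn
    rw [conj', ← Perm.mul_apply, ← zpow_add] at h1
    rw [show -l + (2 * l + 1) = 1 + l by ring, zpow_add, zpow_one, Perm.mul_apply,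
      Perm.mul_apply] at h1
    exact fT _ (S.injective h1)

theorem exists_bip {Y : Type} (s t : Y → Y) (hs : ∀ y, s (s y) = y) (ht : ∀ y, t (t y) = y)
    (fs : ∀ y, s y ≠ y) (ft : ∀ y, t y ≠ y) :
    ∃ d : Y → Bool, (∀ y, d (s y) = !d y) ∧ ∀ y, d (t y) = !d y := by
  classical
  let S : Perm Y := ⟨s, s, hs, hs⟩
  let T : Perm Y := ⟨t, t, ht, ht⟩
  have hS : S * S = 1 := by ext y; exact hs y
  have hT : T * T = 1 := by ext y; exact ht y
  let τ := S * T
  have τa : ∀ y, τ y = s (t y) := fun _ => rfl
  -- `s` preserves the cycles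
  have pres : ∀ x y, τ.SameCycle x y → τ.SameCycle (s x) (s y) := by
    rintro x y ⟨n, rfl⟩
    refine ⟨-n, ?_⟩
    have hSi : S⁻¹ = S := by
      rw [inv_eq_iff_mul_eq_one]; exact hS
    have hTi : T⁻¹ = T := by
      rw [inv_eq_iff_mul_eq_one]; exact hT
    have h1 := (conj_zpow (a := S) (b := S * T) (i := n)).symm
    rw [hSi] at h1
    have h2 : (S * T) ^ (-n) = S * (S * T) ^ n * S := by
      rw [h1, zpow_neg, ← inv_zpow]
      congr 1
      rw [mul_inv_rev, hSi, hTi, ← mul_assoc S S, hS, one_mul]
    change ((S * T) ^ (-n)) (s x) = s (((S * T) ^ n) x)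
    rw [h2]
    change s (((S * T) ^ n) (s (s x))) = _
    rw [hs]
  have ts : ∀ y, τ.SameCycle (t y) (s y) := fun y => ⟨1, by
    rw [zpow_one, τa, ht]⟩
  have rel : ∀ x y, (orb s t) x y → τ.SameCycle x y ∨ τ.SameCycle x (s y) := by
    intro x y h
    induction h with
    | rel a b hab =>
      rcases hab with rfl | rfl
      · right; rw [hs]
      · right; exact ⟨1, rfl⟩
    | refl a => exact Or.inl (Perm.SameCycle.refl _ _)
    | symm a b _ ih =>
      rcases ih with h | h
      · exact Or.inl h.symm
      · right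
        have := pres _ _ h
        rw [hs] at this
        exact this.symm
    | trans a b c _ _ ih1 ih2 =>
      rcases ih1 with h1 | h1 <;> rcases ih2 with h2 | h2
      · exact Or.inl (h1.trans h2)
      · exact Or.inr (h1.trans h2)
      · exact Or.inr (h1.trans (pres _ _ h2))
      · left
        have := pres _ _ h2
        rw [hs] at this
        exact h1.trans this
  let rep : Y → Y := fun y => (Quotient.mk (orb s t) y).out
  have hrep : ∀ y, (orb s t) (rep y) y := fun y => Quotient.mk_out (s := orb s t) y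
  have reps : ∀ y, rep (s y) = rep y := fun y =>
    congrArg Quotient.out (mk_eq.2 (orb_symm (orb_left y)))
  have rept : ∀ y, rep (t y) = rep y := fun y =>
    congrArg Quotient.out (mk_eq.2 (orb_symm (orb_right y)))
  have excl : ∀ y, ¬ (τ.SameCycle (rep y) y ∧ τ.SameCycle (rep y) (s y)) := fun y h =>
    not_sameCycle S T hS hT fs ft y (h.1.symm.trans h.2)
  have key : ∀ y, (τ.SameCycle (rep y) (s y)) ↔ ¬ τ.SameCycle (rep y) y := by
    intro y
    constructor
    · intro h h'; exact excl y ⟨h', h⟩
    · intro h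
      rcases rel _ _ (hrep y) with h1 | h1
      · exact absurd h1 h
      · exact h1
  refine ⟨fun y => decide (τ.SameCycle (rep y) y), fun y => ?_, fun y => ?_⟩
  · by_cases h : τ.SameCycle (rep y) y
    · simp only [reps, decide_eq_true h, Bool.not_true, decide_eq_false_iff_not]
      intro h'; exact (key y).1 h' h
    · simp only [reps, decide_eq_false h, Bool.not_false, decide_eq_true_eq]
      exact (key y).2 h
  · have ht' : τ.SameCycle (rep y) (t y) ↔ τ.SameCycle (rep y) (s y) :=
      ⟨fun h => h.trans (ts y), fun h => h.trans (ts y).symm⟩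
    by_cases h : τ.SameCycle (rep y) y
    · simp only [rept, decide_eq_true h, Bool.not_true, decide_eq_false_iff_not, ht']
      intro h'; exact (key y).1 h' h
    · simp only [rept, decide_eq_false h, Bool.not_false, decide_eq_true_eq, ht']
      exact (key y).2 h

/-! ### signs -/

/-- `Y` is twice the half `d = false` -/
def halfEquiv {Y : Type} (s : Y → Y) (hs : ∀ y, s (s y) = y) (d : Y → Bool)
    (ds : ∀ y, d (s y) = !d y) : Y ≃ {y // d y = false} × Bool where
  toFun y := if h : d y = false then (⟨y, h⟩, false) else (⟨s y, by rw [ds]; simpa using h⟩, true)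
  invFun p := if p.2 then s p.1 else p.1
  left_inv y := by
    by_cases h : d y = false
    · simp [h]
    · simp [h, hs]
  right_inv := by
    rintro ⟨⟨x, hx⟩, b⟩
    cases b
    · simp [hx]
    · simp [ds, hx, hs]

/-- the sign of a bit -/
def sgnB (b : Bool) : ℤˣ := if b then -1 else 1

/-- exchange `y` and `s y` where `c` holds -/
def swapPerm {Y : Type} (s : Y → Y) (hs : ∀ y, s (s y) = y) (c : Y → Bool)
    (cs : ∀ y, c (s y) = c y) : Perm Y where
  toFun y := if c y then s y else y
  invFun y := if c y then s y else y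
  left_inv y := by by_cases h : c y <;> simp [h, cs, hs]
  right_inv y := by by_cases h : c y <;> simp [h, cs, hs]

theorem sign_swapPerm {Y : Type} [Fintype Y] [DecidableEq Y] (s : Y → Y)
    (hs : ∀ y, s (s y) = y) (c : Y → Bool) (cs : ∀ y, c (s y) = c y) (d : Y → Bool)
    (ds : ∀ y, d (s y) = !d y) :
    Perm.sign (swapPerm s hs c cs) = ∏ y with d y = false, sgnB (c y) := by
  have h1 : Perm.sign (swapPerm s hs c cs) =
      Perm.sign ((halfEquiv s hs d ds).permCongr (swapPerm s hs c cs)) :=
    (Perm.sign_permCongr _ _).symm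
  have h2 : (halfEquiv s hs d ds).permCongr (swapPerm s hs c cs) =
      prodCongrRight (fun x : {y // d y = false} =>
        if c x then (Equiv.boolNot : Perm Bool) else 1) := by
    ext p : 1
    obtain ⟨⟨x, hx⟩, b⟩ := p
    rw [Equiv.permCongr_apply]
    cases b
    · by_cases hc : c x
      · simp [halfEquiv, swapPerm, prodCongrRight, hc, ds, hx, hs]
      · simp [halfEquiv, swapPerm, prodCongrRight, hc, hx]
    · by_cases hc : c x
      · simp [halfEquiv, swapPerm, prodCongrRight, hc, cs, hx, hs]
      · simp [halfEquiv, swapPerm, prodCongrRight, hc, cs, ds, hx, hs]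
  rw [h1, h2, Perm.sign_prodCongrRight]
  have h3 : Perm.sign (Equiv.boolNot : Perm Bool) = -1 := by decide
  rw [Finset.prod_subtype (Finset.univ.filter (fun y => d y = false)) (p := fun y => d y = false)
    (by simp)]
  apply Finset.prod_congr rfl
  intro x _
  unfold sgnB
  split <;> simp_all

theorem sign_of_comm {Y : Type} [Fintype Y] [DecidableEq Y] (s : Y → Y)
    (hs : ∀ y, s (s y) = y) (d : Y → Bool) (ds : ∀ y, d (s y) = !d y) (ρ : Perm Y)
    (h1 : ∀ y, ρ (s y) = s (ρ y)) (h2 : ∀ y, d (ρ y) = d y) : Perm.sign ρ = 1 := by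
  let ρ' : Perm {y // d y = false} := ρ.subtypePerm (fun y => by rw [h2])
  have e1 : Perm.sign ρ = Perm.sign ((halfEquiv s hs d ds).permCongr ρ) :=
    (Perm.sign_permCongr _ _).symm
  have e2 : (halfEquiv s hs d ds).permCongr ρ = prodCongrLeft (fun _ : Bool => ρ') := by
    ext p : 1
    obtain ⟨⟨x, hx⟩, b⟩ := p
    rw [Equiv.permCongr_apply]
    cases b
    · simp [halfEquiv, prodCongrLeft, ρ', h2, hx]
    · simp [halfEquiv, prodCongrLeft, ρ', h1, h2, ds, hx, hs]
  rw [e1, e2, Perm.sign_prodCongrLeft]
  simp only [Fintype.prod_bool]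
  exact Int.units_mul_self _

/-- oriented steps: the voltage is `+1` where `a` holds and `-1` elsewhere -/
def pp {Y : Type} (s : Y → Y) (a : Y → Bool) (p : Y × ZMod 4) : Y × ZMod 4 :=
  (s p.1, p.2 + if a p.1 then 1 else -1)

/-- the step on the double cover -/
def qq {Y : Type} (s : Y → Y) (a d : Y → Bool) (p : Y × Bool) : Y × Bool :=
  (s p.1, xor p.2 (xor (a p.1) (d p.1)))

/-- coordinates on `ZMod 4` -/
def coord (b w t : Bool) : ZMod 4 := (if w then 2 else 0) + (if b then 0 else 1) + (if t then 1 else 0)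

def coordEquiv (b : Bool) : Bool × Bool ≃ ZMod 4 where
  toFun p := coord b p.1 p.2
  invFun z := match b with
    | true => if z = 0 then (false, false) else if z = 1 then (false, true)
        else if z = 2 then (true, false) else (true, true)
    | false => if z = 1 then (false, false) else if z = 2 then (false, true)
        else if z = 3 then (true, false) else (true, true)
  left_inv := by revert b; decide
  right_inv := by revert b; decide

theorem coord_step : ∀ a d w t : Bool,
    coord d w t + (if a then 1 else -1) = coord (!d) (xor w (xor a d)) t := by decide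

def unfoldEquiv {Y : Type} (d : Y → Bool) : (Y × Bool) × Bool ≃ Y × ZMod 4 where
  toFun p := (p.1.1, coordEquiv (d p.1.1) (p.1.2, p.2))
  invFun p := ((p.1, ((coordEquiv (d p.1)).symm p.2).1), ((coordEquiv (d p.1)).symm p.2).2)
  left_inv := by rintro ⟨⟨y, w⟩, t⟩; simp
  right_inv := by rintro ⟨y, z⟩; simp

theorem nOrb_pp {Y : Type} (s t : Y → Y) (a b d : Y → Bool) (ds : ∀ y, d (s y) = !d y)
    (dt : ∀ y, d (t y) = !d y) :
    nOrb (pp s a) (pp t b) = 2 * nOrb (qq s a d) (qq t b d) := by
  rw [← par_nOrb_prod]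
  symm
  apply par_nOrb_congr (unfoldEquiv d)
  · rintro ⟨⟨y, w⟩, r⟩
    refine Prod.ext rfl ?_
    change coord (d (s y)) (xor w (xor (a y) (d y))) r = coord (d y) w r + (if a y then 1 else -1)
    rw [ds, coord_step]
  · rintro ⟨⟨y, w⟩, r⟩
    refine Prod.ext rfl ?_
    change coord (d (t y)) (xor w (xor (b y) (d y))) r = coord (d y) w r + (if b y then 1 else -1)
    rw [dt, coord_step]

theorem pair_lemma {Y : Type} [Fintype Y] [DecidableEq Y] (s t : Y → Y)
    (hs : ∀ y, s (s y) = y) (ht : ∀ y, t (t y) = y) (a b : Y → Bool)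
    (ha : ∀ y, a (s y) = !a y) (hb : ∀ y, b (t y) = !b y) :
    ∃ ρ : Perm Y, (∀ y, ρ (s y) = t (ρ y)) ∧ (∀ y, b (ρ y) = a y) ∧ ∃ K h : ℕ,
      nOrb (pp s a) (pp t b) = 2 * K ∧ Fintype.card Y = 2 * h ∧
        (-1 : ℤˣ) ^ K = (-1) ^ h * Perm.sign ρ * (-1) ^ nOrb s t := by
  have fs : ∀ y, s y ≠ y := fun y h => by
    have := ha y; rw [h] at this; simp at this
  have ft : ∀ y, t y ≠ y := fun y h => by
    have := hb y; rw [h] at this; simp at this
  obtain ⟨d, ds, dt⟩ := exists_bip s t hs ht fs ft
  -- the permutations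
  let κs := swapPerm s hs (fun y => xor (a y) (!d y)) (fun y => by rw [ha, ds]; cases a y <;> cases d y <;> rfl)
  let κt := swapPerm t ht (fun y => xor (b y) (d y)) (fun y => by rw [hb, dt]; cases b y <;> cases d y <;> rfl)
  let π := altPerm s t hs ht d ds dt
  have hπ1 : ∀ y, π (s y) = t (π y) := by
    intro y
    by_cases h : d y
    · simp only [π, altPerm_apply, ds, h]; simp [hs, ht]
    · simp only [π, altPerm_apply, ds, h]; simp
  have hπd : ∀ y, d (π y) = !d y := by
    intro y
    by_cases h : d y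
    · simp only [π, altPerm_apply, h]; simp [dt, h]
    · simp only [π, altPerm_apply, h]; simp [ds, h]
  have hκs1 : ∀ y, κs (s y) = s (κs y) := by
    intro y
    change (if xor (a (s y)) (!d (s y)) then s (s y) else s y) = s (if xor (a y) (!d y) then s y else y)
    rw [ha, ds]
    cases a y <;> cases d y <;> simp
  have hκt1 : ∀ y, κt (t y) = t (κt y) := by
    intro y
    change (if xor (b (t y)) (d (t y)) then t (t y) else t y) = t (if xor (b y) (d y) then t y else y)
    rw [hb, dt]
    cases b y <;> cases d y <;> simp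
  have hκs2 : ∀ y, (!d (κs y)) = a y := by
    intro y
    change (!d (if xor (a y) (!d y) then s y else y)) = a y
    by_cases h : xor (a y) (!d y)
    · rw [if_pos h, ds]; revert h; cases a y <;> cases d y <;> simp
    · rw [if_neg h]; revert h; cases a y <;> cases d y <;> simp
  have hκt2 : ∀ y, b (κt y) = d y := by
    intro y
    change b (if xor (b y) (d y) then t y else y) = d y
    by_cases h : xor (b y) (d y)
    · rw [if_pos h, hb]; revert h; cases b y <;> cases d y <;> simp
    · rw [if_neg h]; revert h; cases b y <;> cases d y <;> simp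
  refine ⟨κt * π * κs, ?_, ?_, nOrb (qq s a d) (qq t b d), Fintype.card {y // d y = false},
    nOrb_pp s t a b d ds dt, card_even s hs d ds, ?_⟩
  · intro y
    simp only [Perm.mul_apply, hκs1, hπ1, hκt1]
  · intro y
    simp only [Perm.mul_apply, hκt2, hπd, hκs2]
  -- the sign of the permutation upstairs
  have hqs : ∀ p, qq s a d (qq s a d p) = p := by
    rintro ⟨y, w⟩
    refine Prod.ext (hs y) ?_
    change xor (xor w (xor (a y) (d y))) (xor (a (s y)) (d (s y))) = w
    rw [ha, ds]; cases a y <;> cases d y <;> cases w <;> rfl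
  have hqt : ∀ p, qq t b d (qq t b d p) = p := by
    rintro ⟨y, w⟩
    refine Prod.ext (ht y) ?_
    change xor (xor w (xor (b y) (d y))) (xor (b (t y)) (d (t y))) = w
    rw [hb, dt]; cases b y <;> cases d y <;> cases w <;> rfl
  have dqs : ∀ p, (fun p : Y × Bool => d p.1) (qq s a d p) = !(fun p : Y × Bool => d p.1) p :=
    fun p => ds p.1
  have dqt : ∀ p, (fun p : Y × Bool => d p.1) (qq t b d p) = !(fun p : Y × Bool => d p.1) p :=
    fun p => dt p.1
  have hP := sign_alt hqs hqt (fun p : Y × Bool => d p.1) dqs dqt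
  have hπs := sign_alt hs ht d ds dt
  have hPe : altPerm (qq s a d) (qq t b d) hqs hqt (fun p : Y × Bool => d p.1) dqs dqt =
      prodCongrLeft (fun _ : Bool => π) * prodCongrRight (fun y : Y =>
        if (if d y then !b y else a y) then (Equiv.boolNot : Perm Bool) else 1) := by
    ext p : 1
    obtain ⟨y, w⟩ := p
    rw [altPerm_apply, Perm.mul_apply]
    by_cases h : d y
    · cases hby : b y <;> cases w <;>
        simp [prodCongrLeft, prodCongrRight, π, altPerm_apply, qq, h, hby]
    · cases hay : a y <;> cases w <;>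
        simp [prodCongrLeft, prodCongrRight, π, altPerm_apply, qq, h, hay]
  rw [hPe, Perm.sign_mul, Perm.sign_prodCongrLeft, Perm.sign_prodCongrRight] at hP
  simp only [Fintype.prod_bool, Int.units_mul_self, one_mul] at hP
  have h3 : Perm.sign (Equiv.boolNot : Perm Bool) = -1 := by decide
  have hs1 : Perm.sign κs = ∏ y with d y = false, sgnB (!a y) := by
    rw [sign_swapPerm s hs _ _ d ds]
    apply Finset.prod_congr rfl
    intro y hy
    rw [Finset.mem_filter] at hy
    rw [hy.2]; cases a y <;> rfl
  have hs2 : Perm.sign κt = ∏ y with d y = true, sgnB (!b y) := by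
    have := sign_swapPerm t ht (fun y => xor (b y) (d y)) (fun y => by rw [hb, dt]; cases b y <;> cases d y <;> rfl)
      (fun y => !d y) (fun y => by rw [dt])
    rw [this]
    have hf : (Finset.univ.filter (fun y => (!d y) = false)) = Finset.univ.filter (fun y => d y = true) := by
      ext y; simp
    rw [hf]
    apply Finset.prod_congr rfl
    intro y hy
    rw [Finset.mem_filter] at hy
    rw [hy.2]; cases b y <;> rfl
  have hP2 : (∏ y : Y, Perm.sign (if (if d y then !b y else a y) then
        (Equiv.boolNot : Perm Bool) else 1)) =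
      (∏ y with d y = false, sgnB (a y)) * ∏ y with d y = true, sgnB (!b y) := by
    rw [← Finset.prod_filter_mul_prod_filter_not Finset.univ (fun y => d y = false)]
    congr 1
    · apply Finset.prod_congr rfl
      intro y hy
      rw [Finset.mem_filter] at hy
      rw [hy.2]
      cases a y <;> simp [sgnB, h3]
    · have hf : (Finset.univ.filter (fun y => ¬ d y = false)) = Finset.univ.filter (fun y => d y = true) := by
        ext y; simp
      rw [hf]
      apply Finset.prod_congr rfl
      intro y hy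
      rw [Finset.mem_filter] at hy
      rw [hy.2]
      cases b y <;> simp [sgnB, h3]
  rw [← hP, hP2, Perm.sign_mul, Perm.sign_mul, hπs, hs1, hs2]
  have hcard : (-1 : ℤˣ) ^ Fintype.card {y // d y = false} =
      (∏ y with d y = false, sgnB (a y)) * ∏ y with d y = false, sgnB (!a y) := by
    rw [← Finset.prod_mul_distrib, Fintype.card_subtype, ← Finset.prod_const]
    apply Finset.prod_congr rfl
    intro y _
    cases a y <;> rfl
  rw [hcard]
  have hsq : ∀ u : ℤˣ, u * u = 1 := Int.units_mul_self
  generalize (∏ y with d y = false, sgnB (a y)) = A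
  generalize (∏ y with d y = false, sgnB (!a y)) = A'
  generalize (∏ y with d y = true, sgnB (!b y)) = B
  generalize ((-1 : ℤˣ) ^ nOrb s t) = N
  have e : A * A' * (B * N * A') * N = A * B * (A' * A') * (N * N) := by
    simp only [mul_comm, mul_left_comm]
  rw [e, hsq, hsq, mul_one, mul_one]

/-- the parity of an element of `ZMod 4` -/
def par4 (v : ZMod 4) : Bool := v = 1 ∨ v = 3

/-- a bit as an element of `ZMod 4` -/
def bit4 (b : Bool) : ZMod 4 := if b then 1 else 0

theorem gauge_aux : ∀ (v : ZMod 4) (E E' : Bool), xor E' (par4 v) = !E →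
    (v + bit4 E' - bit4 E = 1 ∨ v + bit4 E' - bit4 E = -1) := by decide

/-- parity lemma (excludes the projective plane with two cone points) -/
theorem parity_lemma {Y : Type} [Finite Y] (s : Fin 3 → Y → Y) (v : Fin 3 → Y → ZMod 4)
    (inv : ∀ i y, s i (s i y) = y) (vinv : ∀ i y, v i y + v i (s i y) = 0)
    (ε : Y × ZMod 4 → Bool) (hε : ∀ i y z, ε (s i y, z + v i y) = !ε (y, z))
    (hα : ∀ y z, ε (y, z + 1) = !ε (y, z)) :
    ((nOrb (fun p : Y × ZMod 4 => (s 0 p.1, p.2 + v 0 p.1)) (fun p => (s 1 p.1, p.2 + v 1 p.1)) +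
      nOrb (fun p : Y × ZMod 4 => (s 1 p.1, p.2 + v 1 p.1)) (fun p => (s 2 p.1, p.2 + v 2 p.1)) +
      nOrb (fun p : Y × ZMod 4 => (s 0 p.1, p.2 + v 0 p.1))
        (fun p => (s 2 p.1, p.2 + v 2 p.1)) : ℕ) : ℤ) ≡
      2 * ((nOrb (s 0) (s 1) + nOrb (s 1) (s 2) + nOrb (s 0) (s 2) : ℕ) : ℤ) - (Nat.card Y : ℤ)
      [ZMOD 4] := by
  classical
  have := Fintype.ofFinite Y
  have hpar : ∀ y z, ε (y, z) = xor (ε (y, 0)) (par4 z) := by
    intro y z
    have h1 := hα y 0
    have h2 := hα y 1
    have h3 := hα y 2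
    rw [show (0 : ZMod 4) + 1 = 1 by decide] at h1
    rw [show (1 : ZMod 4) + 1 = 2 by decide, h1] at h2
    rw [show (2 : ZMod 4) + 1 = 3 by decide, h2] at h3
    have hz : ∀ z : ZMod 4, z = 0 ∨ z = 1 ∨ z = 2 ∨ z = 3 := by decide
    rcases hz z with rfl | rfl | rfl | rfl
    · rw [show par4 0 = false by decide, Bool.xor_false]
    · rw [show par4 1 = true by decide, h1]; simp
    · rw [show par4 2 = false by decide, h2]; simp
    · rw [show par4 3 = true by decide, h3]; simp
  let V : Fin 3 → Y → ZMod 4 := fun i y => v i y + bit4 (ε (s i y, 0)) - bit4 (ε (y, 0))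
  have hV : ∀ i y, V i y = 1 ∨ V i y = -1 := by
    intro i y
    apply gauge_aux
    have := hε i y 0
    rw [zero_add, hpar] at this
    exact this
  have hVs : ∀ i y, V i (s i y) = - V i y := by
    intro i y
    have h1 : v i (s i y) = - v i y := by
      rw [eq_neg_iff_add_eq_zero, add_comm]; exact vinv i y
    simp only [V, inv, h1]
    ring
  let a : Fin 3 → Y → Bool := fun i y => decide (V i y = 1)
  have ha : ∀ i y, a i (s i y) = !a i y := by
    intro i y
    simp only [a, hVs]
    rcases hV i y with h | h <;> rw [h] <;> decide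
  have hav : ∀ i y, V i y = if a i y then 1 else -1 := by
    intro i y
    rcases hV i y with h | h
    · simp [a, h]
    · rw [h]
      have : a i y = false := by simp only [a, h]; decide
      rw [this]; rfl
  have hg : ∀ i j, nOrb (fun p : Y × ZMod 4 => (s i p.1, p.2 + v i p.1))
      (fun p => (s j p.1, p.2 + v j p.1)) = nOrb (pp (s i) (a i)) (pp (s j) (a j)) := by
    intro i j
    let G : Y × ZMod 4 ≃ Y × ZMod 4 :=
      { toFun := fun p => (p.1, p.2 + bit4 (ε (p.1, 0)))
        invFun := fun p => (p.1, p.2 - bit4 (ε (p.1, 0)))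
        left_inv := by rintro ⟨y, z⟩; simp
        right_inv := by rintro ⟨y, z⟩; simp }
    apply par_nOrb_congr G
    · rintro ⟨y, z⟩
      refine Prod.ext rfl ?_
      change z + v i y + bit4 (ε (s i y, 0)) = z + bit4 (ε (y, 0)) + (if a i y then 1 else -1)
      rw [← hav]
      simp only [V]; ring
    · rintro ⟨y, z⟩
      refine Prod.ext rfl ?_
      change z + v j y + bit4 (ε (s j y, 0)) = z + bit4 (ε (y, 0)) + (if a j y then 1 else -1)
      rw [← hav]
      simp only [V]; ring
  rw [hg, hg, hg]
  obtain ⟨ρ01, c1, d1, K1, h1, e1, f1, g1⟩ := pair_lemma (s 0) (s 1) (inv 0) (inv 1) (a 0) (a 1)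
    (ha 0) (ha 1)
  obtain ⟨ρ12, c2, d2, K2, h2, e2, f2, g2⟩ := pair_lemma (s 1) (s 2) (inv 1) (inv 2) (a 1) (a 2)
    (ha 1) (ha 2)
  obtain ⟨ρ02, c3, d3, K3, h3, e3, f3, g3⟩ := pair_lemma (s 0) (s 2) (inv 0) (inv 2) (a 0) (a 2)
    (ha 0) (ha 2)
  have hsign : Perm.sign (ρ02⁻¹ * ρ12 * ρ01) = 1 := by
    apply sign_of_comm (s 0) (inv 0) (a 0) (ha 0)
    · intro y
      simp only [Perm.mul_apply, c1, c2]
      rw [Perm.inv_eq_iff_eq, c3]
      exact congrArg (s 2) (Equiv.apply_symm_apply ρ02 _).symm
    · intro y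
      simp only [Perm.mul_apply]
      rw [← d3]
      have : ρ02 (ρ02⁻¹ (ρ12 (ρ01 y))) = ρ12 (ρ01 y) := Equiv.apply_symm_apply ρ02 _
      rw [this, d2, d1]
  rw [Perm.sign_mul, Perm.sign_mul, Perm.sign_inv] at hsign
  obtain rfl : h2 = h1 := by omega
  obtain rfl : h3 = h2 := by omega
  have hprod : (-1 : ℤˣ) ^ (K1 + K2 + K3 + h3 + (nOrb (s 0) (s 1) + nOrb (s 1) (s 2) + nOrb (s 0) (s 2))) = 1 := by
    rw [pow_add, pow_add, pow_add, pow_add, pow_add, pow_add, g1, g2, g3]
    have hsq : ∀ u : ℤˣ, u * u = 1 := Int.units_mul_self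
    generalize ((-1 : ℤˣ) ^ nOrb (s 0) (s 1)) = N1
    generalize ((-1 : ℤˣ) ^ nOrb (s 1) (s 2)) = N2
    generalize ((-1 : ℤˣ) ^ nOrb (s 0) (s 2)) = N3
    generalize ((-1 : ℤˣ) ^ h3) = H
    generalize Perm.sign ρ01 = S1 at *
    generalize Perm.sign ρ12 = S2 at *
    generalize Perm.sign ρ02 = S3 at *
    have e : H * S1 * N1 * (H * S2 * N2) * (H * S3 * N3) * H * (N1 * N2 * N3) =
        (H * H) * (H * H) * (S3 * S2 * S1) * (N1 * N1) * (N2 * N2) * (N3 * N3) := by
      simp only [mul_comm, mul_left_comm, mul_assoc]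
    rw [e, hsign]
    simp only [hsq, mul_one]
  have heven : Even (K1 + K2 + K3 + h3 + (nOrb (s 0) (s 1) + nOrb (s 1) (s 2) + nOrb (s 0) (s 2))) := by
    rwa [neg_one_pow_eq_one_iff_even (by decide)] at hprod
  rw [e1, e2, e3, Nat.card_eq_fintype_card, f3]
  obtain ⟨m, hm⟩ := heven
  rw [Int.modEq_iff_dvd]
  refine ⟨(nOrb (s 0) (s 1) + nOrb (s 1) (s 2) + nOrb (s 0) (s 2) : ℕ) - m, ?_⟩
  push_cast
  have hm' : ((K1 : ℤ) + K2 + K3 + h3 + (nOrb (s 0) (s 1) + nOrb (s 1) (s 2) + nOrb (s 0) (s 2))) = m + m := by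
    exact_mod_cast hm
  linarith

end Pool.Agent.SDT
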