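import Pool.Agent.SDT.Base

namespace Pool.Agent.SDT
open Relation

namespace FlagSys
variable (S : FlagSys)

/-- the vertex, the edge and the face of a flag -/
def V (x : S.X) : Faces S := .vertex (Quotient.mk _ x)
def E (x : S.X) : Faces S := .edge (Quotient.mk _ x)
def F (x : S.X) : Faces S := .face (Quotient.mk _ x)

/-- the set of faces of a flag -/
def flagSet (x : S.X) : Set (Faces S) := {.bot, S.V x, S.E x, S.F x, .top}

end FlagSys

variable {S : FlagSys}

theorem V_eq {x y : S.X} : S.V x = S.V y ↔ (orb S.r1 S.r2) x y := by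
  simp [FlagSys.V, mk_eq]
theorem E_eq {x y : S.X} : S.E x = S.E y ↔ (orb S.r0 S.r2) x y := by
  simp [FlagSys.E, mk_eq]
theorem F_eq {x y : S.X} : S.F x = S.F y ↔ (orb S.r0 S.r1) x y := by
  simp [FlagSys.F, mk_eq]

theorem E_eq' {x y : S.X} : S.E x = S.E y ↔ y = x ∨ y = S.r0 x ∨ y = S.r2 x ∨ y = S.r0 (S.r2 x) := by
  rw [E_eq, orb_comm_iff S.inv0 S.inv2 S.comm]

theorem V_r1 (x : S.X) : S.V (S.r1 x) = S.V x := V_eq.2 (orb_symm (orb_left x))
theorem V_r2 (x : S.X) : S.V (S.r2 x) = S.V x := V_eq.2 (orb_symm (orb_right x))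
theorem E_r0 (x : S.X) : S.E (S.r0 x) = S.E x := E_eq.2 (orb_symm (orb_left x))
theorem E_r2 (x : S.X) : S.E (S.r2 x) = S.E x := E_eq.2 (orb_symm (orb_right x))
theorem F_r0 (x : S.X) : S.F (S.r0 x) = S.F x := F_eq.2 (orb_symm (orb_left x))
theorem F_r1 (x : S.X) : S.F (S.r1 x) = S.F x := F_eq.2 (orb_symm (orb_right x))

theorem Faces.le_def (a b : Faces S) : a ≤ b ↔ Faces.le a b := Iff.rfl

theorem Faces.bot_le' (a : Faces S) : Faces.bot ≤ a := by
  cases a <;> simp [Faces.le_def, Faces.le]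
theorem Faces.le_top' (a : Faces S) : a ≤ Faces.top := by
  cases a <;> simp [Faces.le_def, Faces.le]

theorem V_le_E (x : S.X) : S.V x ≤ S.E x := ⟨x, rfl, rfl⟩
theorem V_le_F (x : S.X) : S.V x ≤ S.F x := ⟨x, rfl, rfl⟩
theorem E_le_F (x : S.X) : S.E x ≤ S.F x := ⟨x, rfl, rfl⟩

theorem Faces.strictMono_rk : StrictMono (Faces.rk (S := S)) := by
  intro a b hab
  have hle : Faces.le a b := hab.le
  have hne := hab.ne
  cases a <;> cases b <;> simp_all [Faces.le, Faces.rk]

/-- every face is of one of the five kinds -/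
theorem Faces.cases' (a : Faces S) :
    a = .bot ∨ (∃ x, a = S.V x) ∨ (∃ x, a = S.E x) ∨ (∃ x, a = S.F x) ∨ a = .top := by
  cases a with
  | bot => simp
  | vertex a => obtain ⟨x, rfl⟩ := Quotient.exists_rep a; exact Or.inr (Or.inl ⟨x, rfl⟩)
  | edge a => obtain ⟨x, rfl⟩ := Quotient.exists_rep a; exact Or.inr (Or.inr (Or.inl ⟨x, rfl⟩))
  | face a =>
    obtain ⟨x, rfl⟩ := Quotient.exists_rep a; exact Or.inr (Or.inr (Or.inr (Or.inl ⟨x, rfl⟩)))
  | top => simp

theorem V_le_E_iff {x y : S.X} : S.V x ≤ S.E y ↔ ∃ z, S.V z = S.V x ∧ S.E z = S.E y := by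
  constructor
  · rintro ⟨z, h1, h2⟩
    exact ⟨z, congrArg Faces.vertex h1.symm, congrArg Faces.edge h2.symm⟩
  · rintro ⟨z, h1, h2⟩
    rw [← h1, ← h2]; exact V_le_E z

theorem V_le_F_iff {x y : S.X} : S.V x ≤ S.F y ↔ ∃ z, S.V z = S.V x ∧ S.F z = S.F y := by
  constructor
  · rintro ⟨z, h1, h2⟩
    exact ⟨z, congrArg Faces.vertex h1.symm, congrArg Faces.face h2.symm⟩
  · rintro ⟨z, h1, h2⟩
    rw [← h1, ← h2]; exact V_le_F z

theorem E_le_F_iff {x y : S.X} : S.E x ≤ S.F y ↔ ∃ z, S.E z = S.E x ∧ S.F z = S.F y := by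
  constructor
  · rintro ⟨z, h1, h2⟩
    exact ⟨z, congrArg Faces.edge h1.symm, congrArg Faces.face h2.symm⟩
  · rintro ⟨z, h1, h2⟩
    rw [← h1, ← h2]; exact E_le_F z

/-- a vertex, an edge and a face that are incident have a common flag -/
theorem common_flag {x y z : S.X} (h1 : S.V x ≤ S.E y) (h2 : S.E y ≤ S.F z) :
    ∃ w, S.V w = S.V x ∧ S.E w = S.E y ∧ S.F w = S.F z := by
  obtain ⟨a, ha1, ha2⟩ := V_le_E_iff.1 h1
  obtain ⟨b, hb1, hb2⟩ := E_le_F_iff.1 h2
  have hab : S.E a = S.E b := ha2.trans hb1.symm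
  rcases E_eq'.1 hab with rfl | rfl | rfl | rfl
  · exact ⟨b, ha1, ha2, hb2⟩
  · exact ⟨a, ha1, ha2, by rw [← hb2, F_r0]⟩
  · exact ⟨S.r2 a, by rw [V_r2, ha1], by rw [E_r2, ha2], hb2⟩
  · exact ⟨S.r2 a, by rw [V_r2, ha1], by rw [E_r2, ha2], by rw [← hb2, F_r0]⟩

theorem Polytopal.V_r0 (h : Polytopal S) (x : S.X) : S.V (S.r0 x) ≠ S.V x :=
  fun hh => h.noloop0 x (V_eq.1 hh.symm)
theorem Polytopal.F_r2 (h : Polytopal S) (x : S.X) : S.F (S.r2 x) ≠ S.F x :=
  fun hh => h.noloop2 x (F_eq.1 hh.symm)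

theorem Polytopal.of_VE (h : Polytopal S) {x y : S.X} (hV : S.V x = S.V y) (hE : S.E x = S.E y) :
    y = x ∨ y = S.r2 x := by
  rcases E_eq'.1 hE with rfl | rfl | rfl | rfl
  · exact Or.inl rfl
  · exact absurd hV.symm (h.V_r0 x)
  · exact Or.inr rfl
  · exact absurd (hV.symm.trans (V_r2 x).symm) (h.V_r0 _)

theorem Polytopal.of_EF (h : Polytopal S) {x y : S.X} (hE : S.E x = S.E y) (hF : S.F x = S.F y) :
    y = x ∨ y = S.r0 x := by
  rcases E_eq'.1 hE with rfl | rfl | rfl | rfl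
  · exact Or.inl rfl
  · exact Or.inr rfl
  · exact absurd hF.symm (h.F_r2 x)
  · rw [S.comm] at hF
    exact absurd (hF.symm.trans (F_r0 x).symm) (h.F_r2 _)

theorem Polytopal.of_VF (h : Polytopal S) {x y : S.X} (hV : S.V x = S.V y) (hF : S.F x = S.F y) :
    y = x ∨ y = S.r1 x := h.meet x y (V_eq.1 hV) (F_eq.1 hF)

theorem Polytopal.of_VEF (h : Polytopal S) {x y : S.X} (hV : S.V x = S.V y) (hE : S.E x = S.E y)
    (hF : S.F x = S.F y) : y = x := by
  rcases h.of_VE hV hE with rfl | rfl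
  · rfl
  · exact absurd hF.symm (h.F_r2 x)

theorem Polytopal.E_r1 (h : Polytopal S) (x : S.X) : S.E (S.r1 x) ≠ S.E x := fun hh =>
  h.free1 x (h.of_VEF (V_r1 x).symm hh.symm (F_r1 x).symm)

/-! ### Flags -/

theorem mem_flagSet {x : S.X} {a : Faces S} :
    a ∈ S.flagSet x ↔ a = .bot ∨ a = S.V x ∨ a = S.E x ∨ a = S.F x ∨ a = .top := by
  simp [FlagSys.flagSet]

theorem V_mem_iff {x y : S.X} : S.V y ∈ S.flagSet x ↔ S.V y = S.V x := by
  rw [mem_flagSet]; simp [FlagSys.V, FlagSys.E, FlagSys.F]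
theorem E_mem_iff {x y : S.X} : S.E y ∈ S.flagSet x ↔ S.E y = S.E x := by
  rw [mem_flagSet]; simp [FlagSys.V, FlagSys.E, FlagSys.F]
theorem F_mem_iff {x y : S.X} : S.F y ∈ S.flagSet x ↔ S.F y = S.F x := by
  rw [mem_flagSet]; simp [FlagSys.V, FlagSys.E, FlagSys.F]

theorem isChain_flagSet (x : S.X) : IsChain (· ≤ ·) (S.flagSet x) := by
  intro a ha b hb _
  rw [mem_flagSet] at ha hb
  rcases ha with rfl | rfl | rfl | rfl | rfl
  · exact Or.inl (Faces.bot_le' _)
  · rcases hb with rfl | rfl | rfl | rfl | rfl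
    · exact Or.inr (Faces.bot_le' _)
    · exact Or.inl le_rfl
    · exact Or.inl (V_le_E x)
    · exact Or.inl (V_le_F x)
    · exact Or.inl (Faces.le_top' _)
  · rcases hb with rfl | rfl | rfl | rfl | rfl
    · exact Or.inr (Faces.bot_le' _)
    · exact Or.inr (V_le_E x)
    · exact Or.inl le_rfl
    · exact Or.inl (E_le_F x)
    · exact Or.inl (Faces.le_top' _)
  · rcases hb with rfl | rfl | rfl | rfl | rfl
    · exact Or.inr (Faces.bot_le' _)
    · exact Or.inr (V_le_F x)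
    · exact Or.inr (E_le_F x)
    · exact Or.inl le_rfl
    · exact Or.inl (Faces.le_top' _)
  · exact Or.inr (Faces.le_top' _)

theorem chain_V {t : Set (Faces S)} (ht : IsChain (· ≤ ·) t) {x y : S.X} (hx : S.V x ∈ t)
    (hy : S.V y ∈ t) : S.V x = S.V y := by
  by_contra hne
  rcases ht hx hy hne with h | h
  · exact hne (congrArg Faces.vertex h)
  · exact hne (congrArg Faces.vertex h).symm

theorem chain_E {t : Set (Faces S)} (ht : IsChain (· ≤ ·) t) {x y : S.X} (hx : S.E x ∈ t)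
    (hy : S.E y ∈ t) : S.E x = S.E y := by
  by_contra hne
  rcases ht hx hy hne with h | h
  · exact hne (congrArg Faces.edge h)
  · exact hne (congrArg Faces.edge h).symm

theorem chain_F {t : Set (Faces S)} (ht : IsChain (· ≤ ·) t) {x y : S.X} (hx : S.F x ∈ t)
    (hy : S.F y ∈ t) : S.F x = S.F y := by
  by_contra hne
  rcases ht hx hy hne with h | h
  · exact hne (congrArg Faces.face h)
  · exact hne (congrArg Faces.face h).symm

theorem chain_VE {t : Set (Faces S)} (ht : IsChain (· ≤ ·) t) {x y : S.X} (hx : S.V x ∈ t)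
    (hy : S.E y ∈ t) : S.V x ≤ S.E y := by
  rcases ht hx hy (by simp [FlagSys.V, FlagSys.E]) with h | h
  · exact h
  · exact h.elim

theorem chain_VF {t : Set (Faces S)} (ht : IsChain (· ≤ ·) t) {x y : S.X} (hx : S.V x ∈ t)
    (hy : S.F y ∈ t) : S.V x ≤ S.F y := by
  rcases ht hx hy (by simp [FlagSys.V, FlagSys.F]) with h | h
  · exact h
  · exact h.elim

theorem chain_EF {t : Set (Faces S)} (ht : IsChain (· ≤ ·) t) {x y : S.X} (hx : S.E x ∈ t)
    (hy : S.F y ∈ t) : S.E x ≤ S.F y := by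
  rcases ht hx hy (by simp [FlagSys.E, FlagSys.F]) with h | h
  · exact h
  · exact h.elim

/-- every chain is contained in the set of faces of a flag -/
theorem chain_subset [Nonempty S.X] {t : Set (Faces S)} (ht : IsChain (· ≤ ·) t) :
    ∃ x, t ⊆ S.flagSet x := by
  have key : ∃ w, (∀ x, S.V x ∈ t → S.V x = S.V w) ∧ (∀ x, S.E x ∈ t → S.E x = S.E w) ∧
      (∀ x, S.F x ∈ t → S.F x = S.F w) := by
    by_cases hV : ∃ x, S.V x ∈ t
    · obtain ⟨x, hx⟩ := hV
      by_cases hE : ∃ y, S.E y ∈ t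
      · obtain ⟨y, hy⟩ := hE
        by_cases hF : ∃ z, S.F z ∈ t
        · obtain ⟨z, hz⟩ := hF
          obtain ⟨w, h1, h2, h3⟩ := common_flag (chain_VE ht hx hy) (chain_EF ht hy hz)
          exact ⟨w, fun a ha => (chain_V ht ha hx).trans h1.symm,
            fun a ha => (chain_E ht ha hy).trans h2.symm,
            fun a ha => (chain_F ht ha hz).trans h3.symm⟩
        · obtain ⟨w, h1, h2⟩ := V_le_E_iff.1 (chain_VE ht hx hy)
          exact ⟨w, fun a ha => (chain_V ht ha hx).trans h1.symm,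
            fun a ha => (chain_E ht ha hy).trans h2.symm, fun a ha => (hF ⟨a, ha⟩).elim⟩
      · by_cases hF : ∃ z, S.F z ∈ t
        · obtain ⟨z, hz⟩ := hF
          obtain ⟨w, h1, h2⟩ := V_le_F_iff.1 (chain_VF ht hx hz)
          exact ⟨w, fun a ha => (chain_V ht ha hx).trans h1.symm, fun a ha => (hE ⟨a, ha⟩).elim,
            fun a ha => (chain_F ht ha hz).trans h2.symm⟩
        · exact ⟨x, fun a ha => chain_V ht ha hx, fun a ha => (hE ⟨a, ha⟩).elim,
            fun a ha => (hF ⟨a, ha⟩).elim⟩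
    · by_cases hE : ∃ y, S.E y ∈ t
      · obtain ⟨y, hy⟩ := hE
        by_cases hF : ∃ z, S.F z ∈ t
        · obtain ⟨z, hz⟩ := hF
          obtain ⟨w, h1, h2⟩ := E_le_F_iff.1 (chain_EF ht hy hz)
          exact ⟨w, fun a ha => (hV ⟨a, ha⟩).elim, fun a ha => (chain_E ht ha hy).trans h1.symm,
            fun a ha => (chain_F ht ha hz).trans h2.symm⟩
        · exact ⟨y, fun a ha => (hV ⟨a, ha⟩).elim, fun a ha => chain_E ht ha hy,
            fun a ha => (hF ⟨a, ha⟩).elim⟩
      · by_cases hF : ∃ z, S.F z ∈ t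
        · obtain ⟨z, hz⟩ := hF
          exact ⟨z, fun a ha => (hV ⟨a, ha⟩).elim, fun a ha => (hE ⟨a, ha⟩).elim,
            fun a ha => chain_F ht ha hz⟩
        · exact ⟨Classical.arbitrary _, fun a ha => (hV ⟨a, ha⟩).elim,
            fun a ha => (hE ⟨a, ha⟩).elim, fun a ha => (hF ⟨a, ha⟩).elim⟩
  obtain ⟨w, h1, h2, h3⟩ := key
  refine ⟨w, fun b hb => ?_⟩
  rw [mem_flagSet]
  rcases b.cases' with rfl | ⟨x, rfl⟩ | ⟨x, rfl⟩ | ⟨x, rfl⟩ | rfl
  · exact Or.inl rfl
  · exact Or.inr (Or.inl (h1 x hb))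
  · exact Or.inr (Or.inr (Or.inl (h2 x hb)))
  · exact Or.inr (Or.inr (Or.inr (Or.inl (h3 x hb))))
  · exact Or.inr (Or.inr (Or.inr (Or.inr rfl)))

theorem flagSet_subset_iff {x y : S.X} :
    S.flagSet x ⊆ S.flagSet y ↔ S.V x = S.V y ∧ S.E x = S.E y ∧ S.F x = S.F y := by
  constructor
  · intro h
    exact ⟨V_mem_iff.1 (h (mem_flagSet.2 (by simp))), E_mem_iff.1 (h (mem_flagSet.2 (by simp))),
      F_mem_iff.1 (h (mem_flagSet.2 (by simp)))⟩
  · rintro ⟨h1, h2, h3⟩
    simp [FlagSys.flagSet, h1, h2, h3]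

/-- the flag `x` as a maximal chain -/
def flagOf [Nonempty S.X] (x : S.X) : Flag (Faces S) where
  carrier := S.flagSet x
  Chain' := isChain_flagSet x
  max_chain' := by
    intro t ht hsub
    obtain ⟨y, hy⟩ := chain_subset ht
    refine hsub.antisymm (hy.trans ?_)
    obtain ⟨h1, h2, h3⟩ := flagSet_subset_iff.1 (hsub.trans hy)
    exact flagSet_subset_iff.2 ⟨h1.symm, h2.symm, h3.symm⟩

theorem coe_flagOf [Nonempty S.X] (x : S.X) : (flagOf x : Set (Faces S)) = S.flagSet x := rfl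

/-- every flag of `Faces S` comes from an element of `S.X` -/
theorem exists_flagOf [Nonempty S.X] (A : Flag (Faces S)) : ∃ x, A = flagOf x := by
  obtain ⟨x, hx⟩ := chain_subset A.Chain'
  refine ⟨x, Flag.ext ?_⟩
  exact A.max_chain' (isChain_flagSet x) hx

theorem Polytopal.flagOf_injective (h : Polytopal S) [Nonempty S.X] :
    Function.Injective (flagOf (S := S)) := by
  intro x y hxy
  have h1 : S.flagSet x ⊆ S.flagSet y := by
    rw [← coe_flagOf, ← coe_flagOf, hxy]
  obtain ⟨hV, hE, hF⟩ := flagSet_subset_iff.1 h1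
  exact (h.of_VEF hV hE hF).symm

theorem diff_flagSet_V {x y : S.X} (hV : S.V x ≠ S.V y) (hE : S.E x = S.E y)
    (hF : S.F x = S.F y) : S.flagSet x \ S.flagSet y = {S.V x} := by
  ext b
  simp only [Set.mem_sdiff, Set.mem_singleton_iff]
  constructor
  · rintro ⟨h1, h2⟩
    rcases mem_flagSet.1 h1 with rfl | rfl | rfl | rfl | rfl
    · exact (h2 (mem_flagSet.2 (by simp))).elim
    · rfl
    · exact (h2 (E_mem_iff.2 hE)).elim
    · exact (h2 (F_mem_iff.2 hF)).elim
    · exact (h2 (mem_flagSet.2 (by simp))).elim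
  · rintro rfl
    exact ⟨mem_flagSet.2 (by simp), fun h => hV (V_mem_iff.1 h)⟩

theorem diff_flagSet_E {x y : S.X} (hV : S.V x = S.V y) (hE : S.E x ≠ S.E y)
    (hF : S.F x = S.F y) : S.flagSet x \ S.flagSet y = {S.E x} := by
  ext b
  simp only [Set.mem_sdiff, Set.mem_singleton_iff]
  constructor
  · rintro ⟨h1, h2⟩
    rcases mem_flagSet.1 h1 with rfl | rfl | rfl | rfl | rfl
    · exact (h2 (mem_flagSet.2 (by simp))).elim
    · exact (h2 (V_mem_iff.2 hV)).elim
    · rfl
    · exact (h2 (F_mem_iff.2 hF)).elim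
    · exact (h2 (mem_flagSet.2 (by simp))).elim
  · rintro rfl
    exact ⟨mem_flagSet.2 (by simp), fun h => hE (E_mem_iff.1 h)⟩

theorem diff_flagSet_F {x y : S.X} (hV : S.V x = S.V y) (hE : S.E x = S.E y)
    (hF : S.F x ≠ S.F y) : S.flagSet x \ S.flagSet y = {S.F x} := by
  ext b
  simp only [Set.mem_sdiff, Set.mem_singleton_iff]
  constructor
  · rintro ⟨h1, h2⟩
    rcases mem_flagSet.1 h1 with rfl | rfl | rfl | rfl | rfl
    · exact (h2 (mem_flagSet.2 (by simp))).elim
    · exact (h2 (V_mem_iff.2 hV)).elim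
    · exact (h2 (E_mem_iff.2 hE)).elim
    · rfl
    · exact (h2 (mem_flagSet.2 (by simp))).elim
  · rintro rfl
    exact ⟨mem_flagSet.2 (by simp), fun h => hF (F_mem_iff.1 h)⟩

/-- adjacency of flags -/
theorem flagAdj_iff' [Nonempty S.X] {x y : S.X} : FlagAdj (flagOf x) (flagOf y) ↔
    (S.V x ≠ S.V y ∧ S.E x = S.E y ∧ S.F x = S.F y) ∨
    (S.V x = S.V y ∧ S.E x ≠ S.E y ∧ S.F x = S.F y) ∨
    (S.V x = S.V y ∧ S.E x = S.E y ∧ S.F x ≠ S.F y) := by
  constructor
  · rintro ⟨h1, -⟩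
    rw [coe_flagOf, coe_flagOf, Set.ncard_eq_one] at h1
    obtain ⟨a, ha⟩ := h1
    have mV : S.V x ≠ S.V y → S.V x = a := fun h => by
      have : S.V x ∈ S.flagSet x \ S.flagSet y :=
        ⟨mem_flagSet.2 (by simp), fun h' => h (V_mem_iff.1 h')⟩
      rwa [ha] at this
    have mE : S.E x ≠ S.E y → S.E x = a := fun h => by
      have : S.E x ∈ S.flagSet x \ S.flagSet y :=
        ⟨mem_flagSet.2 (by simp), fun h' => h (E_mem_iff.1 h')⟩
      rwa [ha] at this
    have mF : S.F x ≠ S.F y → S.F x = a := fun h => by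
      have : S.F x ∈ S.flagSet x \ S.flagSet y :=
        ⟨mem_flagSet.2 (by simp), fun h' => h (F_mem_iff.1 h')⟩
      rwa [ha] at this
    by_cases hV : S.V x = S.V y
    · by_cases hE : S.E x = S.E y
      · by_cases hF : S.F x = S.F y
        · have : S.flagSet x \ S.flagSet y = ∅ :=
            Set.sdiff_eq_empty.2 (flagSet_subset_iff.2 ⟨hV, hE, hF⟩)
          rw [this] at ha
          exact (Set.singleton_ne_empty a ha.symm).elim
        · exact Or.inr (Or.inr ⟨hV, hE, hF⟩)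
      · by_cases hF : S.F x = S.F y
        · exact Or.inr (Or.inl ⟨hV, hE, hF⟩)
        · have := (mE hE).trans (mF hF).symm
          simp [FlagSys.E, FlagSys.F] at this
    · by_cases hE : S.E x = S.E y
      · by_cases hF : S.F x = S.F y
        · exact Or.inl ⟨hV, hE, hF⟩
        · have := (mV hV).trans (mF hF).symm
          simp [FlagSys.V, FlagSys.F] at this
      · have := (mV hV).trans (mE hE).symm
        simp [FlagSys.V, FlagSys.E] at this
  · rintro (⟨hV, hE, hF⟩ | ⟨hV, hE, hF⟩ | ⟨hV, hE, hF⟩)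
    · refine ⟨?_, ?_⟩
      · rw [coe_flagOf, coe_flagOf, diff_flagSet_V hV hE hF, Set.ncard_singleton]
      · rw [coe_flagOf, coe_flagOf, diff_flagSet_V hV.symm hE.symm hF.symm, Set.ncard_singleton]
    · refine ⟨?_, ?_⟩
      · rw [coe_flagOf, coe_flagOf, diff_flagSet_E hV hE hF, Set.ncard_singleton]
      · rw [coe_flagOf, coe_flagOf, diff_flagSet_E hV.symm hE.symm hF.symm, Set.ncard_singleton]
    · refine ⟨?_, ?_⟩
      · rw [coe_flagOf, coe_flagOf, diff_flagSet_F hV hE hF, Set.ncard_singleton]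
      · rw [coe_flagOf, coe_flagOf, diff_flagSet_F hV.symm hE.symm hF.symm, Set.ncard_singleton]

theorem Polytopal.flagAdj_iff (h : Polytopal S) [Nonempty S.X] {x y : S.X} :
    FlagAdj (flagOf x) (flagOf y) ↔ y = S.r0 x ∨ y = S.r1 x ∨ y = S.r2 x := by
  rw [flagAdj_iff']
  constructor
  · rintro (⟨hV, hE, hF⟩ | ⟨hV, hE, hF⟩ | ⟨hV, hE, hF⟩)
    · rcases h.of_EF hE hF with rfl | rfl
      · exact (hV rfl).elim
      · exact Or.inl rfl
    · rcases h.of_VF hV hF with rfl | rfl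
      · exact (hE rfl).elim
      · exact Or.inr (Or.inl rfl)
    · rcases h.of_VE hV hE with rfl | rfl
      · exact (hF rfl).elim
      · exact Or.inr (Or.inr rfl)
  · rintro (rfl | rfl | rfl)
    · exact Or.inl ⟨(h.V_r0 x).symm, (E_r0 x).symm, (F_r0 x).symm⟩
    · exact Or.inr (Or.inl ⟨(V_r1 x).symm, (h.E_r1 x).symm, (F_r1 x).symm⟩)
    · exact Or.inr (Or.inr ⟨(V_r2 x).symm, (E_r2 x).symm, (h.F_r2 x).symm⟩)

theorem ncard_flagSet (x : S.X) : (S.flagSet x).ncard = 5 := by
  unfold FlagSys.flagSet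
  rw [Set.ncard_insert_of_notMem (by simp [FlagSys.V, FlagSys.E, FlagSys.F]) (Set.toFinite _),
    Set.ncard_insert_of_notMem (by simp [FlagSys.V, FlagSys.E, FlagSys.F]) (Set.toFinite _),
    Set.ncard_insert_of_notMem (by simp [FlagSys.E, FlagSys.F]) (Set.toFinite _),
    Set.ncard_insert_of_notMem (by simp [FlagSys.F]) (Set.toFinite _), Set.ncard_singleton]

theorem inter_subset {x y z : S.X} (hV : S.V x = S.V y → S.V z = S.V x)
    (hE : S.E x = S.E y → S.E z = S.E x) (hF : S.F x = S.F y → S.F z = S.F x) :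
    S.flagSet x ∩ S.flagSet y ⊆ S.flagSet z := by
  rintro b ⟨h1, h2⟩
  rcases mem_flagSet.1 h1 with rfl | rfl | rfl | rfl | rfl
  · exact mem_flagSet.2 (by simp)
  · exact V_mem_iff.2 (hV (V_mem_iff.1 h2)).symm
  · exact E_mem_iff.2 (hE (E_mem_iff.1 h2)).symm
  · exact F_mem_iff.2 (hF (F_mem_iff.1 h2)).symm
  · exact mem_flagSet.2 (by simp)

theorem reflTransGen_of_orb {X : Type} {f g : X → X} (hf : ∀ x, f (f x) = x)
    (hg : ∀ x, g (g x) = x) {x y : X} (h : (orb f g) x y) :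
    ReflTransGen (fun a b => b = f a ∨ b = g a) x y := by
  have h' : EqvGen (fun a b => b = f a ∨ b = g a) x y := h
  clear h
  induction h' with
  | rel a b hab => exact ReflTransGen.single hab
  | refl a => exact ReflTransGen.refl
  | symm a b _ ih =>
    have hs : Std.Symm (fun a b => b = f a ∨ b = g a) := by
      constructor
      rintro u v (rfl | rfl)
      · exact Or.inl (hf u).symm
      · exact Or.inr (hg u).symm
    exact (ReflTransGen.stdSymm (r := fun a b => b = f a ∨ b = g a)).symm _ _ ih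
  | trans a b c _ _ ih1 ih2 => exact ih1.trans ih2

theorem reflTransGen_of_conn {X : Type} {f g h : X → X} (hf : ∀ x, f (f x) = x)
    (hg : ∀ x, g (g x) = x) (hh : ∀ x, h (h x) = x) {x y : X}
    (hxy : EqvGen (fun a b => b = f a ∨ b = g a ∨ b = h a) x y) :
    ReflTransGen (fun a b => b = f a ∨ b = g a ∨ b = h a) x y := by
  induction hxy with
  | rel a b hab => exact ReflTransGen.single hab
  | refl a => exact ReflTransGen.refl
  | symm a b _ ih =>
    have hs : Std.Symm (fun a b => b = f a ∨ b = g a ∨ b = h a) := by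
      constructor
      rintro u v (rfl | rfl | rfl)
      · exact Or.inl (hf u).symm
      · exact Or.inr (Or.inl (hg u).symm)
      · exact Or.inr (Or.inr (hh u).symm)
    exact (ReflTransGen.stdSymm (r := fun a b => b = f a ∨ b = g a ∨ b = h a)).symm _ _ ih
  | trans a b c _ _ ih1 ih2 => exact ih1.trans ih2

/-- lifting a path of flags, all of whose members satisfy `I` -/
theorem lift_path (h : Polytopal S) [Nonempty S.X] {R : S.X → S.X → Prop}
    (hR : ∀ a b, R a b → b = S.r0 a ∨ b = S.r1 a ∨ b = S.r2 a) (I : S.X → Prop)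
    (hI : ∀ a b, R a b → I a → I b) (T : Set (Faces S))
    (hT : ∀ a, I a → T ⊆ S.flagSet a) {x y : S.X} (hx : I x) (hxy : ReflTransGen R x y) :
    ReflTransGen (fun C D : Flag (Faces S) => FlagAdj C D ∧ T ⊆ D) (flagOf x) (flagOf y) ∧ I y := by
  induction hxy with
  | refl => exact ⟨ReflTransGen.refl, hx⟩
  | tail _ hab ih =>
    obtain ⟨h1, h2⟩ := ih
    have h3 := hI _ _ hab h2
    exact ⟨h1.tail ⟨(h.flagAdj_iff).2 (hR _ _ hab), hT _ h3⟩, h3⟩

theorem Polytopal.connected (h : Polytopal S) (A B : Flag (Faces S)) :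
    ReflTransGen (fun C D : Flag (Faces S) => FlagAdj C D ∧ (A : Set (Faces S)) ∩ B ⊆ D) A B := by
  have := h.nonempty
  obtain ⟨x, rfl⟩ := exists_flagOf A
  obtain ⟨y, rfl⟩ := exists_flagOf B
  rw [coe_flagOf, coe_flagOf]
  by_cases hV : S.V x = S.V y
  · by_cases hE : S.E x = S.E y
    · rcases h.of_VE hV hE with rfl | rfl
      · exact ReflTransGen.refl
      · exact ReflTransGen.single ⟨h.flagAdj_iff.2 (Or.inr (Or.inr rfl)), Set.inter_subset_right⟩
    · by_cases hF : S.F x = S.F y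
      · rcases h.of_VF hV hF with rfl | rfl
        · exact ReflTransGen.refl
        · exact ReflTransGen.single ⟨h.flagAdj_iff.2 (Or.inr (Or.inl rfl)),
            Set.inter_subset_right⟩
      · exact (lift_path h (R := fun a b => b = S.r1 a ∨ b = S.r2 a)
          (fun a b hab => Or.inr hab) (fun z => S.V z = S.V x)
          (by
            rintro a b (rfl | rfl) ha
            · exact (V_r1 a).trans ha
            · exact (V_r2 a).trans ha) _
          (fun a ha => inter_subset (fun _ => ha) (fun hh => (hE hh).elim)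
            (fun hh => (hF hh).elim)) rfl
          (reflTransGen_of_orb S.inv1 S.inv2 (V_eq.1 hV))).1
  · by_cases hE : S.E x = S.E y
    · by_cases hF : S.F x = S.F y
      · rcases h.of_EF hE hF with rfl | rfl
        · exact ReflTransGen.refl
        · exact ReflTransGen.single ⟨h.flagAdj_iff.2 (Or.inl rfl), Set.inter_subset_right⟩
      · exact (lift_path h (R := fun a b => b = S.r0 a ∨ b = S.r2 a)
          (fun a b hab => hab.elim (fun h => Or.inl h) (fun h => Or.inr (Or.inr h)))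
          (fun z => S.E z = S.E x)
          (by
            rintro a b (rfl | rfl) ha
            · exact (E_r0 a).trans ha
            · exact (E_r2 a).trans ha) _
          (fun a ha => inter_subset (fun hh => (hV hh).elim) (fun _ => ha)
            (fun hh => (hF hh).elim)) rfl
          (reflTransGen_of_orb S.inv0 S.inv2 (E_eq.1 hE))).1
    · by_cases hF : S.F x = S.F y
      · exact (lift_path h (R := fun a b => b = S.r0 a ∨ b = S.r1 a)
          (fun a b hab => hab.elim (fun h => Or.inl h) (fun h => Or.inr (Or.inl h)))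
          (fun z => S.F z = S.F x)
          (by
            rintro a b (rfl | rfl) ha
            · exact (F_r0 a).trans ha
            · exact (F_r1 a).trans ha) _
          (fun a ha => inter_subset (fun hh => (hV hh).elim) (fun hh => (hE hh).elim)
            (fun _ => ha)) rfl
          (reflTransGen_of_orb S.inv0 S.inv1 (F_eq.1 hF))).1
      · exact (lift_path h (R := fun a b => b = S.r0 a ∨ b = S.r1 a ∨ b = S.r2 a)
          (fun a b hab => hab) (fun _ => True) (fun _ _ _ _ => trivial) _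
          (fun a _ => inter_subset (fun hh => (hV hh).elim) (fun hh => (hE hh).elim)
            (fun hh => (hF hh).elim)) trivial
          (reflTransGen_of_conn S.inv0 S.inv1 S.inv2 (h.conn x y))).1

theorem bot_lt_V (x : S.X) : (Faces.bot : Faces S) < S.V x :=
  lt_of_le_of_ne (Faces.bot_le' _) (by simp [FlagSys.V])
theorem V_lt_E (x : S.X) : S.V x < S.E x := lt_of_le_of_ne (V_le_E x) (by simp [FlagSys.V, FlagSys.E])
theorem E_lt_F (x : S.X) : S.E x < S.F x := lt_of_le_of_ne (E_le_F x) (by simp [FlagSys.F, FlagSys.E])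
theorem F_lt_top (x : S.X) : S.F x < (Faces.top : Faces S) :=
  lt_of_le_of_ne (Faces.le_top' _) (by simp [FlagSys.F])

theorem rk_bot : Faces.rk (S := S) .bot = -1 := rfl
theorem rk_V (x : S.X) : Faces.rk (S.V x) = 0 := rfl
theorem rk_E (x : S.X) : Faces.rk (S.E x) = 1 := rfl
theorem rk_F (x : S.X) : Faces.rk (S.F x) = 2 := rfl
theorem rk_top : Faces.rk (S := S) .top = 3 := rfl

theorem between_rk {a b c : Faces S} (h1 : a < b) (h2 : b < c) (h3 : c.rk - a.rk = 2) :
    b.rk = a.rk + 1 := by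
  have := Faces.strictMono_rk h1
  have := Faces.strictMono_rk h2
  omega

theorem Polytopal.diamond (h : Polytopal S) (G H : Faces S) (hGH : G < H)
    (hrk : H.rk - G.rk = 2) : {K | G < K ∧ K < H}.ncard = 2 := by
  rcases G.cases' with rfl | ⟨x, rfl⟩ | ⟨x, rfl⟩ | ⟨x, rfl⟩ | rfl
  · rcases H.cases' with rfl | ⟨y, rfl⟩ | ⟨y, rfl⟩ | ⟨y, rfl⟩ | rfl
    · simp [rk_bot] at hrk
    · simp [rk_bot, rk_V] at hrk
    · have : {K | (Faces.bot : Faces S) < K ∧ K < S.E y} = {S.V y, S.V (S.r0 y)} := by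
        ext K
        simp only [Set.mem_ofPred_eq, Set.mem_insert_iff, Set.mem_singleton_iff]
        constructor
        · rintro ⟨h1, h2⟩
          have h3 := between_rk h1 h2 hrk
          rcases K.cases' with rfl | ⟨z, rfl⟩ | ⟨z, rfl⟩ | ⟨z, rfl⟩ | rfl
          · exact (lt_irrefl _ h1).elim
          · obtain ⟨w, hw1, hw2⟩ := V_le_E_iff.1 h2.le
            rw [← hw1]
            rcases E_eq'.1 hw2.symm with rfl | rfl | rfl | rfl
            · exact Or.inl rfl
            · exact Or.inr rfl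
            · exact Or.inl (V_r2 _)
            · rw [S.comm]; exact Or.inr (V_r2 _)
          · simp [rk_bot, rk_E] at h3
          · simp [rk_bot, rk_F] at h3
          · simp [rk_bot, rk_top] at h3
        · rintro (rfl | rfl)
          · exact ⟨bot_lt_V _, V_lt_E _⟩
          · exact ⟨bot_lt_V _, (E_r0 y) ▸ V_lt_E _⟩
      rw [this, Set.ncard_pair (h.V_r0 y).symm]
    · simp [rk_bot, rk_F] at hrk
    · simp [rk_bot, rk_top] at hrk
  · rcases H.cases' with rfl | ⟨y, rfl⟩ | ⟨y, rfl⟩ | ⟨y, rfl⟩ | rfl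
    · simp [rk_bot, rk_V] at hrk
    · simp [rk_V] at hrk
    · simp [rk_V, rk_E] at hrk
    · obtain ⟨w, hw1, hw2⟩ := V_le_F_iff.1 hGH.le
      rw [← hw1, ← hw2]
      have : {K | S.V w < K ∧ K < S.F w} = {S.E w, S.E (S.r1 w)} := by
        ext K
        simp only [Set.mem_ofPred_eq, Set.mem_insert_iff, Set.mem_singleton_iff]
        constructor
        · rintro ⟨h1, h2⟩
          have h3 := between_rk h1 h2 (by simp [rk_V, rk_F])
          rcases K.cases' with rfl | ⟨z, rfl⟩ | ⟨z, rfl⟩ | ⟨z, rfl⟩ | rfl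
          · simp [rk_bot, rk_V] at h3
          · simp [rk_V] at h3
          · obtain ⟨u, hu1, hu2, hu3⟩ := common_flag h1.le h2.le
            rw [← hu2]
            rcases h.of_VF hu1.symm hu3.symm with rfl | rfl
            · exact Or.inl rfl
            · exact Or.inr rfl
          · simp [rk_V, rk_F] at h3
          · simp [rk_V, rk_top] at h3
        · rintro (rfl | rfl)
          · exact ⟨V_lt_E _, E_lt_F _⟩
          · exact ⟨(V_r1 w) ▸ V_lt_E _, (F_r1 w) ▸ E_lt_F _⟩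
      rw [this, Set.ncard_pair (h.E_r1 w).symm]
    · simp [rk_V, rk_top] at hrk
  · rcases H.cases' with rfl | ⟨y, rfl⟩ | ⟨y, rfl⟩ | ⟨y, rfl⟩ | rfl
    · simp [rk_bot, rk_E] at hrk
    · simp [rk_V, rk_E] at hrk
    · simp [rk_E] at hrk
    · simp [rk_E, rk_F] at hrk
    · have : {K | S.E x < K ∧ K < (Faces.top : Faces S)} = {S.F x, S.F (S.r2 x)} := by
        ext K
        simp only [Set.mem_ofPred_eq, Set.mem_insert_iff, Set.mem_singleton_iff]
        constructor
        · rintro ⟨h1, h2⟩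
          have h3 := between_rk h1 h2 hrk
          rcases K.cases' with rfl | ⟨z, rfl⟩ | ⟨z, rfl⟩ | ⟨z, rfl⟩ | rfl
          · simp [rk_bot, rk_E] at h3
          · simp [rk_V, rk_E] at h3
          · simp [rk_E] at h3
          · obtain ⟨w, hw1, hw2⟩ := E_le_F_iff.1 h1.le
            rw [← hw2]
            rcases E_eq'.1 hw1.symm with rfl | rfl | rfl | rfl
            · exact Or.inl rfl
            · exact Or.inl (F_r0 _)
            · exact Or.inr rfl
            · exact Or.inr (F_r0 _)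
          · simp [rk_E, rk_top] at h3
        · rintro (rfl | rfl)
          · exact ⟨E_lt_F _, F_lt_top _⟩
          · exact ⟨(E_r2 x) ▸ E_lt_F _, F_lt_top _⟩
      rw [this, Set.ncard_pair (h.F_r2 x).symm]
  · rcases H.cases' with rfl | ⟨y, rfl⟩ | ⟨y, rfl⟩ | ⟨y, rfl⟩ | rfl
    · simp [rk_bot, rk_F] at hrk
    · simp [rk_V, rk_F] at hrk
    · simp [rk_F, rk_E] at hrk
    · simp [rk_F] at hrk
    · simp [rk_F, rk_top] at hrk
  · have h1 := Faces.strictMono_rk hGH
    rcases H.cases' with rfl | ⟨y, rfl⟩ | ⟨y, rfl⟩ | ⟨y, rfl⟩ | rfl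
    · simp [rk_bot, rk_top] at h1
    · simp [rk_V, rk_top] at h1
    · simp [rk_top, rk_E] at h1
    · simp [rk_F, rk_top] at h1
    · simp [rk_top] at h1

/-- the faces of a polytopal flag system form a polyhedron -/
theorem Polytopal.isPolyhedron {S : FlagSys} (h : Polytopal S) :
    IsPolyhedron (Faces S) (Faces.rk (S := S)) := by
  have := h.nonempty
  obtain ⟨x⟩ := h.nonempty
  refine ⟨Faces.strictMono_rk, ?_, ⟨.bot, rfl, Faces.bot_le'⟩, ⟨.top, rfl, Faces.le_top'⟩, ?_,
    h.diamond, h.connected⟩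
  · ext k
    simp only [Set.mem_range, Set.mem_insert_iff, Set.mem_singleton_iff]
    constructor
    · rintro ⟨a, rfl⟩
      cases a <;> simp [Faces.rk]
    · rintro (rfl | rfl | rfl | rfl | rfl)
      · exact ⟨.bot, rfl⟩
      · exact ⟨S.V x, rfl⟩
      · exact ⟨S.E x, rfl⟩
      · exact ⟨S.F x, rfl⟩
      · exact ⟨.top, rfl⟩
  · intro A
    obtain ⟨y, rfl⟩ := exists_flagOf A
    exact ncard_flagSet y

/-! ### Functoriality -/

theorem orb_mapB {X Y : Type} {f g : X → X} {f' g' : Y → Y} {e : X → Y}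
    (hf : ∀ x, e (f x) = f' (e x)) (hg : ∀ x, e (g x) = g' (e x)) {x y : X}
    (h : (orb f g) x y) : (orb f' g') (e x) (e y) := by
  have h' : EqvGen (fun a b => b = f a ∨ b = g a) x y := h
  clear h
  induction h' with
  | rel a b hab =>
    rcases hab with rfl | rfl
    · rw [hf]; exact orb_left _
    · rw [hg]; exact orb_right _
  | refl a => exact orb_refl _
  | symm a b _ ih => exact orb_symm ih
  | trans a b c _ _ ih1 ih2 => exact orb_trans ih1 ih2

/-- the map of faces induced by a map of flag systems -/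
def Faces.map {S T : FlagSys} (e : S.X → T.X) (h0 : ∀ x, e (S.r0 x) = T.r0 (e x))
    (h1 : ∀ x, e (S.r1 x) = T.r1 (e x)) (h2 : ∀ x, e (S.r2 x) = T.r2 (e x)) :
    Faces S → Faces T
  | .bot => .bot
  | .vertex a => .vertex (Quotient.map e (fun _ _ h => orb_mapB h1 h2 h) a)
  | .edge a => .edge (Quotient.map e (fun _ _ h => orb_mapB h0 h2 h) a)
  | .face a => .face (Quotient.map e (fun _ _ h => orb_mapB h0 h1 h) a)
  | .top => .top

theorem Faces.map_mono {S T : FlagSys} (e : S.X → T.X) (h0 : ∀ x, e (S.r0 x) = T.r0 (e x))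
    (h1 : ∀ x, e (S.r1 x) = T.r1 (e x)) (h2 : ∀ x, e (S.r2 x) = T.r2 (e x)) :
    Monotone (Faces.map e h0 h1 h2) := by
  intro a b hab
  rcases a.cases' with rfl | ⟨x, rfl⟩ | ⟨x, rfl⟩ | ⟨x, rfl⟩ | rfl
  · exact Faces.bot_le' _
  · rcases b.cases' with rfl | ⟨y, rfl⟩ | ⟨y, rfl⟩ | ⟨y, rfl⟩ | rfl
    · exact hab.elim
    · have : S.V x = S.V y := congrArg Faces.vertex hab
      rw [this]
    · obtain ⟨z, h3, h4⟩ := V_le_E_iff.1 hab
      rw [← h3, ← h4]
      exact V_le_E (S := T) (e z)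
    · obtain ⟨z, h3, h4⟩ := V_le_F_iff.1 hab
      rw [← h3, ← h4]
      exact V_le_F (S := T) (e z)
    · exact Faces.le_top' _
  · rcases b.cases' with rfl | ⟨y, rfl⟩ | ⟨y, rfl⟩ | ⟨y, rfl⟩ | rfl
    · exact hab.elim
    · exact hab.elim
    · have : S.E x = S.E y := congrArg Faces.edge hab
      rw [this]
    · obtain ⟨z, h3, h4⟩ := E_le_F_iff.1 hab
      rw [← h3, ← h4]
      exact E_le_F (S := T) (e z)
    · exact Faces.le_top' _
  · rcases b.cases' with rfl | ⟨y, rfl⟩ | ⟨y, rfl⟩ | ⟨y, rfl⟩ | rfl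
    · exact hab.elim
    · exact hab.elim
    · exact hab.elim
    · have : S.F x = S.F y := congrArg Faces.face hab
      rw [this]
    · exact Faces.le_top' _
  · rcases b.cases' with rfl | ⟨y, rfl⟩ | ⟨y, rfl⟩ | ⟨y, rfl⟩ | rfl
    · exact hab.elim
    · exact hab.elim
    · exact hab.elim
    · exact hab.elim
    · exact Faces.le_top' _

/-- isomorphic flag systems have isomorphic posets of faces -/
theorem faces_congr {S T : FlagSys} (e : S.X ≃ T.X) (h0 : ∀ x, e (S.r0 x) = T.r0 (e x))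
    (h1 : ∀ x, e (S.r1 x) = T.r1 (e x)) (h2 : ∀ x, e (S.r2 x) = T.r2 (e x)) :
    Nonempty (Faces S ≃o Faces T) := by
  have k0 : ∀ x, e.symm (T.r0 x) = S.r0 (e.symm x) := fun x => by
    rw [Equiv.symm_apply_eq, h0, Equiv.apply_symm_apply]
  have k1 : ∀ x, e.symm (T.r1 x) = S.r1 (e.symm x) := fun x => by
    rw [Equiv.symm_apply_eq, h1, Equiv.apply_symm_apply]
  have k2 : ∀ x, e.symm (T.r2 x) = S.r2 (e.symm x) := fun x => by
    rw [Equiv.symm_apply_eq, h2, Equiv.apply_symm_apply]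
  have l1 : Function.LeftInverse (Faces.map e.symm k0 k1 k2) (Faces.map e h0 h1 h2) := by
    intro a
    rcases a.cases' with rfl | ⟨x, rfl⟩ | ⟨x, rfl⟩ | ⟨x, rfl⟩ | rfl
    · rfl
    · simp [FlagSys.V, Faces.map]
    · simp [FlagSys.E, Faces.map]
    · simp [FlagSys.F, Faces.map]
    · rfl
  have l2 : Function.RightInverse (Faces.map e.symm k0 k1 k2) (Faces.map e h0 h1 h2) := by
    intro a
    rcases a.cases' with rfl | ⟨x, rfl⟩ | ⟨x, rfl⟩ | ⟨x, rfl⟩ | rfl
    · rfl
    · simp [FlagSys.V, Faces.map]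
    · simp [FlagSys.E, Faces.map]
    · simp [FlagSys.F, Faces.map]
    · rfl
  refine ⟨⟨⟨Faces.map e h0 h1 h2, Faces.map e.symm k0 k1 k2, l1, l2⟩, ?_⟩⟩
  intro a b
  constructor
  · intro hab
    have := Faces.map_mono e.symm k0 k1 k2 hab
    simp only [Equiv.coe_fn_mk] at this
    rwa [l1, l1] at this
  · intro hab
    exact Faces.map_mono e h0 h1 h2 hab

end Pool.Agent.SDT
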