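import Pool.Agent.SDT.Count
import Pool.Agent.SDT.Parity

/-! The classification of toral data into the seven types. -/

namespace Pool.Agent.SDT
open Relation

namespace Datum

variable (D : Datum)

/-- number of flags at one- or two-sided cells -/
noncomputable def T2 (D : Datum) : ℕ := Nat.card {y : D.Y // D.turn (D.turn y) = y}
/-- number of flags at one-sided cells -/
noncomputable def T1 (D : Datum) : ℕ := Nat.card {y : D.Y // D.turn y = y}
/-- number of vertices of the unfolded structure fixed by the rotation of order two -/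
noncomputable def tv (D : Datum) : ℕ :=
  Nat.card {C : Quotient (orb (PP D.s1 D.v1) (PP D.s2 D.v2)) //
    trV D.s1 D.s2 D.v1 D.v2 (half D.k) C = C}

theorem card_empty_of {α : Type} {P : α → Prop} (h : ∀ a, ¬ P a) : Nat.card {a // P a} = 0 := by
  rw [Nat.card_eq_zero]; exact Or.inl ⟨fun a => h a.1 a.2⟩

theorem T1_le_T2 : D.T1 ≤ D.T2 := by
  have := D.finite
  refine Nat.card_le_card_of_injective
    (fun y : {y : D.Y // D.turn y = y} => (⟨y.1, by rw [y.2, y.2]⟩ :
      {y : D.Y // D.turn (D.turn y) = y})) ?_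
  intro a b hab
  exact Subtype.ext (congrArg (fun y => y.1) hab)

theorem turn_eq_of_T1_eq_T2 (h : D.T1 = D.T2) : ∀ y, D.turn (D.turn y) = y → D.turn y = y := by
  have := D.finite
  let f : {y : D.Y // D.turn y = y} → {y : D.Y // D.turn (D.turn y) = y} :=
    fun y => ⟨y.1, by rw [y.2, y.2]⟩
  have hf : Function.Injective f := fun a b hab => Subtype.ext (congrArg (fun y => y.1) hab)
  have : Fintype {y : D.Y // D.turn y = y} := Fintype.ofFinite _
  have : Fintype {y : D.Y // D.turn (D.turn y) = y} := Fintype.ofFinite _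
  have hb : Function.Bijective f := by
    rw [Fintype.bijective_iff_injective_and_card]
    refine ⟨hf, ?_⟩
    rw [← Nat.card_eq_fintype_card, ← Nat.card_eq_fintype_card]
    exact h
  intro y hy
  obtain ⟨a, ha⟩ := hb.2 ⟨y, hy⟩
  have : a.1 = y := congrArg (fun y => y.1) ha
  rw [← this]
  exact a.2

/-- the genus of the quotient of the unfolded structure by the rotation of order two -/
theorem half_genus {D : Datum} (ht : D.Toral) (hk : 2 ≤ D.k) :
    ∃ g : ℕ, 2 ^ (D.k - 1) * D.T2 + 4 * D.tv + 16 * g = 16 := by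
  have := D.finite
  have := D.nonempty
  have hne : NeZero (2 ^ D.k) := ⟨by positivity⟩
  have hne1 : NeZero (2 ^ (D.k - 1)) := ⟨by positivity⟩
  obtain ⟨ε, c, e0, e1, e2, hc⟩ := ht.eps
  set π := redHalf D.k with hπ
  have hsurj : Function.Surjective π := redHalf_surj D.k
  have hker : ∀ x, π x = 0 ↔ x = 0 ∨ x = half D.k := redHalf_eq_zero D.hk
  let q0 := PP D.s0 (fun y => π (D.v0 y))
  let q1 := PP D.s1 (fun y => π (D.v1 y))
  let q2 := PP D.s2 (fun y => π (D.v2 y))
  have i0 : ∀ x, q0 (q0 x) = x := by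
    rintro ⟨y, z⟩
    simp only [q0, PP, D.inv0, add_assoc, ← map_add, D.vinv0, map_zero, add_zero]
  have i1 : ∀ x, q1 (q1 x) = x := by
    rintro ⟨y, z⟩
    simp only [q1, PP, D.inv1, add_assoc, ← map_add, D.vinv1, map_zero, add_zero]
  have i2 : ∀ x, q2 (q2 x) = x := by
    rintro ⟨y, z⟩
    simp only [q2, PP, D.inv2, add_assoc, ← map_add, D.vinv2, map_zero, add_zero]
  have c02 : ∀ x, q0 (q2 x) = q2 (q0 x) := by
    rintro ⟨y, z⟩
    simp only [q0, q2, PP, D.comm, add_assoc, ← map_add, D.vcomm]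
  let lift : ZMod (2 ^ (D.k - 1)) → ZMod (2 ^ D.k) := fun b => Classical.choose (hsurj b)
  have hlift : ∀ b, π (lift b) = b := fun b => Classical.choose_spec (hsurj b)
  let ε2 : D.Y × ZMod (2 ^ (D.k - 1)) → Bool := fun x => ε (x.1, lift x.2)
  have hε2 : ∀ y z, ε2 (y, π z) = ε (y, z) := by
    intro y z
    have h0 : π (lift (π z) - z) = 0 := by rw [map_sub, hlift, sub_self]
    have hev : Even (lift (π z) - z) := by
      rcases (hker _).1 h0 with h | h
      · rw [h]; exact Even.zero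
      · rw [h]; exact even_half hk
    have := eps_even hc y z _ hev
    rw [add_sub_cancel] at this
    exact this
  have E0 : ∀ x, ε2 (q0 x) = !ε2 x := by
    rintro ⟨y, z⟩
    obtain ⟨z, rfl⟩ := hsurj z
    have : q0 (y, π z) = (D.s0 y, π (z + D.v0 y)) := by simp only [q0, PP, map_add]
    rw [this, hε2, hε2]
    exact e0 (y, z)
  have E1 : ∀ x, ε2 (q1 x) = !ε2 x := by
    rintro ⟨y, z⟩
    obtain ⟨z, rfl⟩ := hsurj z
    have : q1 (y, π z) = (D.s1 y, π (z + D.v1 y)) := by simp only [q1, PP, map_add]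
    rw [this, hε2, hε2]
    exact e1 (y, z)
  have E2 : ∀ x, ε2 (q2 x) = !ε2 x := by
    rintro ⟨y, z⟩
    obtain ⟨z, rfl⟩ := hsurj z
    have : q2 (y, π z) = (D.s2 y, π (z + D.v2 y)) := by simp only [q2, PP, map_add]
    rw [this, hε2, hε2]
    exact e2 (y, z)
  have hconn : ∀ x y, EqvGen (fun a b => b = q0 a ∨ b = q1 a ∨ b = q2 a) x y := by
    rintro ⟨y, z⟩ ⟨y', z'⟩
    obtain ⟨z, rfl⟩ := hsurj z
    obtain ⟨z', rfl⟩ := hsurj z'
    refine eqvGen_map (fun p : D.R => (p.1, π p.2))
      (r' := fun a b => b = q0 a ∨ b = q1 a ∨ b = q2 a) ?_ (ht.conn (y, z) (y', z'))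
    rintro ⟨u, w⟩ _ (rfl | rfl | rfl)
    · left; simp only [q0, PP, p0, map_add]
    · right; left; simp only [q1, PP, p1, map_add]
    · right; right; simp only [q2, PP, p2, map_add]
  obtain ⟨g, hg⟩ := genus_flags q0 q1 q2 i0 i1 i2 ε2 E0 E1 E2 hconn
  refine ⟨g, ?_⟩
  have hE := edge_count q0 q2 i0 i2 c02
  have z1 : Nat.card {y // q0 (q2 y) = y} = 0 := by
    refine card_empty_of ?_
    rintro ⟨y, z⟩ h
    exact D.noFold_of_two_le hk y (congrArg Prod.fst h)
  have z2 : Nat.card {y // q2 y = y} = 0 := by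
    refine card_empty_of ?_
    rintro ⟨y, z⟩ h
    exact D.free2 y (congrArg Prod.fst h)
  have z3 : Nat.card {y // q0 y = y} = 0 := by
    refine card_empty_of ?_
    rintro ⟨y, z⟩ h
    exact D.noMirror_of_two_le hk y (congrArg Prod.fst h)
  have z4 : Nat.card {y // q1 y = y} = 0 := by
    refine card_empty_of ?_
    rintro ⟨y, z⟩ h
    exact D.free1 y (congrArg Prod.fst h)
  have h4 : ∀ y, q0 (q1 (q0 (q1 (q0 (q1 (q0 (q1 y))))))) = y := by
    rintro ⟨y, z⟩
    obtain ⟨z, rfl⟩ := hsurj z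
    have := D.turn4_R (y, z)
    have h2 := congrArg (fun p : D.R => (p.1, π p.2)) this
    simp only [p0, p1, map_add] at h2
    simp only [q0, q1, PP]
    exact h2
  have hF := face_count q0 q1 i0 i1 h4
  have z5 : Nat.card {y // q0 (q1 y) = y} = 0 := by
    refine card_empty_of ?_
    rintro ⟨y, z⟩ h
    have h2 : z + π (D.v1 y) + π (D.v0 (D.s1 y)) = z := congrArg Prod.snd h
    have h3 : π (D.w y) = 0 := by
      rw [w, map_add]
      have : z + (π (D.v1 y) + π (D.v0 (D.s1 y))) = z := by rw [← add_assoc]; exact h2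
      simpa using this
    rcases (hker _).1 h3 with h4 | h4
    · exact odd_ne_zero D.hk (D.w_odd y) h4
    · exact not_odd_half hk (h4 ▸ D.w_odd y)
  have z6 : Nat.card {y // q0 (q1 (q0 (q1 y))) = y} = D.T2 * 2 ^ (D.k - 1) := by
    have e : {y // q0 (q1 (q0 (q1 y))) = y} ≃
        {y : D.Y // D.turn (D.turn y) = y} × ZMod (2 ^ (D.k - 1)) :=
      { toFun := fun x => (⟨x.1.1, congrArg Prod.fst x.2⟩, x.1.2)
        invFun := fun x => ⟨(x.1.1, x.2), by
          obtain ⟨⟨y, hy⟩, z⟩ := x
          have h1 := D.turn_turn_w hy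
          have h2 : π (D.w y + D.w (D.turn y)) = 0 := by
            rw [h1]; exact (hker _).2 (Or.inr rfl)
          simp only [w, map_add] at h2
          refine Prod.ext hy ?_
          change z + π (D.v1 y) + π (D.v0 (D.s1 y)) + π (D.v1 (D.turn y)) +
            π (D.v0 (D.s1 (D.turn y))) = z
          linear_combination h2⟩
        left_inv := fun x => rfl
        right_inv := fun x => rfl }
    rw [Nat.card_congr e, Nat.card_prod, Nat.card_zmod]; rfl
  have hV := level_count D.s1 D.s2 D.v1 D.v2 π hsurj (half D.k) hker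
  have hN : Nat.card (D.Y × ZMod (2 ^ (D.k - 1))) = Nat.card D.Y * 2 ^ (D.k - 1) := by
    rw [Nat.card_prod, Nat.card_zmod]
  have hR : 8 * nOrb (PP D.s1 D.v1) (PP D.s2 D.v2) = Nat.card D.Y * 2 ^ (D.k - 1) * 2 := by
    have h1 : 8 * nOrb (PP D.s1 D.v1) (PP D.s2 D.v2) = Nat.card D.R := ht.torus
    rw [h1, D.card_R, mul_assoc, ← pow_succ, Nat.sub_add_cancel D.hk]
  rw [z1, z2, z3, hN] at hE
  rw [z3, z4, z5, z6, hN] at hF
  rw [hN] at hg
  change 2 * nOrb q1 q2 = _ + D.tv at hV
  rw [mul_comm (2 ^ (D.k - 1))]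
  generalize hA : Nat.card D.Y * 2 ^ (D.k - 1) = A at *
  generalize hB : D.T2 * 2 ^ (D.k - 1) = B at *
  omega

/-- the genus of the quotient surface, if it is orientable -/
theorem genus_Y {ε : D.Y → Bool} (h : ∀ y, ε (D.s0 y) = !ε y ∧ ε (D.s1 y) = !ε y ∧
    ε (D.s2 y) = !ε y) : ∃ g : ℕ, 2 * (D.numF + D.numV + D.numE) + 4 * g = Nat.card D.Y + 4 := by
  have := D.finite
  have := D.nonempty
  exact genus_flags D.s0 D.s1 D.s2 D.inv0 D.inv1 D.inv2 ε (fun y => (h y).1)
    (fun y => (h y).2.1) (fun y => (h y).2.2) D.conn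

theorem card_H_of_noFold (h : D.NoFold) : Nat.card {y // D.s0 (D.s2 y) = y} = 0 :=
  card_empty_of h

theorem card_M_of_noMirror (h : D.NoMirror) : Nat.card {y // D.s0 y = y} = 0 :=
  card_empty_of h

theorem T2_of_squares (h : D.Squares) : D.T2 = 0 := card_empty_of h

theorem T1_of_squares (h : D.Squares) : D.T1 = 0 := by
  have h1 := D.T1_le_T2
  rw [D.T2_of_squares h] at h1
  omega

theorem squares_of_T2 (h : D.T2 = 0) : D.Squares := by
  intro y hy
  have := D.finite
  rw [T2, Nat.card_eq_zero] at h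
  rcases h with h | h
  · exact h.false ⟨y, hy⟩
  · exact h.false

theorem noMirror_of_orient {ε : D.Y → Bool} (h : ∀ y, ε (D.s0 y) = !ε y) : D.NoMirror := by
  intro y hy
  have := h y
  rw [hy] at this
  revert this
  cases ε y <;> simp

theorem Alternating.noFold {D : Datum} (h : D.Alternating) : D.NoFold := by
  obtain ⟨ε, hε⟩ := h
  intro y hy
  have h1 := (hε (D.s2 y)).1
  rw [hy, (hε y).2.2] at h1
  revert h1
  cases ε y <;> simp

theorem Alternating.turn_ne {D : Datum} (h : D.Alternating) (y : D.Y) : D.turn y ≠ y := by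
  obtain ⟨ε, hε⟩ := h
  intro hy
  have h1 := (hε (D.s1 y)).1
  rw [(hε y).2.1] at h1
  change D.s0 (D.s1 y) = y at hy
  rw [hy] at h1
  revert h1
  cases ε y <;> simp

theorem Alternating.T1 {D : Datum} (h : D.Alternating) : D.T1 = 0 := card_empty_of h.turn_ne

/-- orientable and alternating without mirrors imply bipartite -/
theorem bipartite_of {D : Datum} (ha : D.Alternating) (ho : D.Orientable) (hm : D.NoMirror) :
    D.Bipartite := by
  obtain ⟨ε, hε⟩ := ha
  obtain ⟨ε', hε'⟩ := ho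
  refine ⟨fun y => xor (ε y) (ε' y), fun y => ⟨?_, ?_, ?_⟩⟩
  · change xor (ε (D.s0 y)) (ε' (D.s0 y)) = !(xor (ε y) (ε' y))
    rw [(hε y).1, (hε' y).1 (hm y)]
    cases ε y <;> cases ε' y <;> rfl
  · change xor (ε (D.s1 y)) (ε' (D.s1 y)) = (xor (ε y) (ε' y))
    rw [(hε y).2.1, (hε' y).2.1]
    cases ε y <;> cases ε' y <;> rfl
  · change xor (ε (D.s2 y)) (ε' (D.s2 y)) = (xor (ε y) (ε' y))
    rw [(hε y).2.2, (hε' y).2.2]
    cases ε y <;> cases ε' y <;> rfl

theorem tv_of_flat (hf : D.Flat) : D.tv = 0 := by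
  refine card_empty_of ?_
  intro C
  induction C using Quotient.inductionOn with
  | h p =>
    intro h
    rw [trV_mk, mk_eq] at h
    have h2 := (D.flat_orb hf).1 h
    have h3 : half D.k = 0 := by simpa using h2.2
    exact half_ne D.hk h3

theorem card_split {α : Type} [Finite α] {P Q : α → Prop} (h : ∀ a, P a → Q a) :
    Nat.card {a // Q a} = Nat.card {a // P a} + Nat.card {a // ¬ P a ∧ Q a} := by
  classical
  have := Fintype.ofFinite α
  simp only [Nat.card_eq_fintype_card, Fintype.card_subtype]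
  rw [← Finset.card_union_of_disjoint]
  · congr 1
    ext a
    simp only [Finset.mem_filter, Finset.mem_univ, true_and, Finset.mem_union]
    constructor
    · intro ha
      by_cases hp : P a
      · exact Or.inl hp
      · exact Or.inr ⟨hp, ha⟩
    · rintro (hp | hp)
      · exact h a hp
      · exact hp.2
  · rw [Finset.disjoint_filter]
    intro a _ hp hq
    exact hq.1 hp

theorem T2_split : D.T2 = D.T1 + Nat.card {y : D.Y // D.turn y ≠ y ∧ D.turn (D.turn y) = y} := by
  have := D.finite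
  exact card_split (P := fun y => D.turn y = y) (Q := fun y => D.turn (D.turn y) = y)
    (fun y hy => by rw [hy, hy])

/-! ### counting in the unfolded structure -/

theorem p0_ne (p : D.R) : D.p0 p ≠ p := by
  intro h
  have h2 : p.2 + D.v0 p.1 = p.2 := congrArg Prod.snd h
  have h3 : D.v0 p.1 = 0 := by simpa using h2
  exact odd_ne_zero D.hk (D.odd0 _) h3

theorem p0_p2_ne (p : D.R) : D.p0 (D.p2 p) ≠ p := by
  intro h
  have h2 : p.2 + D.v2 p.1 + D.v0 (D.s2 p.1) = p.2 := congrArg Prod.snd h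
  have h3 : D.v2 p.1 + D.v0 (D.s2 p.1) = 0 := by
    rw [add_assoc] at h2
    simpa using h2
  exact odd_ne_zero D.hk ((D.even2 _).add_odd (D.odd0 _)) h3

theorem p0_p1_ne (p : D.R) : D.p0 (D.p1 p) ≠ p := by
  intro h
  have h2 : p.2 + D.v1 p.1 + D.v0 (D.s1 p.1) = p.2 := congrArg Prod.snd h
  have h3 : D.v1 p.1 + D.v0 (D.s1 p.1) = 0 := by
    rw [add_assoc] at h2
    simpa using h2
  exact odd_ne_zero D.hk (D.w_odd _) h3

theorem p1_ne (p : D.R) : D.p1 p ≠ p := fun h => D.free1 p.1 (congrArg Prod.fst h)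
theorem p2_ne (p : D.R) : D.p2 p ≠ p := fun h => D.free2 p.1 (congrArg Prod.fst h)

theorem p0101_ne (p : D.R) : D.p0 (D.p1 (D.p0 (D.p1 p))) ≠ p := by
  intro h
  refine D.turn2 p.1 (congrArg Prod.fst h) ?_
  have h2 : p.2 + D.v1 p.1 + D.v0 (D.s1 p.1) + D.v1 (D.s0 (D.s1 p.1)) +
    D.v0 (D.s1 (D.s0 (D.s1 p.1))) = p.2 := congrArg Prod.snd h
  linear_combination h2

theorem count_E_R : 4 * nOrb D.p0 D.p2 = Nat.card D.R := by
  have := D.finite
  have hne : NeZero (2 ^ D.k) := ⟨by positivity⟩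
  have h := edge_count D.p0 D.p2 D.p0_p0 D.p2_p2 D.p0_p2
  rw [card_empty_of D.p0_p2_ne, card_empty_of D.p2_ne, card_empty_of D.p0_ne] at h
  omega

theorem count_F_R : 8 * nOrb D.p0 D.p1 = Nat.card D.R := by
  have := D.finite
  have hne : NeZero (2 ^ D.k) := ⟨by positivity⟩
  have h := face_count D.p0 D.p1 D.p0_p0 D.p1_p1 D.turn4_R
  rw [card_empty_of D.p0_p1_ne, card_empty_of D.p1_ne, card_empty_of D.p0_ne,
    card_empty_of D.p0101_ne] at h
  omega

theorem parity_lemma' {Y : Type} [Finite Y] {n : ℕ} (hn : n = 4) (s : Fin 3 → Y → Y)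
    (v : Fin 3 → Y → ZMod n)
    (inv : ∀ i y, s i (s i y) = y) (vinv : ∀ i y, v i y + v i (s i y) = 0)
    (ε : Y × ZMod n → Bool) (hε : ∀ i y z, ε (s i y, z + v i y) = !ε (y, z))
    (hα : ∀ y z, ε (y, z + 1) = !ε (y, z)) :
    ((nOrb (fun p : Y × ZMod n => (s 0 p.1, p.2 + v 0 p.1)) (fun p => (s 1 p.1, p.2 + v 1 p.1)) +
      nOrb (fun p : Y × ZMod n => (s 1 p.1, p.2 + v 1 p.1)) (fun p => (s 2 p.1, p.2 + v 2 p.1)) +
      nOrb (fun p : Y × ZMod n => (s 0 p.1, p.2 + v 0 p.1))
        (fun p => (s 2 p.1, p.2 + v 2 p.1)) : ℕ) : ℤ) ≡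
      2 * ((nOrb (s 0) (s 1) + nOrb (s 1) (s 2) + nOrb (s 0) (s 2) : ℕ) : ℤ) - (Nat.card Y : ℤ)
      [ZMOD 4] := by
  subst hn
  exact parity_lemma s v inv vinv ε hε hα

/-- an orientation reversing duality of order four has no short cells and no branched vertices -/
theorem parity_contra {D : Datum} (ht : D.Toral) (hk2 : D.k = 2) {ε : D.R → Bool}
    (e0 : ∀ p, ε (D.p0 p) = !ε p) (e1 : ∀ p, ε (D.p1 p) = !ε p) (e2 : ∀ p, ε (D.p2 p) = !ε p)
    (hc : ∀ y z, ε (y, z + 1) = xor true (ε (y, z)))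
    (hsum : 2 * (D.numF + D.numV + D.numE) = Nat.card D.Y + 2) : False := by
  have := D.finite
  have h := parity_lemma' (n := 2 ^ D.k) (by rw [hk2]; norm_num)
    (fun i => match i with | 0 => D.s0 | 1 => D.s1 | 2 => D.s2)
    (fun i => match i with | 0 => D.v0 | 1 => D.v1 | 2 => D.v2)
    (by intro i y; fin_cases i; exacts [D.inv0 y, D.inv1 y, D.inv2 y])
    (by intro i y; fin_cases i; exacts [D.vinv0 y, D.vinv1 y, D.vinv2 y])
    ε (by intro i y z; fin_cases i; exacts [e0 (y, z), e1 (y, z), e2 (y, z)])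
    (by intro y z; rw [hc]; simp)
  change ((nOrb D.p0 D.p1 + nOrb D.p1 D.p2 + nOrb D.p0 D.p2 : ℕ) : ℤ) ≡
      2 * ((D.numF + D.numV + D.numE : ℕ) : ℤ) - (Nat.card D.Y : ℤ) [ZMOD 4] at h
  have h1 := D.count_E_R
  have h2 := D.count_F_R
  have h3 := ht.torus
  have h4 : Nat.card D.R = Nat.card D.Y * 4 := by rw [D.card_R, hk2]; norm_num
  have hE := D.count_E
  rw [D.card_H_of_noFold (D.noFold_of_two_le (by omega)),
    D.card_M_of_noMirror (D.noMirror_of_two_le (by omega))] at hE
  rw [Int.ModEq] at h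
  omega

/-- Toral flat data are admissible. -/
theorem flat_admissible {D : Datum} (ht : D.Toral) (hf : D.Flat) : D.Admissible := by
  have hfin := D.finite
  have hnon := D.nonempty
  have hpos : 0 < Nat.card D.Y := Nat.card_pos
  obtain ⟨ε, c, e0, e1, e2, hc⟩ := ht.eps
  have hE := D.count_E
  have hF := D.count_F
  have hV := D.numV_eq ht hf
  change 8 * D.numF = Nat.card D.Y + 2 * D.T1 + D.T2 + _ at hF
  rcases Nat.lt_or_ge D.k 2 with hk | hk
  · -- `k = 1`
    have hk1 : D.k = 1 := by have := D.hk; omega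
    have hsq := D.squares_of_one hk1
    rw [D.T1_of_squares hsq, D.T2_of_squares hsq] at hF
    cases c with
    | false =>
      obtain ⟨ε', hε'⟩ := orientable_of_false e0 e1 e2 hc
      have hm := D.noMirror_of_orient (fun y => (hε' y).1)
      have ho : D.Orientable := ⟨ε', fun y => ⟨fun _ => (hε' y).1, (hε' y).2⟩⟩
      obtain ⟨g, hg⟩ := D.genus_Y hε'
      rw [D.card_M_of_noMirror hm] at hE hF
      by_cases hH : Nat.card {y // D.s0 (D.s2 y) = y} = 0
      · left
        rw [hH] at hE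
        refine ⟨hf, hsq, hm, ?_, ho, not_bipartite ht, by omega⟩
        intro y hy
        rw [Nat.card_eq_zero] at hH
        rcases hH with h | h
        · exact h.false ⟨y, hy⟩
        · exact h.false
      · right; right; left
        refine ⟨hk1, hf, hsq, hm, ho, by omega, by omega⟩
    | true =>
      have ha := alternating_of_true e0 e1 e2 hc
      have hnf := ha.noFold
      rw [D.card_H_of_noFold hnf] at hE
      have hsum : D.numV + D.numF = D.numE := by omega
      by_cases hm : D.NoMirror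
      · right; left
        exact ⟨hf, hsq, hm, hnf, fun ho => not_bipartite ht (bipartite_of ha ho hm), ha, hsum⟩
      · by_cases ho : D.Orientable
        · right; right; right; right; right; left
          exact ⟨hk1, hf, hsq, hm, hnf, ho, ha, hsum⟩
        · right; right; right; right; right; right
          exact ⟨hk1, hf, hsq, hm, hnf, ho, ha, hsum⟩
  · -- `k ≥ 2`
    have hm := D.noMirror_of_two_le hk
    have hnf := D.noFold_of_two_le hk
    rw [D.card_M_of_noMirror hm] at hE hF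
    rw [D.card_H_of_noFold hnf] at hE
    obtain ⟨g, hg⟩ := half_genus ht hk
    rw [D.tv_of_flat hf] at hg
    by_cases hT : D.T2 = 0
    · have hsq := D.squares_of_T2 hT
      rw [D.T1_of_squares hsq, hT] at hF
      have hsum : D.numV + D.numF = D.numE := by omega
      cases c with
      | false =>
        obtain ⟨ε', hε'⟩ := orientable_of_false e0 e1 e2 hc
        have ho : D.Orientable := ⟨ε', fun y => ⟨fun _ => (hε' y).1, (hε' y).2⟩⟩
        left
        exact ⟨hf, hsq, hm, hnf, ho, not_bipartite ht, hsum⟩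
      | true =>
        have ha := alternating_of_true e0 e1 e2 hc
        right; left
        exact ⟨hf, hsq, hm, hnf, fun ho => not_bipartite ht (bipartite_of ha ho hm), ha, hsum⟩
    · have hk2 : D.k = 2 := by
        by_contra hk2
        have hk3 : 3 ≤ D.k := by omega
        have hT1 : D.T1 = 0 := card_empty_of (D.turn_ne hk2)
        rw [hT1] at hF
        have h8 : 8 ≤ D.T2 := by omega
        have h4 : 4 ≤ 2 ^ (D.k - 1) := by
          have := Nat.pow_le_pow_right (n := 2) (by norm_num) (show 2 ≤ D.k - 1 by omega)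
          simpa using this
        have := Nat.mul_le_mul h4 h8
        omega
      rw [hk2] at hg
      norm_num at hg
      have hT2 : D.T2 = 8 := by omega
      have hle := D.T1_le_T2
      cases c with
      | false =>
        obtain ⟨ε', hε'⟩ := orientable_of_false e0 e1 e2 hc
        have ho : D.Orientable := ⟨ε', fun y => ⟨fun _ => (hε' y).1, (hε' y).2⟩⟩
        obtain ⟨g', hg'⟩ := D.genus_Y hε'
        have hT1 : D.T1 = 4 := by omega
        right; right; right; left
        refine ⟨hk2, hf, hm, hnf, ho, hT1, ?_, by omega⟩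
        have hsplit := D.T2_split
        omega
      | true =>
        exfalso
        have hT1 := (alternating_of_true e0 e1 e2 hc).T1
        exact parity_contra ht hk2 e0 e1 e2 hc (by omega)

/-! ### branched vertices -/

theorem exists_smul_half {k : ℕ} (hk : 1 ≤ k) {z : ZMod (2 ^ k)} (hz : z ≠ 0) :
    ∃ n : ℕ, n • z = half k := by
  classical
  have hex : ∃ m : ℕ, 2 ^ m • z = 0 := ⟨k, by
    rw [nsmul_eq_mul]
    have : ((2 ^ k : ℕ) : ZMod (2 ^ k)) = 0 := ZMod.natCast_self _
    rw [this, zero_mul]⟩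
  have hspec := Nat.find_spec hex
  obtain ⟨m, hm⟩ : ∃ m, Nat.find hex = m + 1 := by
    refine ⟨Nat.find hex - 1, ?_⟩
    have : Nat.find hex ≠ 0 := by
      intro h0
      rw [h0] at hspec
      simp at hspec
      exact hz hspec
    omega
  rw [hm, pow_succ, mul_nsmul, two_nsmul] at hspec
  have hne : 2 ^ m • z ≠ 0 := Nat.find_min hex (by omega)
  refine ⟨2 ^ m, ?_⟩
  rcases (add_self_eq_zero hk).1 (by rw [← nsmul_add] at hspec; rw [← nsmul_add]; exact hspec)
    with h | h
  · exact absurd h hne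
  · exact h

theorem orb_smul {y : D.Y} {z : ZMod (2 ^ D.k)} (h : (orb D.p1 D.p2) (y, 0) (y, z)) (n : ℕ) :
    (orb D.p1 D.p2) (y, 0) (y, n • z) := by
  induction n with
  | zero => rw [zero_nsmul]
  | succ n ih =>
    have := D.orb_transl (n • z) h
    simp only [zero_add] at this
    rw [succ_nsmul, add_comm]
    exact orb_trans ih this

theorem branched_half {y : D.Y} (h : ¬ D.Unbranched y) :
    (orb D.p1 D.p2) (y, 0) (y, half D.k) := by
  rw [Unbranched] at h
  push Not at h
  obtain ⟨z, hz, hne⟩ := h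
  obtain ⟨n, hn⟩ := exists_smul_half D.hk hne
  rw [← hn]
  exact D.orb_smul hz n

theorem branched_iff {y : D.Y} :
    ¬ D.Unbranched y ↔ (orb D.p1 D.p2) (y, 0) (y, half D.k) :=
  ⟨D.branched_half, fun h h' => half_ne D.hk (h' _ h)⟩

theorem unbranched_of_one (hk : D.k = 1) (y : D.Y) : D.Unbranched y := by
  by_contra h
  have h1 := D.par_vertex (D.branched_half h)
  simp only [map_zero] at h1
  have h2 : Even (half D.k) := (even_iff_par D.hk).2 h1.symm
  have h3 : Odd (half D.k) := by
    rw [hk, half_one]; exact odd_one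
  exact (not_odd_iff_even D.hk).2 h2 h3

theorem branched_congr {y y' : D.Y} (h : (orb D.s1 D.s2) y y') (hb : ¬ D.Unbranched y) :
    ¬ D.Unbranched y' := by
  rw [branched_iff] at hb ⊢
  obtain ⟨z', hz'⟩ := D.orb_lift h 0
  have h1 := D.orb_transl (half D.k) hz'
  have h2 := orb_trans (orb_symm hz') (orb_trans hb (by simpa using h1))
  have h3 := D.orb_transl (-z') h2
  simpa [add_comm, add_left_comm] using h3

theorem tv_pos {y : D.Y} (hb : ¬ D.Unbranched y) : 1 ≤ D.tv := by
  have := D.finite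
  have hne : NeZero (2 ^ D.k) := ⟨by positivity⟩
  have h1 := D.branched_half hb
  have : Nonempty {C : Quotient (orb (PP D.s1 D.v1) (PP D.s2 D.v2)) //
    trV D.s1 D.s2 D.v1 D.v2 (half D.k) C = C} := by
    refine ⟨⟨Quotient.mk _ (y, 0), ?_⟩⟩
    rw [trV_mk, mk_eq]
    simp only [zero_add]
    exact orb_symm h1
  exact Nat.card_pos

theorem flat_count' {Y A : Type} [AddCommGroup A] (s1 s2 : Y → Y) (u1 u2 : Y → A)
    (h1 : ∀ y, u1 y = 0) (h2 : ∀ y, u2 y = 0) :
    nOrb (PP s1 u1) (PP s2 u2) = nOrb s1 s2 * Nat.card A := by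
  have key : ∀ {p q : Y × A}, (orb (PP s1 u1) (PP s2 u2)) p q ↔
      (orb s1 s2) p.1 q.1 ∧ p.2 = q.2 := by
    intro p q
    constructor
    · intro h
      refine ⟨orb_map (fun p : Y × A => p.1) (fun _ => rfl) (fun _ => rfl) h, ?_⟩
      refine conn_const (fun p : Y × A => p.2) ?_ h
      rintro ⟨y, z⟩ _ (rfl | rfl)
      · change z = z + u1 y
        rw [h1, add_zero]
      · change z = z + u2 y
        rw [h2, add_zero]
    · rintro ⟨h, h'⟩
      have h3 : (orb (PP s1 u1) (PP s2 u2)) (p.1, p.2) (q.1, p.2) := by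
        refine orb_map (fun y : Y => (y, p.2)) ?_ ?_ h
        · intro a
          change (s1 a, p.2) = (s1 a, p.2 + u1 a)
          rw [h1, add_zero]
        · intro a
          change (s2 a, p.2) = (s2 a, p.2 + u2 a)
          rw [h2, add_zero]
      rw [h'] at h3
      have e1 : p = (p.1, q.2) := by rw [← h']
      rw [e1]
      exact h3
  rw [nOrb, nOrb]
  have e : Quotient (orb (PP s1 u1) (PP s2 u2)) ≃ Quotient (orb s1 s2) × A :=
    { toFun := Quotient.lift (fun p : Y × A => (Quotient.mk (orb s1 s2) p.1, p.2)) (by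
        intro p q h
        have := key.1 h
        exact Prod.ext (mk_eq.2 this.1) this.2)
      invFun := fun c => Quotient.lift
        (fun y => Quotient.mk (orb (PP s1 u1) (PP s2 u2)) (y, c.2)) (by
          intro y y' h
          exact mk_eq.2 (key.2 ⟨h, rfl⟩)) c.1
      left_inv := by
        intro q
        induction q using Quotient.inductionOn
        rfl
      right_inv := by
        rintro ⟨c, z⟩
        induction c using Quotient.inductionOn
        rfl }
  rw [Nat.card_congr e, Nat.card_prod]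

theorem even_two {k : ℕ} (hk : k = 2) {z : ZMod (2 ^ k)} (hz : Even z) : z = 0 ∨ z = half k := by
  rw [← add_self_eq_zero (by omega)]
  obtain ⟨r, rfl⟩ := hz
  have h4 : ((2 ^ k : ℕ) : ZMod (2 ^ k)) = 0 := ZMod.natCast_self _
  have h5 : r + r + (r + r) = ((4 : ℕ) : ZMod (2 ^ k)) * r := by push_cast; ring
  rw [h5, show (4 : ℕ) = 2 ^ k by rw [hk]; norm_num, h4, zero_mul]

/-- vertices of the unfolded structure over the vertices of the quotient, `k = 2` -/
theorem count_V (hk2 : D.k = 2) : 4 * D.numV = nOrb D.p1 D.p2 + D.tv := by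
  have := D.finite
  have hne : NeZero (2 ^ D.k) := ⟨by positivity⟩
  have hker : ∀ x, redHalf D.k x = 0 ↔ x = 0 ∨ x = half D.k := redHalf_eq_zero D.hk
  have hV := level_count D.s1 D.s2 D.v1 D.v2 (redHalf D.k) (redHalf_surj D.k) (half D.k) hker
  have h := flat_count' D.s1 D.s2 (fun y => redHalf D.k (D.v1 y)) (fun y => redHalf D.k (D.v2 y))
    (fun y => (hker _).2 (even_two hk2 (D.even1 y)))
    (fun y => (hker _).2 (even_two hk2 (D.even2 y)))
  have hc : Nat.card (ZMod (2 ^ (D.k - 1))) = 2 := by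
    rw [Nat.card_zmod, hk2]; norm_num
  rw [h, hc] at hV
  change 2 * (D.numV * 2) = nOrb D.p1 D.p2 + D.tv at hV
  omega

theorem no_branched_of_three {D : Datum} (ht : D.Toral) (hk : 3 ≤ D.k) (y : D.Y) :
    D.Unbranched y := by
  by_contra hb
  have := D.finite
  have hnon := D.nonempty
  have hne : NeZero (2 ^ D.k) := ⟨by positivity⟩
  have htv := D.tv_pos hb
  obtain ⟨g, hg⟩ := half_genus ht (by omega)
  obtain ⟨j, hj⟩ : ∃ j, D.k = j + 3 := ⟨D.k - 3, by omega⟩
  have h8 := free8 (S := Quotient (orb (PP D.s1 D.v1) (PP D.s2 D.v2)))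
    (fun n => trV D.s1 D.s2 D.v1 D.v2 (((n * 2 ^ j : ℕ)) : ZMod (2 ^ D.k)))
    (fun x => by simp only [zero_mul, Nat.cast_zero]; exact trV_zero _ _ _ _ x)
    (fun m n x => by
      rw [trV_add, ← Nat.cast_add, ← add_mul])
    (fun x => by
      have : ((8 * 2 ^ j : ℕ) : ZMod (2 ^ D.k)) = 0 := by
        rw [show 8 * 2 ^ j = 2 ^ D.k by rw [hj, pow_add]; ring]
        exact ZMod.natCast_self _
      simp only [this]
      exact trV_zero _ _ _ _ x)
  have hhalf : ((4 * 2 ^ j : ℕ) : ZMod (2 ^ D.k)) = half D.k := by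
    rw [half]
    congr 1
    rw [hj, show j + 3 - 1 = 2 + j by omega, pow_add]; norm_num
  simp only [hhalf] at h8
  obtain ⟨m, hm⟩ := h8
  have hsum : nOrb D.p1 D.p2 = D.tv + 8 * m := by
    rw [← hm]
    have := card_split (α := Quotient (orb (PP D.s1 D.v1) (PP D.s2 D.v2)))
      (P := fun C => trV D.s1 D.s2 D.v1 D.v2 (half D.k) C = C) (Q := fun _ => True)
      (fun _ _ => trivial)
    have h2 : Nat.card {a : Quotient (orb (PP D.s1 D.v1) (PP D.s2 D.v2)) // True} =
        nOrb D.p1 D.p2 := Nat.card_congr (Equiv.subtypeUnivEquiv fun _ => trivial)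
    rw [h2] at this
    rw [this]
    congr 1
    refine Nat.card_congr (Equiv.subtypeEquivRight fun C => ?_)
    simp
  have ht8 := ht.torus
  rw [D.card_R] at ht8
  have hE := D.count_E
  have hF := D.count_F
  rw [D.card_M_of_noMirror (D.noMirror_of_two_le (by omega))] at hE hF
  rw [D.card_H_of_noFold (D.noFold_of_two_le (by omega))] at hE
  have hT1 : D.T1 = 0 := card_empty_of (D.turn_ne (by omega))
  change 8 * D.numF = Nat.card D.Y + 2 * D.T1 + D.T2 + _ at hF
  rw [hT1] at hF
  have hVR : nOrb D.p1 D.p2 = Nat.card D.Y * 2 ^ j := by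
    rw [hj, show 2 ^ (j + 3) = 8 * 2 ^ j by rw [pow_add]; ring] at ht8
    have : Nat.card D.Y * (8 * 2 ^ j) = 8 * (Nat.card D.Y * 2 ^ j) := by ring
    omega
  rw [hj, show j + 3 - 1 = j + 2 by omega] at hg
  rcases Nat.eq_zero_or_pos j with h0 | h0
  · subst h0
    norm_num at hg hVR
    omega
  · obtain ⟨i, rfl⟩ : ∃ i, j = i + 1 := ⟨j - 1, by omega⟩
    have : Nat.card D.Y * 2 ^ (i + 1) = 8 * (D.numE * 2 ^ i) := by
      rw [pow_succ, show Nat.card D.Y = 4 * D.numE by omega]; ring
    omega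

/-- the two fixed vertices over a branched vertex -/
theorem fixed_mk {y : D.Y} (hb : ¬ D.Unbranched y) (z : ZMod (2 ^ D.k)) :
    trV D.s1 D.s2 D.v1 D.v2 (half D.k) (Quotient.mk _ (y, z)) = Quotient.mk _ (y, z) := by
  rw [trV_mk, mk_eq]
  have h1 := D.orb_transl z (D.branched_half hb)
  simp only [zero_add] at h1
  rw [add_comm] at h1
  exact orb_symm h1

theorem mk_zero_ne_one (y y' : D.Y) :
    (Quotient.mk (orb (PP D.s1 D.v1) (PP D.s2 D.v2)) (y, 0)) ≠
      Quotient.mk (orb (PP D.s1 D.v1) (PP D.s2 D.v2)) (y', 1) := by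
  intro h
  have h1 := D.par_vertex (mk_eq.1 h)
  simp only [map_zero, map_one] at h1
  exact absurd h1 (by decide)

/-- if exactly two vertices of the unfolded structure are fixed then there is only one branched
vertex -/
theorem unique_branched {D : Datum} {y₀ : D.Y} (hb : ¬ D.Unbranched y₀) (htv : D.tv = 2) :
    ∀ y, ¬ D.Unbranched y ↔ (orb D.s1 D.s2) y₀ y := by
  have := D.finite
  have hne : NeZero (2 ^ D.k) := ⟨by positivity⟩
  intro y
  constructor
  · intro hy
    by_contra hn
    classical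
    let F := {C : Quotient (orb (PP D.s1 D.v1) (PP D.s2 D.v2)) //
      trV D.s1 D.s2 D.v1 D.v2 (half D.k) C = C}
    let a : F := ⟨Quotient.mk _ (y₀, 0), D.fixed_mk hb 0⟩
    let b : F := ⟨Quotient.mk _ (y₀, 1), D.fixed_mk hb 1⟩
    let c : F := ⟨Quotient.mk _ (y, 0), D.fixed_mk hy 0⟩
    have hab : a ≠ b := fun h => D.mk_zero_ne_one y₀ y₀ (congrArg Subtype.val h)
    have hac : a ≠ c := fun h => hn (D.orb_proj (mk_eq.1 (congrArg Subtype.val h)))
    have hbc : b ≠ c := fun h => hn (D.orb_proj (mk_eq.1 (congrArg Subtype.val h)))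
    have : Fintype F := Fintype.ofFinite F
    have hcard : Fintype.card F = 2 := by rw [← Nat.card_eq_fintype_card]; exact htv
    have h3 : ({a, b, c} : Finset F).card = 3 := by
      rw [Finset.card_insert_of_notMem, Finset.card_insert_of_notMem, Finset.card_singleton]
      · simpa using hbc
      · simp [hab, hac]
    have h4 := Finset.card_le_univ ({a, b, c} : Finset F)
    rw [h3, hcard] at h4
    omega
  · intro h
    exact D.branched_congr h hb

/-- toral data with a branched vertex are of type V -/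
theorem branched_admissible {D : Datum} (ht : D.Toral) {y₀ : D.Y} (hb : ¬ D.Unbranched y₀) :
    D.TypeV := by
  have hfin := D.finite
  have hnon := D.nonempty
  have hk2 : D.k = 2 := by
    rcases Nat.lt_or_ge D.k 2 with hk | hk
    · exact absurd (D.unbranched_of_one (by have := D.hk; omega) y₀) hb
    · rcases Nat.lt_or_ge D.k 3 with hk' | hk'
      · omega
      · exact absurd (no_branched_of_three ht hk' y₀) hb
  obtain ⟨ε, c, e0, e1, e2, hc⟩ := ht.eps
  have hm := D.noMirror_of_two_le (by omega)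
  have hnf := D.noFold_of_two_le (by omega)
  have hE := D.count_E
  have hF := D.count_F
  change 8 * D.numF = Nat.card D.Y + 2 * D.T1 + D.T2 + _ at hF
  rw [D.card_M_of_noMirror hm] at hE hF
  rw [D.card_H_of_noFold hnf] at hE
  have hV := D.count_V hk2
  have hR := ht.torus
  rw [D.card_R, hk2] at hR
  norm_num at hR
  have htv := D.tv_pos hb
  obtain ⟨g, hg⟩ := half_genus ht (by omega)
  rw [hk2] at hg
  norm_num at hg
  have hle := D.T1_le_T2
  cases c with
  | false =>
    obtain ⟨ε', hε'⟩ := orientable_of_false e0 e1 e2 hc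
    have ho : D.Orientable := ⟨ε', fun y => ⟨fun _ => (hε' y).1, (hε' y).2⟩⟩
    obtain ⟨g', hg'⟩ := D.genus_Y hε'
    have hT1 : D.T1 = 4 := by omega
    have hT2 : D.T2 = 4 := by omega
    have htv2 : D.tv = 2 := by omega
    exact ⟨hk2, hm, hnf, ho, hT1, D.turn_eq_of_T1_eq_T2 (by rw [hT1, hT2]),
      ⟨y₀, unique_branched hb htv2⟩, by omega⟩
  | true =>
    exfalso
    have hT1 := (alternating_of_true e0 e1 e2 hc).T1
    exact parity_contra ht hk2 e0 e1 e2 hc (by omega)

/-- The classification of toral data. -/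
theorem admissible_of_toral (D : Datum) (h : D.Toral) :
    ∃ D' : Datum, D'.Admissible ∧ (D.Simple → D'.Simple) ∧
      ∃ e : D.sys.X ≃ D'.sys.X, (∀ x, e (D.sys.r0 x) = D'.sys.r0 (e x)) ∧
      (∀ x, e (D.sys.r1 x) = D'.sys.r1 (e x)) ∧ (∀ x, e (D.sys.r2 x) = D'.sys.r2 (e x)) := by
  by_cases hu : ∀ y, D.Unbranched y
  · obtain ⟨t, ht, hf⟩ := D.exists_flat hu
    obtain ⟨G, hG⟩ := D.gauge_iso t ht
    exact ⟨D.gauge t ht, flat_admissible (hG.toral h) hf, hG.simple, hG.sys⟩
  · push Not at hu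
    obtain ⟨y₀, hy₀⟩ := hu
    exact ⟨D, Or.inr (Or.inr (Or.inr (Or.inr (Or.inl (branched_admissible h hy₀))))), id,
      Equiv.refl _, fun _ => rfl, fun _ => rfl, fun _ => rfl⟩

end Datum

end Pool.Agent.SDT
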